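import Pool.Agent.PLE.Stmts

/-!
Combinatorics of the sequences `ν{j}`, `λ[j]` (paper section 5): `StmtC1`.
-/

namespace Pool.Agent.PLE

namespace AuxC1

theorem getD_antitone (L : List ℕ) (h : L.Pairwise (· ≥ ·)) (n : ℕ) :
    Antitone fun a : Fin n => L.getD a 0 := by
  intro a b hab
  show L.getD b 0 ≤ L.getD a 0
  by_cases hb : (b : ℕ) < L.length
  · have hab' : (a : ℕ) ≤ b := hab
    have ha : (a : ℕ) < L.length := lt_of_le_of_lt hab' hb
    rw [List.getD_eq_getElem _ _ hb, List.getD_eq_getElem _ _ ha]
    rcases Nat.lt_or_ge (a : ℕ) b with h1 | h1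
    · exact List.pairwise_iff_getElem.1 h a b ha hb h1
    · have : (a : ℕ) = b := le_antisymm hab' h1
      simp only [this]
      exact le_rfl
  · rw [List.getD_eq_default _ _ (by omega)]
    exact Nat.zero_le _

open Classical in
theorem card_getD (b : ℕ) : ∀ (L : List ℕ) (p : ℕ), L.length ≤ p →
    (Finset.univ.filter fun a : Fin p => b < L.getD a 0).card = L.countP (fun x => decide (b < x))
  | [], p, _ => by
    rw [List.countP_nil, Finset.card_eq_zero, Finset.filter_eq_empty_iff]
    intro a _
    simp
  | x :: L, 0, h => by simp at h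
  | x :: L, p + 1, h => by
    rw [Fin.card_filter_univ_succ, List.countP_cons]
    have ih := card_getD b L p (by simpa using h)
    have h1 : (Finset.univ.filter fun a : Fin p => b < (x :: L).getD (a.succ : Fin (p + 1)) 0).card
        = L.countP (fun x => decide (b < x)) := by
      rw [← ih]
      rfl
    have h2 : (b < (x :: L).getD ((0 : Fin (p + 1)) : ℕ) 0) ↔ b < x := Iff.rfl
    rw [h1]
    by_cases hx : b < x
    · rw [if_pos (h2.2 hx)]
      simp [hx]
    · rw [if_neg (fun h => hx (h2.1 h))]
      simp [hx]

theorem card_getD' (b : ℕ) (L : List ℕ) (p : ℕ) (h : L.length ≤ p)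
    (inst : DecidablePred fun a : Fin p => b < L.getD a 0) :
    (Finset.univ.filter fun a : Fin p => b < L.getD a 0).card =
      L.countP (fun x => decide (b < x)) := by
  rw [← card_getD b L p h]
  congr

theorem sort_pw (L : List ℕ) : (L.insertionSort (· ≥ ·)).Pairwise (· ≥ ·) :=
  List.pairwise_insertionSort (· ≥ ·) L

theorem addParts_pw (L : List ℕ) (k j : ℕ) : (addParts L k j).Pairwise (· ≥ ·) := sort_pw _

theorem addParts_perm (L : List ℕ) (k j : ℕ) :
    (addParts L k j).Perm (L ++ List.replicate j k) := List.perm_insertionSort _ _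

theorem addRow_pw (L : List ℕ) (k : ℕ) (h : L.Pairwise (· ≥ ·)) :
    (addRow L k).Pairwise (· ≥ ·) := by
  cases L with
  | nil => exact List.pairwise_singleton _ _
  | cons a t =>
    rw [List.pairwise_cons] at h
    show ((a + k) :: t).Pairwise (· ≥ ·)
    rw [List.pairwise_cons]
    refine ⟨fun b hb => ?_, h.2⟩
    have := h.1 b hb
    omega

theorem addRow_getD (L : List ℕ) (k a : ℕ) :
    (addRow L k).getD a 0 = L.getD a 0 + if a = 0 then k else 0 := by
  cases L with
  | nil =>
    cases a with
    | zero => simp [addRow]
    | succ a => simp [addRow]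
  | cons x t =>
    cases a with
    | zero => simp [addRow]
    | succ a => simp [addRow]

theorem addRow_length (L : List ℕ) (k k' : ℕ) : (addRow L k).length = (addRow L k').length := by
  cases L <;> simp [addRow]

theorem le_head (L : List ℕ) (h : L.Pairwise (· ≥ ·)) (x : ℕ) (hx : x ∈ L) : x ≤ L.getD 0 0 := by
  cases L with
  | nil => simp at hx
  | cons a t =>
    rw [List.pairwise_cons] at h
    rw [List.mem_cons] at hx
    rcases hx with rfl | hx
    · simp
    · have := h.1 x hx
      simpa using this

theorem getD_le (L : List ℕ) (M : ℕ) (h : ∀ x ∈ L, x ≤ M) (a : ℕ) : L.getD a 0 ≤ M := by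
  by_cases ha : a < L.length
  · rw [List.getD_eq_getElem _ _ ha]
    exact h _ (List.getElem_mem _)
  · rw [List.getD_eq_default _ _ (by omega)]
    exact Nat.zero_le _

/-- the entries above `q` are those of `L` -/
theorem addParts_getD (L : List ℕ) (h : L.Pairwise (· ≥ ·)) (q j a : ℕ) :
    (addParts L q j).getD a 0 - q = L.getD a 0 - q := by
  have e : (addParts L q j).map (· - q) = L.map (· - q) ++ List.replicate j 0 := by
    refine List.Perm.eq_of_pairwise (le := (· ≥ ·)) (fun a b _ _ h1 h2 => le_antisymm h2 h1) ?_ ?_ ?_
    · rw [List.pairwise_map]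
      refine (addParts_pw L q j).imp ?_
      intro x y hxy
      exact Nat.sub_le_sub_right hxy q
    · rw [List.pairwise_append]
      refine ⟨?_, ?_, ?_⟩
      · rw [List.pairwise_map]
        refine h.imp ?_
        intro x y hxy
        exact Nat.sub_le_sub_right hxy q
      · exact List.pairwise_replicate.2 (Or.inr le_rfl)
      · intro x _ y hy
        rw [List.eq_of_mem_replicate hy]
        exact Nat.zero_le _
    · have := (addParts_perm L q j).map (· - q)
      rw [List.map_append, List.map_replicate, Nat.sub_self] at this
      exact this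
  have h1 : ((addParts L q j).map (· - q)).getD a 0 = (addParts L q j).getD a 0 - q := by
    have := List.getD_map (l := addParts L q j) (d := 0) (n := a) (f := (· - q))
    simpa using this
  have h2 : (L.map (· - q) ++ List.replicate j 0).getD a 0 = L.getD a 0 - q := by
    have h3 : (L.map (· - q)).getD a 0 = L.getD a 0 - q := by
      have := List.getD_map (l := L) (d := 0) (n := a) (f := (· - q))
      simpa using this
    by_cases ha : a < (L.map (· - q)).length
    · rw [List.getD_append _ _ _ _ ha, h3]
    · rw [List.getD_append_right _ _ _ _ (by omega), ← h3,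
        List.getD_eq_default (L.map (· - q)) _ (by omega)]
      have := getD_le (List.replicate j 0) 0 (fun x hx => by
        rw [List.eq_of_mem_replicate hx]) (a - (L.map (· - q)).length)
      omega
  rw [← h1, e, h2]

theorem countP_addParts (L : List ℕ) (q j b : ℕ) :
    (addParts L q j).countP (fun x => decide (b < x)) =
      L.countP (fun x => decide (b < x)) + if b < q then j else 0 := by
  rw [(addParts_perm L q j).countP_eq, List.countP_append, List.countP_replicate]
  simp

theorem countP_addRow (L : List ℕ) (k k' b : ℕ) (h : k' = k ∨ (b < L.getD 0 0 + k ∧ k ≤ k')) :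
    (addRow L k').countP (fun x => decide (b < x)) =
      (addRow L k).countP (fun x => decide (b < x)) := by
  rcases h with rfl | ⟨h1, h2⟩
  · rfl
  · cases L with
    | nil =>
      have h3 : b < k := by simpa using h1
      simp [addRow, h3, lt_of_lt_of_le h3 h2]
    | cons x t =>
      have h3 : b < x + k := by simpa using h1
      have h4 : b < x + k' := by omega
      simp [addRow, h3, h4]

theorem addParts_length (L : List ℕ) (k j : ℕ) : (addParts L k j).length = L.length + j := by
  rw [(addParts_perm L k j).length_eq, List.length_append, List.length_replicate]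

end AuxC1

open AuxC1

theorem C1_proof : StmtC1 := by
  intro l m j p ν hlm hν hlen
  have hlen' : (nuSeq l m ν j).length ≤ p + 1 := by
    unfold nuSeq at hlen ⊢
    rw [addParts_length] at hlen ⊢
    rw [addRow_length ν (l * j) (l * (j + 1))]
    omega
  have hpw : ∀ k, (addRow ν k).Pairwise (· ≥ ·) := fun k => addRow_pw ν k hν
  refine ⟨getD_antitone _ (addParts_pw _ _ _) _, getD_antitone _ (addParts_pw _ _ _) _, ?_, ?_⟩
  · intro hcase
    have hmul : l * (j + 1) = l * j + l := by ring
    funext i
    rcases i with a | b
    · have e1 : (nuSeq l m ν (j + 1)).getD a 0 - (m - l) = (nuSeq l m ν j).getD a 0 - (m - l) +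
          (if a = 0 then l else 0) := by
        unfold nuSeq
        rw [addParts_getD _ (hpw _), addParts_getD _ (hpw _), addRow_getD, addRow_getD]
        by_cases ha : a = 0
        · subst ha
          simp only [Fin.val_zero, if_true]
          rw [hmul]
          omega
        · have ha' : (a : ℕ) ≠ 0 := fun h => ha (Fin.ext (by simpa using h))
          rw [if_neg ha', if_neg ha', if_neg ha, add_zero, add_zero]
      show (((nuSeq l m ν (j + 1)).getD a 0 - (m - l) : ℕ) : ℤ) =
        (((nuSeq l m ν j).getD a 0 - (m - l) : ℕ) : ℤ) + (if a = 0 then (l : ℤ) else 0)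
      rw [e1]
      push_cast
      rfl
    · have hb : (b : ℕ) < m - l := b.2
      have e1 : (nuSeq l m ν (j + 1)).countP (fun x => decide ((b : ℕ) < x)) =
          (nuSeq l m ν j).countP (fun x => decide ((b : ℕ) < x)) + 1 := by
        unfold nuSeq
        rw [countP_addParts, countP_addParts, if_pos hb, if_pos hb,
          countP_addRow ν (l * j) (l * (j + 1)) b]
        · omega
        · rcases hcase with h0 | h0
          · left
            rw [h0]
            simp
          · right
            exact ⟨lt_of_lt_of_le hb h0, by rw [hmul]; omega⟩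
      unfold wtS wtu
      simp only [Pi.add_apply, Sum.elim_inr]
      rw [card_getD' _ _ _ hlen, card_getD' _ _ _ hlen', e1]
      push_cast
      rfl
  · intro _ hlt a
    refine getD_le _ _ ?_ _
    intro x hx
    unfold nuSeq at hx
    rw [(addParts_perm _ _ _).mem_iff, List.mem_append] at hx
    rcases hx with hx | hx
    · have h1 := le_head _ (hpw _) x hx
      rw [addRow_getD, if_pos rfl] at h1
      omega
    · rw [List.eq_of_mem_replicate hx]

end Pool.Agent.PLE
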