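import Pool.Agent.PLE.Stmts

/-!
Task C2: the combinatorics of the sequence `lam[j]` (paper section 5).
-/

namespace Pool.Agent.PLE

namespace AuxC2

lemma antitone_getD (n : ℕ) (L : List ℕ) (hL : L.Pairwise (· ≥ ·)) :
    Antitone fun c : Fin n => L.getD c 0 := by
  intro a b hab
  simp only
  by_cases hb : (b : ℕ) < L.length
  · have ha : (a : ℕ) < L.length := lt_of_le_of_lt hab hb
    rw [List.getD_eq_getElem _ _ hb, List.getD_eq_getElem _ _ ha]
    rcases eq_or_lt_of_le hab with h | h
    · subst h; exact le_rfl
    · exact List.pairwise_iff_getElem.1 hL a b ha hb h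
  · rw [List.getD_eq_default _ _ (not_lt.1 hb)]
    exact Nat.zero_le _

lemma pairwise_addRow (L : List ℕ) (k : ℕ) (hL : L.Pairwise (· ≥ ·)) :
    (addRow L k).Pairwise (· ≥ ·) := by
  cases L with
  | nil => simp [addRow]
  | cons a t =>
    simp only [addRow, List.pairwise_cons] at hL ⊢
    exact ⟨fun x hx => (hL.1 x hx).trans (Nat.le_add_right _ _), hL.2⟩

lemma pairwise_addParts (L : List ℕ) (k j : ℕ) : (addParts L k j).Pairwise (· ≥ ·) :=
  List.pairwise_insertionSort _ _

lemma pairwise_lamSeq (l m : ℕ) (lam : List ℕ) (j : ℕ) (h : lam.Pairwise (· ≥ ·)) :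
    (lamSeq l m lam j).Pairwise (· ≥ ·) := by
  unfold lamSeq
  split_ifs
  · exact pairwise_addRow _ _ h
  · exact pairwise_addParts _ _ _

lemma card_getD (n b : ℕ) (L : List ℕ) (h : L.length ≤ n) :
    (Finset.univ.filter fun a : Fin n => b < L.getD a 0).card = L.countP (fun x => b < x) := by
  induction n generalizing L with
  | zero =>
    have : L = [] := List.length_eq_zero_iff.1 (Nat.le_zero.1 h)
    subst this
    simp
  | succ n ih =>
    rw [Finset.card_filter, Fin.sum_univ_succ, ← Finset.card_filter]
    cases L with
    | nil => simp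
    | cons x t =>
      have := ih t (by simpa using h)
      simp only [Fin.val_zero, List.getD_cons_zero, Fin.val_succ, List.getD_cons_succ]
      rw [this, List.countP_cons, add_comm]
      simp

lemma perm_addParts (L : List ℕ) (k j : ℕ) :
    (addParts L k j).Perm (L ++ List.replicate j k) := List.perm_insertionSort _ _

lemma mem_le_getD (L : List ℕ) (hL : L.Pairwise (· ≥ ·)) (x : ℕ) (hx : x ∈ L) :
    x ≤ L.getD 0 0 := by
  cases L with
  | nil => simp at hx
  | cons a t =>
    rw [List.getD_cons_zero]
    rcases List.mem_cons.1 hx with h | h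
    · exact h.le
    · exact (List.pairwise_cons.1 hL).1 x h

lemma getD_mem_or (L : List ℕ) (a : ℕ) : L.getD a 0 = 0 ∨ L.getD a 0 ∈ L := by
  by_cases h : a < L.length
  · right
    rw [List.getD_eq_getElem _ _ h]
    exact List.getElem_mem h
  · left
    exact List.getD_eq_default _ _ (not_lt.1 h)

lemma addParts_le (L : List ℕ) (hL : L.Pairwise (· ≥ ·)) (j s a : ℕ) (h : L.getD 0 0 ≤ s + 1) :
    (addParts L 1 j).getD a 0 ≤ s + 1 := by
  rcases getD_mem_or (addParts L 1 j) a with h0 | h0
  · rw [h0]; exact Nat.zero_le _
  · have h1 := (perm_addParts L 1 j).subset h0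
    rcases List.mem_append.1 h1 with h2 | h2
    · exact (mem_le_getD L hL _ h2).trans h
    · rw [(List.mem_replicate.1 h2).2]; omega

end AuxC2

open AuxC2 in
theorem C2_proof : StmtC2 := by
  classical
  intro l m j r lam hlam hr
  refine ⟨antitone_getD _ _ (pairwise_lamSeq l m lam j hlam),
    antitone_getD _ _ (pairwise_lamSeq l m lam (j + 1) hlam), ?_, ?_, ?_⟩
  · intro hj
    unfold lamSeq
    split_ifs with hev
    · cases lam with
      | nil => simp [addRow]; omega
      | cons a t => simp [addRow]; omega
    · have h1 : 1 ∈ addParts lam 1 j := by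
        refine (perm_addParts lam 1 j).symm.subset ?_
        refine List.mem_append_right _ (List.mem_replicate.2 ⟨by omega, rfl⟩)
      have := mem_le_getD _ (pairwise_addParts lam 1 j) 1 h1
      omega
  · intro hev s
    funext i
    rcases i with c | c
    · simp only [wtE, Sum.elim_inl, Pi.add_apply, lamSeq, if_pos hev]
      by_cases hc : c = 0
      · subst hc
        cases lam with
        | nil => simp [addRow]
        | cons a t => simp [addRow]; ring
      · rw [Pi.single_eq_of_ne (by simpa using hc)]
        obtain ⟨c', rfl⟩ := Fin.exists_succ_eq.2 hc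
        cases lam with
        | nil => simp [addRow]
        | cons a t => simp [addRow]
    · simp [wtE]
  · intro hodd s hs
    have hlen : (lamSeq l m lam j).length ≤ r + 1 := by
      refine le_trans ?_ hr
      simp only [lamSeq, if_neg hodd, addParts, List.length_insertionSort, List.length_append,
        List.length_replicate]
      omega
    funext i
    rcases i with c | b
    · simp only [wtS, Sum.elim_inl, Pi.add_apply, lamSeq, if_neg hodd]
      rw [Pi.single_eq_of_ne (by simp), Nat.sub_eq_zero_of_le (addParts_le lam hlam _ s _ hs),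
        Nat.sub_eq_zero_of_le (addParts_le lam hlam _ s _ hs), add_zero]
    · simp only [wtS, Sum.elim_inr, Pi.add_apply]
      rw [card_getD _ _ _ hr, card_getD _ _ _ hlen]
      simp only [lamSeq, if_neg hodd]
      rw [(perm_addParts lam 1 (j + 1)).countP_eq, (perm_addParts lam 1 j).countP_eq,
        List.countP_append, List.countP_append, List.countP_replicate, List.countP_replicate]
      by_cases hb : b = 0
      · subst hb
        simp
        ring
      · have hb' : (0 : ℕ) < b := Nat.pos_of_ne_zero (fun h => hb (Fin.ext h))
        rw [Pi.single_eq_of_ne (by simpa using hb)]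
        have : ¬ (b : ℕ) < 1 := by omega
        simp [this]

end Pool.Agent.PLE
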