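import Pool.Agent.PLE.F34

/-!
One particle operators (task D1 of the PLE project, paper 2.1).
-/

namespace Pool.Agent.PLE

namespace AuxD1

open AuxF34

theorem eps_add_self (a b c : ZMod 2) : eps (a + b + b) c = eps a c := by
  have h : a + b + b = a := by
    rw [add_assoc, CharTwo.add_self_eq_zero, add_zero]
  rw [h]

section OneFock

variable {I : Type} (pI : I → ZMod 2)

/-- `E_{ij} = P_i D_j` -/
noncomputable def EE (i j : I) : Module.End ℚ (Fock pI) := cr pI i * an pI j

open Classical in
theorem EE_rel (hF1 : StmtF1) : GlRel pI (EE pI) := by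
  intro i j k l
  obtain ⟨h1, h2, h3⟩ := hF1 I pI
  have e1 : EE pI i j * EE pI k l =
      (eps (pI j) (pI k) * eps (pI i) (pI k) * eps (pI j) (pI l)) •
        (cr pI k * cr pI i * (an pI l * an pI j)) + if j = k then EE pI i l else 0 := by
    unfold EE
    rw [show cr pI i * an pI j * (cr pI k * an pI l) = cr pI i * (an pI j * cr pI k) * an pI l by
      simp only [mul_assoc], h3 j k, mul_add, add_mul, mul_smul_comm, smul_mul_assoc,
      show cr pI i * (cr pI k * an pI j) * an pI l = (cr pI i * cr pI k) * (an pI j * an pI l) by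
      simp only [mul_assoc], h1 i k, h2 j l, smul_mul_smul_comm, smul_smul]
    congr 1
    · simp only [mul_assoc]
    · split_ifs <;> simp
  have e2 : EE pI k l * EE pI i j =
      eps (pI l) (pI i) • (cr pI k * cr pI i * (an pI l * an pI j)) +
        if l = i then EE pI k j else 0 := by
    unfold EE
    rw [show cr pI k * an pI l * (cr pI i * an pI j) = cr pI k * (an pI l * cr pI i) * an pI j by
      simp only [mul_assoc], h3 l i, mul_add, add_mul, mul_smul_comm, smul_mul_assoc,
      show cr pI k * (cr pI i * an pI l) * an pI j = (cr pI k * cr pI i) * (an pI l * an pI j) by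
      simp only [mul_assoc]]
    congr 1
    split_ifs <;> simp
  rw [e1, e2, smul_add, smul_smul]
  have e3 : eps (pI i + pI j) (pI k + pI l) * eps (pI l) (pI i) =
      eps (pI j) (pI k) * eps (pI i) (pI k) * eps (pI j) (pI l) := by
    rw [eps_mul_left, eps_mul_right, eps_mul_right, eps_comm (pI l) (pI i)]
    have := eps_sq (pI i) (pI l)
    linear_combination (eps (pI i) (pI k) * eps (pI j) (pI k) * eps (pI j) (pI l)) * this
  rw [e3]
  abel

theorem parC_eq (K : Conf pI) (s : Finset I) (hs : K.1.support ⊆ s) :
    parC pI K = ∑ i ∈ s, (K.1 i : ZMod 2) * pI i := by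
  unfold parC Finsupp.sum
  refine Finset.sum_subset hs fun i _ hi => ?_
  simp [Finsupp.notMem_support_iff.1 hi]

theorem parC_add (i : I) (K : Conf pI) (h) : parC pI (addc pI i K h) = parC pI K + pI i := by
  classical
  unfold parC addc
  simp only
  rw [Finsupp.sum_add_index']
  · rw [Finsupp.sum_single_index] <;> simp
  · intro a; simp
  · intro a b c; push_cast; ring

theorem parC_sub (j : I) (K : Conf pI) (h : K.1 j ≠ 0) :
    parC pI (subc pI j K) = parC pI K + pI j := by
  classical
  have h1 : (subc pI j K).1 + Finsupp.single j 1 = K.1 := by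
    unfold subc
    simp only
    refine tsub_add_cancel_of_le ?_
    rw [Finsupp.single_le_iff]
    omega
  have h2 : parC pI K = parC pI (subc pI j K) + pI j := by
    unfold parC
    conv_lhs => rw [← h1]
    rw [Finsupp.sum_add_index']
    · rw [Finsupp.sum_single_index] <;> simp
    · intro a; simp
    · intro a b c; push_cast; ring
  rw [h2, add_assoc, CharTwo.add_self_eq_zero, add_zero]

/-- vectors of parity `p` -/
abbrev HP (p : ZMod 2) : Submodule ℚ (Fock pI) := Finsupp.supported ℚ ℚ {K | parC pI K = p}

theorem EE_bv_mem (i j : I) (K : Conf pI) :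
    EE pI i j (bv pI K) ∈ HP pI (parC pI K + (pI i + pI j)) := by
  unfold EE
  rw [Module.End.mul_apply, an_bv]
  by_cases h : K.1 j = 0
  · simp [h]
  · rw [map_smul]
    refine Submodule.smul_mem _ _ ?_
    unfold cr
    rw [bv, Finsupp.linearCombination_single, one_smul]
    split_ifs with h0
    · refine Submodule.smul_mem _ _ ?_
      unfold bv
      refine Finsupp.single_mem_supported _ _ ?_
      rw [Set.mem_ofPred_eq, parC_add, parC_sub pI j K h]
      ring
    · exact Submodule.zero_mem _

end OneFock

section Two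

variable {I J : Type} (pI : I → ZMod 2) (pJ : J → ZMod 2)

/-- `x ↦ x ⊗ f` -/
noncomputable def io (f : J) : Fock pI →ₗ[ℚ] (GG pI (J := J) →₀ ℚ) :=
  Finsupp.lmapDomain ℚ ℚ fun K => (K, f)

theorem io_bv (f : J) (K : Conf pI) : io pI f (bv pI K) = Finsupp.single (K, f) 1 := by
  unfold io bv
  rw [Finsupp.lmapDomain_apply, Finsupp.mapDomain_single]

theorem TV_io (i j : I) (f : J) (x : Fock pI) : TV pI i j (io pI f x) = io pI f (EE pI i j x) := by
  have : (TV pI (J := J) i j) ∘ₗ io pI f = io pI f ∘ₗ EE pI i j := by
    refine Finsupp.lhom_ext' fun K => LinearMap.ext_ring ?_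
    change TV pI (J := J) i j (io pI f (bv pI K)) = io pI f (EE pI i j (bv pI K))
    rw [io_bv]
    unfold TV
    rw [Finsupp.linearCombination_single, one_smul]
    rfl
  exact LinearMap.congr_fun this x

theorem gg_ext {X : Type*} [AddCommGroup X] [Module ℚ X] {A B : (GG pI (J := J) →₀ ℚ) →ₗ[ℚ] X}
    (h : ∀ (f : J) (K : Conf pI), A (io pI f (bv pI K)) = B (io pI f (bv pI K))) : A = B := by
  refine Finsupp.lhom_ext' fun g => LinearMap.ext_ring ?_
  have := h g.2 g.1
  rw [io_bv] at this
  exact this

open Classical in
theorem TU_io (c d f : J) (p : ZMod 2) (x : Fock pI) (hx : x ∈ HP pI p) :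
    TU pI pJ c d (io pI f x) = if f = d then eps (pJ c + pJ d) p • io pI c x else 0 := by
  have h1 : ∀ K : Conf pI, TU pI pJ c d (io pI f (bv pI K)) =
      if f = d then eps (pJ c + pJ d) (parC pI K) • io pI c (bv pI K) else 0 := by
    intro K
    rw [io_bv, io_bv]
    unfold TU
    rw [Finsupp.linearCombination_single, one_smul]
    simp only [Finsupp.smul_single, smul_eq_mul, mul_one]
  rw [HP, Finsupp.supported_eq_span_single] at hx
  have h2 : Set.EqOn ((TU pI pJ c d) ∘ₗ io pI f)
      (if f = d then eps (pJ c + pJ d) p • io pI c else 0 :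
        Fock pI →ₗ[ℚ] (GG pI (J := J) →₀ ℚ))
      ((fun i => Finsupp.single i (1 : ℚ)) '' {K | parC pI K = p}) := by
    rintro _ ⟨K, hK, rfl⟩
    have := h1 K
    rw [show parC pI K = p from hK] at this
    change TU pI pJ c d (io pI f (bv pI K)) = _
    rw [this]
    split_ifs <;> rfl
  have h3 := LinearMap.eqOn_span h2 hx
  rw [LinearMap.comp_apply] at h3
  rw [h3]
  split_ifs <;> rfl

theorem bv_mem (K : Conf pI) : bv pI K ∈ HP pI (parC pI K) := by
  unfold bv
  exact Finsupp.single_mem_supported _ _ rfl

end Two

end AuxD1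

open AuxF34 AuxD1

theorem D1_proof (hF1 : StmtF1) : StmtD1 := by
  classical
  intro I J pI pJ
  refine ⟨?_, ?_, ?_, ?_, ?_⟩
  · -- relations of T_{ij}
    intro i j k l
    refine gg_ext pI fun f K => ?_
    have h := LinearMap.congr_fun (EE_rel pI hF1 i j k l) (bv pI K)
    simp only [LinearMap.sub_apply, LinearMap.smul_apply, Module.End.mul_apply] at h ⊢
    rw [TV_io, TV_io, TV_io, TV_io, ← map_smul, ← map_sub, h, map_sub, map_smul]
    congr 1
    · split_ifs
      · rw [TV_io]
      · simp
    · congr 1
      split_ifs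
      · rw [TV_io]
      · simp
  · -- relations of T'_{cd}
    intro i j k l
    refine gg_ext pI fun f K => ?_
    simp only [LinearMap.sub_apply, LinearMap.smul_apply, Module.End.mul_apply]
    rw [TU_io pI pJ k l f _ _ (bv_mem pI K), TU_io pI pJ i j f _ _ (bv_mem pI K)]
    have a1 : TU pI pJ i j (if f = l then eps (pJ k + pJ l) (parC pI K) • io pI k (bv pI K) else 0) =
        if f = l then (if k = j then (eps (pJ k + pJ l) (parC pI K) * eps (pJ i + pJ j) (parC pI K)) •
          io pI i (bv pI K) else 0) else 0 := by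
      split_ifs with h1 h2
      · rw [map_smul, TU_io pI pJ i j k _ _ (bv_mem pI K), if_pos h2, smul_smul]
      · rw [map_smul, TU_io pI pJ i j k _ _ (bv_mem pI K), if_neg h2, smul_zero]
      · rw [map_zero]
    have a2 : TU pI pJ k l (if f = j then eps (pJ i + pJ j) (parC pI K) • io pI i (bv pI K) else 0) =
        if f = j then (if i = l then (eps (pJ i + pJ j) (parC pI K) * eps (pJ k + pJ l) (parC pI K)) •
          io pI k (bv pI K) else 0) else 0 := by
      split_ifs with h1 h2
      · rw [map_smul, TU_io pI pJ k l i _ _ (bv_mem pI K), if_pos h2, smul_smul]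
      · rw [map_smul, TU_io pI pJ k l i _ _ (bv_mem pI K), if_neg h2, smul_zero]
      · rw [map_zero]
    rw [a1, a2]
    have b1 : (if j = k then TU pI pJ i l else 0) (io pI f (bv pI K)) =
        if f = l then (if k = j then (eps (pJ k + pJ l) (parC pI K) * eps (pJ i + pJ j) (parC pI K)) •
          io pI i (bv pI K) else 0) else 0 := by
      by_cases h : j = k
      · subst h
        rw [if_pos rfl, TU_io pI pJ i l f _ _ (bv_mem pI K)]
        simp only [if_true]
        split_ifs with h1
        · rw [← eps_mul_left, show pJ j + pJ l + (pJ i + pJ j) = pJ i + pJ l + pJ j + pJ j by ring,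
            eps_add_self]
        · rfl
      · have h' : ¬ k = j := fun h' => h h'.symm
        simp only [if_neg h, if_neg h', ite_self, LinearMap.zero_apply]
    have b2 : (if l = i then TU pI pJ k j else 0) (io pI f (bv pI K)) =
        if f = j then (if i = l then (eps (pJ i + pJ j) (parC pI K) * eps (pJ k + pJ l) (parC pI K)) •
          io pI k (bv pI K) else 0) else 0 := by
      by_cases h : l = i
      · subst h
        rw [if_pos rfl, TU_io pI pJ k j f _ _ (bv_mem pI K)]
        simp only [if_true]
        split_ifs with h1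
        · rw [← eps_mul_left, show pJ l + pJ j + (pJ k + pJ l) = pJ k + pJ j + pJ l + pJ l by ring,
            eps_add_self]
        · rfl
      · have h' : ¬ i = l := fun h' => h h'.symm
        simp only [if_neg h, if_neg h', ite_self, LinearMap.zero_apply]
    rw [b1, b2]
  · -- T and T' supercommute
    intro i j c d
    refine gg_ext pI fun f K => ?_
    simp only [LinearMap.smul_apply, Module.End.mul_apply]
    rw [TV_io, TU_io pI pJ c d f _ _ (EE_bv_mem pI i j K), TU_io pI pJ c d f _ _ (bv_mem pI K)]
    split_ifs with h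
    · rw [map_smul, TV_io, smul_smul, eps_comm (pI i + pI j) (pJ c + pJ d),
        eps_mul_right (pJ c + pJ d) (parC pI K)]
      congr 1
      have := eps_sq (pJ c + pJ d) (pI i + pI j)
      linear_combination (-eps (pJ c + pJ d) (parC pI K)) * this
    · rw [map_zero, smul_zero]
  · intro i j
    rw [homog_iff]
    intro g
    obtain ⟨K, f⟩ := g
    rw [← io_bv, TV_io]
    have h1 := EE_bv_mem pI i j K
    unfold io
    rw [Finsupp.lmapDomain_apply, Finsupp.mem_supported]
    intro g hg
    have h2 := Finsupp.mapDomain_support hg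
    rw [Finset.mem_image] at h2
    obtain ⟨K', hK', rfl⟩ := h2
    rw [Finsupp.mem_supported] at h1
    have h3 : parC pI K' = parC pI K + (pI i + pI j) := h1 hK'
    change parC pI K' + pJ f = parC pI K + pJ f + (pI i + pI j)
    rw [h3]
    ring
  · intro c d
    rw [homog_iff]
    intro g
    obtain ⟨K, f⟩ := g
    rw [← io_bv, TU_io pI pJ c d f _ _ (bv_mem pI K)]
    split_ifs with h
    · subst h
      refine Submodule.smul_mem _ _ ?_
      rw [io_bv]
      refine Finsupp.single_mem_supported _ _ ?_
      change parC pI K + pJ c = parC pI K + pJ f + (pJ c + pJ f)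
      rw [show parC pI K + pJ f + (pJ c + pJ f) = parC pI K + pJ c + (pJ f + pJ f) by ring,
        CharTwo.add_self_eq_zero, add_zero]
    · exact Submodule.zero_mem _

end Pool.Agent.PLE
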