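import Pool.Agent.PLE.Stmts

/-!
The relations of the operators of the double Fock space (task D2 of the PLE project).
-/

namespace Pool.Agent.PLE

open Classical in
theorem D2_proof (hF3 : StmtF3) (hF4 : StmtF4) (hD1 : StmtD1) : StmtD2 := by
  intro I J pI pJ
  obtain ⟨d1, d2, d3, d4, d5⟩ := hD1 I J pI pJ
  obtain ⟨f1, f2, -, -, -, -⟩ := hF3 (GG pI (J := J)) (parG pI pJ)
  have hsub : ∀ (A B : Module.End ℚ (GG pI (J := J) →₀ ℚ)) (e : ℚ),
      dG (parG pI pJ) (A - e • B) = dG (parG pI pJ) A - e • dG (parG pI pJ) B := by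
    intro A B e
    have h := f1 (A - e • B) (e • B)
    rw [sub_add_cancel, f2] at h
    rw [h, add_sub_cancel_right]
  have hzero : dG (parG pI pJ) (0 : Module.End ℚ (GG pI (J := J) →₀ ℚ)) = 0 := by
    have := f2 0 0
    rwa [zero_smul, zero_smul] at this
  refine ⟨?_, ?_, ?_⟩
  · intro i j k l
    unfold opV
    rw [hF4 _ _ _ _ _ _ (d4 i j) (d4 k l), d1 i j k l, hsub]
    congr 1
    · split_ifs
      · rfl
      · exact hzero
    · congr 1
      split_ifs
      · rfl
      · exact hzero
  · intro i j k l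
    unfold opU
    rw [hF4 _ _ _ _ _ _ (d5 i j) (d5 k l), d2 i j k l, hsub]
    congr 1
    · split_ifs
      · rfl
      · exact hzero
    · congr 1
      split_ifs
      · rfl
      · exact hzero
  · intro i j c d
    have h := hF4 _ (parG pI pJ) _ _ _ _ (d4 i j) (d5 c d)
    rw [d3 i j c d, sub_self, hzero, sub_eq_zero] at h
    exact h

end Pool.Agent.PLE
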