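import Pool.Agent.PLE.Stmts

/-!
Weights, property (N) and stability of `A^m` (paper 2.2, 2.3): `StmtD3`.
-/

namespace Pool.Agent.PLE

namespace AuxD3

section Fock

variable {G : Type} (par : G → ZMod 2)

theorem dG_bv (T : Module.End ℚ (G →₀ ℚ)) (c : Conf par) :
    dG par T (bv par c) =
      ∑ h ∈ c.1.support, crv par (T (Finsupp.single h 1)) (an par h (bv par c)) := by
  unfold dG
  conv_lhs => rw [bv]
  rw [Finsupp.linearCombination_single, one_smul]

theorem an_bv (g : G) (c : Conf par) :
    an par g (bv par c) = ((c.1 g : ℚ) * sgn par g c.1) • bv par (subc par g c) := by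
  unfold an
  conv_lhs => rw [bv]
  rw [Finsupp.linearCombination_single, one_smul]

open Classical in
theorem cr_bv (g : G) (c : Conf par) :
    cr par g (bv par c) =
      if h : par g = 1 → c.1 g = 0 then sgn par g c.1 • bv par (addc par g c h) else 0 := by
  unfold cr
  conv_lhs => rw [bv]
  rw [Finsupp.linearCombination_single, one_smul]

theorem single_eq (c : Conf par) (a : ℚ) :
    (Finsupp.single c a : Fock par) = a • bv par c := by
  rw [bv, Finsupp.smul_single, smul_eq_mul, mul_one]

theorem diag_apply {φ : Module.End ℚ (Fock par)} {lam : Conf par → ℚ}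
    (h : ∀ c, φ (bv par c) = lam c • bv par c) (x : Fock par) (c : Conf par) :
    (φ x) c = lam c * x c := by
  classical
  induction x using Finsupp.induction_linear with
  | zero => rw [map_zero, Finsupp.zero_apply, mul_zero]
  | add f g hf hg => rw [map_add, Finsupp.add_apply, hf, hg, Finsupp.add_apply, mul_add]
  | single a b =>
    rw [single_eq, map_smul, h]
    simp only [Finsupp.smul_apply, bv, Finsupp.single_apply, smul_eq_mul]
    split_ifs with e
    · subst e; ring
    · ring

theorem zero_of_support {φ : Module.End ℚ (Fock par)} (x : Fock par)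
    (h : ∀ c ∈ x.support, φ (bv par c) = 0) : φ x = 0 := by
  have h1 : φ x = x.sum fun c a => a • φ (bv par c) := by
    conv_lhs => rw [← Finsupp.sum_single x]
    rw [map_finsuppSum]
    refine Finsupp.sum_congr ?_
    intro c _
    rw [single_eq, map_smul]
  rw [h1]
  refine Finset.sum_eq_zero (fun c hc => ?_)
  show x c • φ (bv par c) = 0
  rw [h c hc, smul_zero]

theorem crv_mem (S : Submodule ℚ (Fock par)) (y : G →₀ ℚ) (v : Fock par)
    (h : ∀ g ∈ y.support, cr par g v ∈ S) : crv par y v ∈ S := by
  unfold crv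
  rw [Finsupp.linearCombination_apply, Finsupp.sum, LinearMap.sum_apply]
  refine S.sum_mem (fun g hg => ?_)
  rw [LinearMap.smul_apply]
  exact S.smul_mem _ (h g hg)

/-- the span of the configurations supported in `P` -/
noncomputable def spanP (P : G → Prop) : Submodule ℚ (Fock par) :=
  Submodule.span ℚ {x | ∃ c : Conf par, (∀ g ∈ c.1.support, P g) ∧ x = bv par c}

theorem dG_stable (P : G → Prop) (T : Module.End ℚ (G →₀ ℚ))
    (hT : ∀ h, P h → ∀ g ∈ (T (Finsupp.single h 1)).support, P g) (x : Fock par)
    (hx : x ∈ spanP par P) : dG par T x ∈ spanP par P := by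
  classical
  have hle : spanP par P ≤ (spanP par P).comap (dG par T) := by
    refine Submodule.span_le.2 ?_
    rintro _ ⟨c, hc, rfl⟩
    show dG par T (bv par c) ∈ spanP par P
    rw [dG_bv]
    refine Submodule.sum_mem _ (fun h hh => ?_)
    refine crv_mem par _ _ _ (fun g hg => ?_)
    have hPg : P g := hT h (hc h hh) g hg
    rw [an_bv, map_smul]
    refine Submodule.smul_mem _ _ ?_
    rw [cr_bv]
    split_ifs with hd
    · refine Submodule.smul_mem _ _ (Submodule.subset_span ⟨_, ?_, rfl⟩)
      intro g' hg'
      by_cases e : g = g'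
      · rw [← e]; exact hPg
      · refine hc g' ?_
        rw [Finsupp.mem_support_iff] at hg' ⊢
        intro h0
        apply hg'
        simp only [addc, subc, Finsupp.add_apply, Finsupp.coe_tsub, Pi.sub_apply, h0,
          Finsupp.single_apply, e, if_false]
        omega
    · exact Submodule.zero_mem _
  exact hle hx

end Fock

section Double

variable {I J : Type} (pI : I → ZMod 2) (pJ : J → ZMod 2)

theorem TV_single (i j : I) (g : GG pI (J := J)) :
    TV pI (J := J) i j (Finsupp.single g 1) =
      Finsupp.mapDomain (fun K => (K, g.2)) (cr pI i (an pI j (bv pI g.1))) := by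
  unfold TV
  rw [Finsupp.linearCombination_single, one_smul]

open Classical in
theorem TU_single (c d : J) (g : GG pI (J := J)) :
    TU pI pJ c d (Finsupp.single g 1) =
      if g.2 = d then Finsupp.single (g.1, c) (eps (pJ c + pJ d) (parC pI g.1)) else 0 := by
  unfold TU
  rw [Finsupp.linearCombination_single, one_smul]

theorem degC_move (K : Conf pI) (i j : I) (hj : K.1 j ≠ 0)
    (h : pI i = 1 → (subc pI j K).1 i = 0) :
    degC pI (addc pI i (subc pI j K) h) = degC pI K := by
  have hle : Finsupp.single j 1 ≤ K.1 := by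
    rw [Finsupp.single_le_iff]; omega
  have h1 : (K.1 - Finsupp.single j 1 + Finsupp.single i 1).sum (fun _ n => n)
      = (K.1 - Finsupp.single j 1).sum (fun _ n => n) + 1 := by
    rw [Finsupp.sum_add_index' (fun _ => rfl) (fun _ _ _ => rfl), Finsupp.sum_single_index rfl]
  have h2 : K.1.sum (fun _ n => n) = (K.1 - Finsupp.single j 1).sum (fun _ n => n) + 1 := by
    conv_lhs => rw [← tsub_add_cancel_of_le hle]
    rw [Finsupp.sum_add_index' (fun _ => rfl) (fun _ _ _ => rfl), Finsupp.sum_single_index rfl]
  show (K.1 - Finsupp.single j 1 + Finsupp.single i 1).sum (fun _ n => n)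
    = K.1.sum (fun _ n => n)
  rw [h1, h2]

theorem TV_deg (i j : I) (h g : GG pI (J := J))
    (hg : g ∈ (TV pI (J := J) i j (Finsupp.single h 1)).support) :
    degC pI g.1 = degC pI h.1 := by
  classical
  rw [TV_single] at hg
  have h1 := Finsupp.mapDomain_support hg
  rw [Finset.mem_image] at h1
  obtain ⟨K', hK', rfl⟩ := h1
  show degC pI K' = degC pI h.1
  rw [an_bv, map_smul] at hK'
  by_cases hj : h.1.1 j = 0
  · rw [hj, Nat.cast_zero, zero_mul, zero_smul, Finsupp.support_zero] at hK'
    exact absurd hK' (Finset.notMem_empty _)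
  · have h2 := Finsupp.support_smul hK'
    rw [cr_bv] at h2
    split_ifs at h2 with hh
    · have h3 := Finsupp.support_smul h2
      unfold bv at h3
      have h4 := Finsupp.support_single_subset h3
      rw [Finset.mem_singleton] at h4
      rw [h4]
      exact degC_move pI h.1 i j hj hh
    · rw [Finsupp.support_zero] at h2
      exact absurd h2 (Finset.notMem_empty _)

theorem TU_deg (c d : J) (h g : GG pI (J := J))
    (hg : g ∈ (TU pI pJ c d (Finsupp.single h 1)).support) :
    degC pI g.1 = degC pI h.1 := by
  classical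
  rw [TU_single] at hg
  split_ifs at hg with e
  · have h4 := Finsupp.support_single_subset hg
    rw [Finset.mem_singleton] at h4
    rw [h4]
  · rw [Finsupp.support_zero] at hg
    exact absurd hg (Finset.notMem_empty _)

theorem AAm_eq (m : ℕ) : AAm pI pJ m = spanP (parG pI pJ) (fun g => degC pI g.1 = m) := rfl

end Double

end AuxD3

open AuxD3

theorem D3_proof (hF2 : StmtF2) (hF3 : StmtF3) : StmtD3 := by
  classical
  intro I J pI pJ
  have hV : ∀ i (c : Conf (parG pI pJ)), opV pI pJ i i (bv _ c) =
      (c.1.sum fun g n => (n : ℚ) * (g.1.1 i : ℚ)) • bv _ c := by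
    intro i c
    refine (hF3 _ (parG pI pJ)).2.2.2.2.1 (TV pI i i) (fun g => (g.1.1 i : ℚ)) ?_ c
    intro g
    rw [TV_single, (hF2 I pI).1, Finsupp.mapDomain_smul, bv, Finsupp.mapDomain_single]
  have hU : ∀ d (c : Conf (parG pI pJ)), opU pI pJ d d (bv _ c) =
      (c.1.sum fun g n => if g.2 = d then (n : ℚ) else 0) • bv _ c := by
    intro d c
    have h1 := (hF3 _ (parG pI pJ)).2.2.2.2.1 (TU pI pJ d d)
      (fun g => if g.2 = d then (1 : ℚ) else 0) (by
        intro g
        rw [TU_single]
        have h2 : pJ d + pJ d = 0 := CharTwo.add_self_eq_zero _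
        have h3 : ∀ b, eps 0 b = 1 := by
          intro b; unfold eps; rw [if_neg]; rintro ⟨h, _⟩; exact absurd h (by decide)
        rw [h2, h3]
        split_ifs with e
        · obtain ⟨K, f⟩ := g
          have e' : f = d := e
          rw [e', one_smul]
        · rw [zero_smul]) c
    refine h1.trans ?_
    congr 1
    refine Finsupp.sum_congr (fun g _ => ?_)
    rw [mul_ite, mul_one, mul_zero]
  refine ⟨hV, hU, ?_, ?_, ?_, ?_⟩
  · intro i j _ x _ hx
    refine zero_of_support _ x (fun c hc => ?_)
    have h1 := diag_apply (parG pI pJ) (hV i) x c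
    rw [hx, Finsupp.zero_apply] at h1
    have h2 : (c.1.sum fun g n => (n : ℚ) * (g.1.1 i : ℚ)) = 0 := by
      rcases mul_eq_zero.1 h1.symm with h | h
      · exact h
      · exact absurd h (Finsupp.mem_support_iff.1 hc)
    unfold Finsupp.sum at h2
    rw [Finset.sum_eq_zero_iff_of_nonneg (fun g _ => by positivity)] at h2
    refine (hF3 _ (parG pI pJ)).2.2.2.2.2 (TV pI j i) c (fun g hg => ?_)
    have h3 := h2 g hg
    have h4 : g.1.1 i = 0 := by
      rcases mul_eq_zero.1 h3 with h | h
      · exact absurd (Nat.cast_eq_zero.1 h) (Finsupp.mem_support_iff.1 hg)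
      · exact Nat.cast_eq_zero.1 h
    rw [TV_single, (hF2 I pI).2.2.2.1 i g.1 h4, map_zero, Finsupp.mapDomain_zero]
  · intro d d' _ x _ hx
    refine zero_of_support _ x (fun c hc => ?_)
    have h1 := diag_apply (parG pI pJ) (hU d) x c
    rw [hx, Finsupp.zero_apply] at h1
    have h2 : (c.1.sum fun g n => if g.2 = d then (n : ℚ) else 0) = 0 := by
      rcases mul_eq_zero.1 h1.symm with h | h
      · exact h
      · exact absurd h (Finsupp.mem_support_iff.1 hc)
    unfold Finsupp.sum at h2
    rw [Finset.sum_eq_zero_iff_of_nonneg (fun g _ => by positivity)] at h2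
    refine (hF3 _ (parG pI pJ)).2.2.2.2.2 (TU pI pJ d' d) c (fun g hg => ?_)
    have h3 : (if g.2 = d then (c.1 g : ℚ) else 0) = 0 := h2 g hg
    rw [TU_single, if_neg]
    intro e
    rw [if_pos e] at h3
    exact absurd (Nat.cast_eq_zero.1 h3) (Finsupp.mem_support_iff.1 hg)
  · intro m i j x hx
    rw [AAm_eq] at hx ⊢
    exact dG_stable _ _ _ (fun h hh g hg => (TV_deg pI i j h g hg).trans hh) x hx
  · intro m c d x hx
    rw [AAm_eq] at hx ⊢
    exact dG_stable _ _ _ (fun h hh g hg => (TU_deg pI pJ c d h g hg).trans hh) x hx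

end Pool.Agent.PLE
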