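import Pool.Agent.PLE.Public

/-!
Internal objects of the proof (paper id 164): super Fock spaces, second quantization, the double
Fock space of `Sym(Sym(V) ⊗ U)` and its highest weight spaces.
-/

namespace Pool.Agent.PLE

/-- `eps a b = (-1)^{ab}` -/
def eps (a b : ZMod 2) : ℚ := if a = 1 ∧ b = 1 then -1 else 1

/-! ### Super Fock space (paper section 1) -/

section Fock

variable {G : Type} (par : G → ZMod 2)

/-- configurations: finitely supported `c : G → ℕ` with `c_g ≤ 1` for odd `g` -/
def Conf : Type := {c : G →₀ ℕ // ∀ g, par g = 1 → c g ≤ 1}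

/-- the Fock space: the vector space with basis the configurations -/
abbrev Fock : Type := Conf par →₀ ℚ

open Classical in
/-- the sign `s(g,c)` -/
noncomputable def sgn (g : G) (c : G →₀ ℕ) : ℚ :=
  if par g = 1 then (-1) ^ (∑ h ∈ c.support.filter (fun h => WellOrderingRel h g ∧ par h = 1), c h)
  else 1

/-- basis vector -/
noncomputable def bv (c : Conf par) : Fock par := Finsupp.single c 1

/-- the empty configuration -/
def vacc : Conf par := ⟨0, fun _ _ => by simp⟩

/-- the vacuum -/
noncomputable def vac : Fock par := bv par (vacc par)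

/-- `c + g` -/
noncomputable def addc (g : G) (c : Conf par) (h : par g = 1 → c.1 g = 0) : Conf par :=
  ⟨c.1 + Finsupp.single g 1, by
    intro g' hg'
    have hc := c.2 g' hg'
    by_cases e : g = g'
    · subst e
      simp [h hg']
    · simp [Finsupp.single_apply, e, hc]⟩

/-- `c - g` -/
noncomputable def subc (g : G) (c : Conf par) : Conf par :=
  ⟨c.1 - Finsupp.single g 1, by
    intro g' hg'
    have hc := c.2 g' hg'
    simp only [Finsupp.coe_tsub, Pi.sub_apply]
    omega⟩

open Classical in
/-- creation operator `P_g` -/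
noncomputable def cr (g : G) : Module.End ℚ (Fock par) :=
  Finsupp.linearCombination ℚ fun c : Conf par =>
    if h : par g = 1 → c.1 g = 0 then sgn par g c.1 • bv par (addc par g c h) else 0

/-- annihilation operator `D_g` -/
noncomputable def an (g : G) : Module.End ℚ (Fock par) :=
  Finsupp.linearCombination ℚ fun c : Conf par =>
    ((c.1 g : ℚ) * sgn par g c.1) • bv par (subc par g c)

/-- `P(y) = ∑ y_g P_g` -/
noncomputable def crv : (G →₀ ℚ) →ₗ[ℚ] Module.End ℚ (Fock par) :=
  Finsupp.linearCombination ℚ (cr par)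

/-- second quantization `dG(T) = ∑_h P(T h) D_h` -/
noncomputable def dG (T : Module.End ℚ (G →₀ ℚ)) : Module.End ℚ (Fock par) :=
  Finsupp.linearCombination ℚ fun c : Conf par =>
    ∑ h ∈ c.1.support, crv par (T (Finsupp.single h 1)) (an par h (bv par c))

/-- `T` is homogeneous of parity `t` -/
def Homog (T : Module.End ℚ (G →₀ ℚ)) (t : ZMod 2) : Prop :=
  ∀ h : G, ∀ g ∈ (T (Finsupp.single h 1)).support, par g = par h + t

end Fock

/-! ### The double Fock space (paper section 2) -/

section Double

variable {I J : Type} (pI : I → ZMod 2) (pJ : J → ZMod 2)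

/-- parity of a configuration -/
noncomputable def parC (K : Conf pI) : ZMod 2 := K.1.sum fun i n => (n : ZMod 2) * pI i

/-- degree of a configuration -/
noncomputable def degC (K : Conf pI) : ℕ := K.1.sum fun _ n => n

/-- the generators of the double Fock space -/
abbrev GG : Type := Conf pI × J

/-- parity of the generators -/
noncomputable def parG (g : GG pI (J := J)) : ZMod 2 := parC pI g.1 + pJ g.2

/-- the double Fock space -/
abbrev AA : Type := Fock (parG pI pJ)

/-- `T_{ij}(K,f) = (P_i D_j K) ⊗ f` -/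
noncomputable def TV (i j : I) : Module.End ℚ (GG pI (J := J) →₀ ℚ) :=
  Finsupp.linearCombination ℚ fun g : GG pI (J := J) =>
    Finsupp.mapDomain (fun K => (K, g.2)) (cr pI i (an pI j (bv pI g.1)))

open Classical in
/-- `T'_{cd}(K,f) = [f = d] eps(|c|+|d|,|K|) (K,c)` -/
noncomputable def TU (c d : J) : Module.End ℚ (GG pI (J := J) →₀ ℚ) :=
  Finsupp.linearCombination ℚ fun g : GG pI (J := J) =>
    if g.2 = d then Finsupp.single (g.1, c) (eps (pJ c + pJ d) (parC pI g.1)) else 0

/-- the operators `e_{ij}` -/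
noncomputable def opV (i j : I) : Module.End ℚ (AA pI pJ) := dG (parG pI pJ) (TV pI i j)

/-- the operators `E_{cd}` -/
noncomputable def opU (c d : J) : Module.End ℚ (AA pI pJ) := dG (parG pI pJ) (TU pI pJ c d)

/-- the part generated by the `(K,f)` with `deg K = m` -/
noncomputable def AAm (m : ℕ) : Submodule ℚ (AA pI pJ) :=
  Submodule.span ℚ {x | ∃ c : Conf (parG pI pJ), (∀ g ∈ c.1.support, degC pI g.1 = m) ∧
    x = bv (parG pI pJ) c}

end Double

/-! ### gl(I)-operators and highest weight spaces (paper section 3) -/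

section Abstract

variable {I : Type} (pI : I → ZMod 2) {X : Type} [AddCommGroup X] [Module ℚ X]

open Classical in
/-- the relations of the Lie superalgebra `gl(I)` -/
def GlRel (e : I → I → Module.End ℚ X) : Prop :=
  ∀ i j k l, e i j * e k l - eps (pI i + pI j) (pI k + pI l) • (e k l * e i j) =
    (if j = k then e i l else 0) - eps (pI i + pI j) (pI k + pI l) • (if l = i then e k j else 0)

/-- `S` is stable under all `e_{ij}` -/
def Stable (e : I → I → Module.End ℚ X) (S : Submodule ℚ X) : Prop :=
  ∀ i j, ∀ x ∈ S, e i j x ∈ S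

/-- property (N) on `S` -/
def PropN (e : I → I → Module.End ℚ X) (S : Submodule ℚ X) : Prop :=
  ∀ i j, i ≠ j → ∀ x ∈ S, e i i x = 0 → e j i x = 0

/-- `{x ∈ S : e_{ii} x = μ_i x, e_{ij} x = 0 for i before j in L}` -/
def HW (e : I → I → Module.End ℚ X) (S : Submodule ℚ X) (L : List I) (μ : I → ℤ) :
    Submodule ℚ X where
  carrier := {x | x ∈ S ∧ (∀ i, e i i x = (μ i : ℚ) • x) ∧ ∀ i j, [i, j].Sublist L → e i j x = 0}
  add_mem' := by
    rintro x y ⟨h1, h2, h3⟩ ⟨k1, k2, k3⟩
    refine ⟨S.add_mem h1 k1, fun i => ?_, fun i j hij => ?_⟩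
    · rw [map_add, h2, k2, smul_add]
    · rw [map_add, h3 i j hij, k3 i j hij, add_zero]
  zero_mem' := ⟨S.zero_mem, by simp, by simp⟩
  smul_mem' := by
    rintro t x ⟨h1, h2, h3⟩
    refine ⟨S.smul_mem t h1, fun i => ?_, fun i j hij => ?_⟩
    · rw [map_smul, h2, smul_comm]
    · rw [map_smul, h3 i j hij, smul_zero]

end Abstract

/-! ### Letters -/

section Letters

/-- parity on `Fin p ⊕ Fin q`: the first summand even, the second odd -/
def psum (p q : ℕ) : Fin p ⊕ Fin q → ZMod 2 := Sum.elim (fun _ => 0) (fun _ => 1)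

/-- the list of the even letters -/
def evL (p q : ℕ) : List (Fin p ⊕ Fin q) := (List.finRange p).map Sum.inl

/-- the list of the odd letters -/
def odL (p q : ℕ) : List (Fin p ⊕ Fin q) := (List.finRange q).map Sum.inr

/-- the weight `(ν | 0)` -/
def wtE {p : ℕ} (q : ℕ) (ν : Fin p → ℕ) : Fin p ⊕ Fin q → ℤ :=
  Sum.elim (fun a => (ν a : ℤ)) (fun _ => 0)

open Classical in
/-- the weight `ν#` -/
noncomputable def wtS {p : ℕ} (q : ℕ) (ν : Fin p → ℕ) : Fin p ⊕ Fin q → ℤ :=
  Sum.elim (fun a => ((ν a - q : ℕ) : ℤ))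
    (fun b => ((Finset.univ.filter fun a : Fin p => (b : ℕ) < ν a).card : ℤ))

/-- `V = ℚ^{p|q}`, `U = ℚ^{r|s}`: the space of vectors which are highest weight vectors of weight `μ` for
the order `LV` on the letters of `V`, of weight `η` for the order `LU` on the letters of `U`. -/
noncomputable def HW2 (p q r s m : ℕ) (LV : List (Fin p ⊕ Fin q)) (μ : Fin p ⊕ Fin q → ℤ)
    (LU : List (Fin r ⊕ Fin s)) (η : Fin r ⊕ Fin s → ℤ) :
    Submodule ℚ (AA (psum p q) (psum r s)) :=
  HW (opV (psum p q) (psum r s)) (AAm (psum p q) (psum r s) m) LV μ ⊓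
    HW (opU (psum p q) (psum r s)) (AAm (psum p q) (psum r s) m) LU η

/-- the configuration `u = w_1 ⋯ w_q v_1^l` (with `p + 1` even letters) -/
noncomputable def uconf (p q l : ℕ) : Conf (psum (p + 1) q) :=
  ⟨Finsupp.equivFunOnFinite.symm (Sum.elim (fun a => if a = 0 then l else 0) (fun _ => 1)), by
    intro g hg
    rcases g with a | b
    · simp [psum] at hg
    · simp⟩

/-- the weight of `u` -/
def wtu (p q l : ℕ) : Fin (p + 1) ⊕ Fin q → ℤ :=
  Sum.elim (fun a => if a = 0 then (l : ℤ) else 0) (fun _ => 1)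

end Letters

end Pool.Agent.PLE
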