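import Pool.Agent.PLE.Stmts

/-!
The relations (CR) of the super Fock space (StmtF1).
-/

namespace Pool.Agent.PLE

namespace AuxF1

open Classical

variable {G : Type} (par : G → ZMod 2)

/-- `c` is a configuration -/
def Val (c : G →₀ ℕ) : Prop := ∀ g, par g = 1 → c g ≤ 1

/-- basis vector, or zero if `c` is not a configuration -/
noncomputable def bv' (c : G →₀ ℕ) : Fock par :=
  if h : Val par c then bv par ⟨c, h⟩ else 0

theorem bv'_of (c : Conf par) : bv' par c.1 = bv par c := by
  unfold bv'
  exact dif_pos c.2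

theorem bv'_zero (c : G →₀ ℕ) (h : ¬ Val par c) : bv' par c = 0 := by
  unfold bv'
  exact dif_neg h

theorem add_self_apply (g : G) (c : G →₀ ℕ) :
    (c + Finsupp.single g 1 : G →₀ ℕ) g = c g + 1 := by
  rw [Finsupp.add_apply, Finsupp.single_eq_same]

theorem add_ne_apply (g k : G) (h : g ≠ k) (c : G →₀ ℕ) :
    (c + Finsupp.single g 1 : G →₀ ℕ) k = c k := by
  rw [Finsupp.add_apply, Finsupp.single_eq_of_ne (Ne.symm h), add_zero]

theorem sub_self_apply (g : G) (c : G →₀ ℕ) :
    (c - Finsupp.single g 1 : G →₀ ℕ) g = c g - 1 := by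
  rw [Finsupp.tsub_apply, Finsupp.single_eq_same]

theorem sub_ne_apply (g k : G) (h : g ≠ k) (c : G →₀ ℕ) :
    (c - Finsupp.single g 1 : G →₀ ℕ) k = c k := by
  rw [Finsupp.tsub_apply, Finsupp.single_eq_of_ne (Ne.symm h), Nat.sub_zero]

theorem val_sub (g : G) (c : G →₀ ℕ) (h : Val par c) : Val par (c - Finsupp.single g 1) := by
  intro g' hg'
  have := h g' hg'
  rw [Finsupp.tsub_apply]
  omega

theorem val_of_add (g : G) (c : G →₀ ℕ) (h : Val par (c + Finsupp.single g 1)) : Val par c := by
  intro g' hg'
  have := h g' hg'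
  rw [Finsupp.add_apply] at this
  omega

theorem val_add (g : G) (c : G →₀ ℕ) (h : Val par c) (hg : par g = 1 → c g = 0) :
    Val par (c + Finsupp.single g 1) := by
  intro g' hg'
  have := h g' hg'
  by_cases e : g = g'
  · subst e
    rw [add_self_apply, hg hg']
  · rw [add_ne_apply g g' e]
    exact this

theorem not_val_add (g : G) (c : G →₀ ℕ) (h : Val par c) (hg : ¬ Val par (c + Finsupp.single g 1)) :
    par g = 1 ∧ c g = 1 := by
  by_contra hcon
  apply hg
  refine val_add par g c h fun hp => ?_
  have h1 := h g hp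
  have h2 : c g ≠ 1 := fun h2 => hcon ⟨hp, h2⟩
  omega

theorem add_sub_single (h : G) (c : G →₀ ℕ) (hc : c h ≠ 0) :
    c - Finsupp.single h 1 + Finsupp.single h 1 = c := by
  ext g
  by_cases e : h = g
  · subst e
    rw [add_self_apply, sub_self_apply]
    omega
  · rw [add_ne_apply h g e, sub_ne_apply h g e]

theorem add_sub_comm (g h : G) (c : G →₀ ℕ) (hc : c g ≠ 0) :
    c + Finsupp.single h 1 - Finsupp.single g 1 = c - Finsupp.single g 1 + Finsupp.single h 1 := by
  ext k
  rw [Finsupp.tsub_apply, Finsupp.add_apply, Finsupp.add_apply, Finsupp.tsub_apply]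
  by_cases e : g = k
  · subst e
    rw [Finsupp.single_eq_same]
    omega
  · rw [Finsupp.single_eq_of_ne (Ne.symm e)]
    omega

theorem cr_bv (g : G) (c : Conf par) :
    cr par g (bv par c) = sgn par g c.1 • bv' par (c.1 + Finsupp.single g 1) := by
  unfold cr
  change Finsupp.linearCombination ℚ _ (Finsupp.single c 1) = _
  rw [Finsupp.linearCombination_single, one_smul]
  split_ifs with h
  · have e := bv'_of par (addc par g c h)
    rw [← e]
    rfl
  · rw [bv'_zero, smul_zero]
    intro hv
    apply h
    intro hg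
    have := hv g hg
    rw [add_self_apply] at this
    omega

theorem cr_bv' (g : G) (c : G →₀ ℕ) :
    cr par g (bv' par c) = sgn par g c • bv' par (c + Finsupp.single g 1) := by
  by_cases hc : Val par c
  · have h1 := cr_bv par g ⟨c, hc⟩
    have h2 := bv'_of par ⟨c, hc⟩
    rw [← h2] at h1
    exact h1
  · rw [bv'_zero par c hc, bv'_zero par _ (fun h => hc (val_of_add par g c h)), map_zero, smul_zero]

theorem an_bv (g : G) (c : Conf par) :
    an par g (bv par c) = ((c.1 g : ℚ) * sgn par g c.1) • bv' par (c.1 - Finsupp.single g 1) := by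
  unfold an
  change Finsupp.linearCombination ℚ _ (Finsupp.single c 1) = _
  rw [Finsupp.linearCombination_single, one_smul]
  have e := bv'_of par (subc par g c)
  rw [← e]
  rfl

theorem an_bv' (g : G) (c : G →₀ ℕ) (hc : Val par c) :
    an par g (bv' par c) = ((c g : ℚ) * sgn par g c) • bv' par (c - Finsupp.single g 1) := by
  have h1 := an_bv par g ⟨c, hc⟩
  have h2 := bv'_of par ⟨c, hc⟩
  rw [← h2] at h1
  exact h1

theorem ext_bv {X : Type} [AddCommGroup X] [Module ℚ X] {f f' : Fock par →ₗ[ℚ] X}
    (h : ∀ c, f (bv par c) = f' (bv par c)) : f = f' := by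
  refine Finsupp.lhom_ext' fun c => LinearMap.ext_ring ?_
  exact h c

theorem ext_bv' {X : Type} [AddCommGroup X] [Module ℚ X] {f f' : Fock par →ₗ[ℚ] X}
    (h : ∀ c, Val par c → f (bv' par c) = f' (bv' par c)) : f = f' := by
  refine ext_bv par fun c => ?_
  rw [← bv'_of]
  exact h c.1 c.2

/-- the exponent of the sign -/
noncomputable def ni (g : G) (c : G →₀ ℕ) : ℕ :=
  c.sum fun h n => if WellOrderingRel h g ∧ par h = 1 then n else 0

theorem ni_add (g : G) (c d : G →₀ ℕ) : ni par g (c + d) = ni par g c + ni par g d := by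
  unfold ni
  refine Finsupp.sum_add_index' (fun h => by simp) (fun h m n => ?_)
  split_ifs <;> rfl

theorem ni_single (g h : G) :
    ni par g (Finsupp.single h 1) = if WellOrderingRel h g ∧ par h = 1 then 1 else 0 := by
  unfold ni
  rw [Finsupp.sum_single_index]
  simp

theorem sgn_ni (g : G) (c : G →₀ ℕ) :
    sgn par g c = if par g = 1 then (-1) ^ ni par g c else 1 := by
  unfold sgn ni Finsupp.sum
  rw [Finset.sum_filter]

/-- the change of the sign -/
noncomputable def sg (g h : G) : ℚ :=
  if par g = 1 ∧ par h = 1 ∧ WellOrderingRel h g then -1 else 1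

theorem sgn_add (g h : G) (c : G →₀ ℕ) :
    sgn par g (c + Finsupp.single h 1) = sgn par g c * sg par g h := by
  rw [sgn_ni, sgn_ni, ni_add, ni_single]
  unfold sg
  by_cases h1 : par g = 1
  · by_cases h2 : WellOrderingRel h g ∧ par h = 1
    · rw [if_pos h1, if_pos h1, if_pos h2, if_pos ⟨h1, h2.2, h2.1⟩, pow_succ]
    · rw [if_pos h1, if_pos h1, if_neg h2, if_neg (fun h3 => h2 ⟨h3.2.2, h3.2.1⟩), mul_one, add_zero]
  · rw [if_neg h1, if_neg h1, if_neg (fun h3 => h1 h3.1), mul_one]

theorem sgn_sq (g : G) (c : G →₀ ℕ) : sgn par g c * sgn par g c = 1 := by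
  rw [sgn_ni]
  split_ifs
  · rw [← mul_pow]
    simp
  · simp

theorem sg_sq (g h : G) : sg par g h * sg par g h = 1 := by
  unfold sg
  split_ifs <;> simp

theorem sg_self (g : G) : sg par g g = 1 := by
  unfold sg
  rw [if_neg]
  rintro ⟨-, -, h⟩
  exact irrefl_of WellOrderingRel g h

theorem sgn_sub (g h : G) (c : G →₀ ℕ) (hc : c h ≠ 0) :
    sgn par g (c - Finsupp.single h 1) = sgn par g c * sg par g h := by
  have h1 := sgn_add par g h (c - Finsupp.single h 1)
  rw [add_sub_single h c hc] at h1
  rw [h1, mul_assoc, sg_sq, mul_one]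

theorem eps_sg (g h : G) (hgh : g ≠ h) :
    sg par g h = eps (par g) (par h) * sg par h g := by
  unfold sg eps
  rcases trichotomous_of WellOrderingRel g h with h1 | h1 | h1
  · have h2 : ¬ WellOrderingRel h g := asymm_of WellOrderingRel h1
    by_cases a : par g = 1 <;> by_cases b : par h = 1 <;> simp [a, b, h1, h2]
  · exact absurd h1 hgh
  · have h2 : ¬ WellOrderingRel g h := asymm_of WellOrderingRel h1
    by_cases a : par g = 1 <;> by_cases b : par h = 1 <;> simp [a, b, h1, h2]

theorem eps_self_odd {a : ZMod 2} (h : a = 1) : eps a a = -1 := by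
  unfold eps
  rw [if_pos ⟨h, h⟩]

theorem eps_even {a : ZMod 2} (h : a ≠ 1) (b : ZMod 2) : eps a b = 1 := by
  unfold eps
  rw [if_neg (fun h' => h h'.1)]

theorem crcr (g h : G) (c : G →₀ ℕ) :
    cr par g (cr par h (bv' par c)) = eps (par g) (par h) • cr par h (cr par g (bv' par c)) := by
  rw [cr_bv', cr_bv', map_smul, map_smul, cr_bv', cr_bv', smul_smul, smul_smul, smul_smul,
    sgn_add, sgn_add]
  have e : c + Finsupp.single h 1 + Finsupp.single g 1 =
      c + Finsupp.single g 1 + Finsupp.single h 1 := by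
    rw [add_right_comm]
  rw [e]
  by_cases hgh : g = h
  · subst hgh
    by_cases hp : par g = 1
    · rw [bv'_zero, smul_zero, smul_zero]
      intro hv
      have := hv g hp
      rw [add_self_apply, add_self_apply] at this
      omega
    · rw [eps_even hp, one_mul]
  · congr 1
    rw [eps_sg par g h hgh]
    ring

theorem anan (g h : G) (c : G →₀ ℕ) (hc : Val par c) :
    an par g (an par h (bv' par c)) = eps (par g) (par h) • an par h (an par g (bv' par c)) := by
  rw [an_bv' par _ _ hc, an_bv' par _ _ hc, map_smul, map_smul,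
    an_bv' par _ _ (val_sub par h c hc), an_bv' par _ _ (val_sub par g c hc), smul_smul, smul_smul,
    smul_smul]
  have e : c - Finsupp.single h 1 - Finsupp.single g 1 =
      c - Finsupp.single g 1 - Finsupp.single h 1 := by
    rw [tsub_right_comm]
  rw [e]
  by_cases hgh : g = h
  · subst hgh
    by_cases hp : par g = 1
    · have h0 : ((c g : ℚ)) * ((c g - 1 : ℕ) : ℚ) = 0 := by
        rw [← Nat.cast_mul]
        have h1 := hc g hp
        have : c g * (c g - 1) = 0 := by
          interval_cases c g <;> rfl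
        rw [this]
        simp
      rw [sub_self_apply]
      have h1 : ((c g : ℚ) * sgn par g c) * (((c g - 1 : ℕ) : ℚ) *
          sgn par g (c - Finsupp.single g 1)) = 0 := by
        calc _ = (((c g : ℚ)) * ((c g - 1 : ℕ) : ℚ)) *
              (sgn par g c * sgn par g (c - Finsupp.single g 1)) := by ring
          _ = 0 := by rw [h0, zero_mul]
      rw [h1, mul_assoc (eps (par g) (par g)), h1, mul_zero]
    · rw [eps_even hp, one_mul]
  · congr 1
    rw [sub_ne_apply h g (Ne.symm hgh), sub_ne_apply g h hgh]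
    by_cases h0 : c h = 0
    · rw [h0]
      simp
    · by_cases h0' : c g = 0
      · rw [h0']
        simp
      · rw [sgn_sub par g h c h0, sgn_sub par h g c h0', eps_sg par g h hgh]
        ring

theorem ancr_ne (g h : G) (hgh : g ≠ h) (c : G →₀ ℕ) (hc : Val par c) :
    an par g (cr par h (bv' par c)) = eps (par g) (par h) • cr par h (an par g (bv' par c)) := by
  rw [cr_bv', an_bv' par _ _ hc, map_smul, map_smul, cr_bv']
  by_cases hv : Val par (c + Finsupp.single h 1)
  · rw [an_bv' par _ _ hv, smul_smul, smul_smul, smul_smul, add_ne_apply h g (Ne.symm hgh), sgn_add]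
    by_cases h0 : c g = 0
    · rw [h0]
      simp
    · rw [add_sub_comm g h c h0, sgn_sub par h g c h0, eps_sg par g h hgh]
      congr 1
      ring
  · obtain ⟨hp, hp1⟩ := not_val_add par h c hc hv
    rw [bv'_zero par _ hv, bv'_zero par (c - Finsupp.single g 1 + Finsupp.single h 1), map_zero,
      smul_zero, smul_zero, smul_zero, smul_zero]
    intro hv'
    have := hv' h hp
    rw [add_self_apply, sub_ne_apply g h hgh] at this
    omega

theorem ancr_eq (g : G) (c : G →₀ ℕ) (hc : Val par c) :
    an par g (cr par g (bv' par c)) = eps (par g) (par g) • cr par g (an par g (bv' par c)) +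
      bv' par c := by
  rw [cr_bv', an_bv' par _ _ hc, map_smul, map_smul, cr_bv']
  by_cases hv : Val par (c + Finsupp.single g 1)
  · rw [an_bv' par _ _ hv, add_tsub_cancel_right, smul_smul, sgn_add, sg_self, mul_one,
      add_self_apply]
    have e3 : sgn par g c * (((c g + 1 : ℕ) : ℚ) * sgn par g c) = (c g : ℚ) + 1 := by
      calc _ = ((c g : ℚ) + 1) * (sgn par g c * sgn par g c) := by push_cast; ring
        _ = _ := by rw [sgn_sq, mul_one]
    rw [e3]
    by_cases h0 : c g = 0
    · rw [h0]
      simp
    · have hp : par g ≠ 1 := by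
        intro hp
        have := hv g hp
        rw [add_self_apply] at this
        omega
      rw [eps_even hp, one_smul, add_sub_single g c h0, smul_smul,
        sgn_sub par g g c h0, sg_self, mul_one, mul_assoc, sgn_sq, mul_one, add_smul,
        one_smul]
  · obtain ⟨hp, hp1⟩ := not_val_add par g c hc hv
    have h0 : c g ≠ 0 := by rw [hp1]; exact one_ne_zero
    rw [add_sub_single g c h0, bv'_zero par _ hv, map_zero, smul_zero, eps_self_odd hp, smul_smul,
      sgn_sub par g g c h0, sg_self, mul_one, smul_smul, mul_assoc, mul_assoc, sgn_sq, mul_one, hp1]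
    simp

end AuxF1

open AuxF1 in
open Classical in
theorem F1_proof : StmtF1 := by
  intro G par
  refine ⟨fun g h => ext_bv' par fun c _ => crcr par g h c,
    fun g h => ext_bv' par fun c hc => anan par g h c hc, fun g h => ext_bv' par fun c hc => ?_⟩
  by_cases hgh : g = h
  · subst hgh
    rw [if_pos rfl]
    exact ancr_eq par g c hc
  · rw [if_neg hgh, add_zero]
    exact ancr_ne par g h hgh c hc

end Pool.Agent.PLE
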