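import Pool.Agent.PLE.F1

/-!
Basic properties of the super Fock space (StmtF2).
-/

namespace Pool.Agent.PLE

namespace AuxF2

open AuxF1

variable {G : Type} (par : G → ZMod 2)

theorem cr_an (g : G) (c : G →₀ ℕ) (hc : Val par c) :
    cr par g (an par g (bv' par c)) = (c g : ℚ) • bv' par c := by
  rw [an_bv' par g c hc, map_smul, cr_bv', smul_smul]
  by_cases h0 : c g = 0
  · rw [h0]
    simp
  · rw [add_sub_single g c h0, sgn_sub par g g c h0, sg_self, mul_one, mul_assoc, sgn_sq, mul_one]

theorem sgn_even (g : G) (hg : par g = 0) (c : G →₀ ℕ) : sgn par g c = 1 := by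
  rw [sgn_ni, if_neg]
  rw [hg]
  exact zero_ne_one

theorem cr_even (g : G) (hg : par g = 0) :
    cr par g = Finsupp.lmapDomain ℚ ℚ
      (fun c : Conf par => addc par g c (fun h => absurd (hg.symm.trans h) zero_ne_one)) := by
  refine ext_bv par fun c => ?_
  rw [cr_bv, sgn_even par g hg, one_smul]
  have e := bv'_of par (addc par g c (fun h => absurd (hg.symm.trans h) zero_ne_one))
  have e2 : Finsupp.lmapDomain ℚ ℚ
      (fun c : Conf par => addc par g c (fun h => absurd (hg.symm.trans h) zero_ne_one))
      (bv par c) = bv par (addc par g c (fun h => absurd (hg.symm.trans h) zero_ne_one)) := by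
    unfold bv
    rw [Finsupp.lmapDomain_apply, Finsupp.mapDomain_single]
  rw [e2, ← e]
  rfl

theorem gen (S : Submodule ℚ (Fock par)) (hv : vac par ∈ S)
    (hS : ∀ g, ∀ x ∈ S, cr par g x ∈ S) :
    ∀ (n : ℕ) (c : G →₀ ℕ), Val par c → (c.sum fun _ k => k) = n → bv' par c ∈ S := by
  intro n
  induction n with
  | zero =>
    intro c hc h0
    have hc0 : c = 0 := by
      ext g
      by_contra hne
      have hm : g ∈ c.support := Finsupp.mem_support_iff.2 hne
      have : c g ≤ c.sum fun _ k => k :=
        Finset.single_le_sum (f := fun g => c g) (fun _ _ => Nat.zero_le _) hm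
      have h1 : c g = 0 := by omega
      exact hne h1
    subst hc0
    have := bv'_of par (vacc par)
    have e : bv' par (0 : G →₀ ℕ) = vac par := this
    rw [e]
    exact hv
  | succ n ih =>
    intro c hc hn
    have hne : c ≠ 0 := by
      rintro rfl
      simp at hn
    obtain ⟨g, hg⟩ := Finsupp.ne_iff.1 hne
    rw [Finsupp.zero_apply] at hg
    have h1 := add_sub_single g c hg
    have h2 : ((c - Finsupp.single g 1).sum fun _ k => k) = n := by
      have h3 : ((c - Finsupp.single g 1 + Finsupp.single g 1).sum fun _ k => k) =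
          ((c - Finsupp.single g 1).sum fun _ k => k) + 1 := by
        rw [Finsupp.sum_add_index' (fun _ => rfl) (fun _ _ _ => rfl), Finsupp.sum_single_index rfl]
      rw [h1, hn] at h3
      omega
    have h4 := hS g _ (ih (c - Finsupp.single g 1) (val_sub par g c hc) h2)
    rw [cr_bv', h1] at h4
    have h5 := S.smul_mem (sgn par g (c - Finsupp.single g 1)) h4
    rw [smul_smul, sgn_sq, one_smul] at h5
    exact h5

end AuxF2

open AuxF1 AuxF2 in
theorem F2_proof : StmtF2 := by
  intro G par
  refine ⟨fun g c => ?_, fun g hg => ?_, fun g => ?_, fun g c hc => ?_, fun S hv hS => ?_⟩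
  · rw [← bv'_of]
    exact cr_an par g c.1 c.2
  · rw [cr_even par g hg]
    refine Finsupp.mapDomain_injective ?_
    intro c d hcd
    have h1 : c.1 + Finsupp.single g 1 = d.1 + Finsupp.single g 1 := congrArg Subtype.val hcd
    exact Subtype.ext (add_right_cancel h1)
  · unfold vac
    rw [an_bv]
    have : (vacc par).1 g = 0 := rfl
    rw [this]
    simp
  · rw [an_bv, hc]
    simp
  · rw [eq_top_iff]
    intro x _
    induction x using Finsupp.induction_linear with
    | zero => exact S.zero_mem
    | add x y hx hy => exact S.add_mem (hx trivial) (hy trivial)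
    | single c t =>
      have h1 := gen par S hv hS _ c.1 c.2 rfl
      rw [bv'_of] at h1
      have h2 : (Finsupp.single c t : Fock par) = t • bv par c := by
        unfold bv
        rw [Finsupp.smul_single, smul_eq_mul, mul_one]
      rw [h2]
      exact S.smul_mem t h1

end Pool.Agent.PLE
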