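import Pool.Agent.PLE.Stmts

/-!
Second quantization on super Fock spaces (tasks F3 and F4 of the PLE project).
-/

namespace Pool.Agent.PLE

namespace AuxF34

theorem eps_mul_right (a b c : ZMod 2) : eps a (b + c) = eps a b * eps a c := by
  unfold eps
  fin_cases a <;> fin_cases b <;> fin_cases c <;> norm_num <;> decide

theorem eps_comm (a b : ZMod 2) : eps a b = eps b a := by
  unfold eps
  simp only [and_comm]

theorem eps_mul_left (a b c : ZMod 2) : eps (a + b) c = eps a c * eps b c := by
  rw [eps_comm, eps_mul_right, eps_comm c a, eps_comm c b]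

theorem eps_sq (a b : ZMod 2) : eps a b * eps a b = 1 := by
  unfold eps
  split_ifs <;> norm_num

theorem eps_eq (a b c : ZMod 2) : eps a b * eps (a + c) b = eps c b := by
  rw [eps_mul_left, ← mul_assoc, eps_sq, one_mul]

variable {G : Type} (par : G → ZMod 2)

/-- vectors supported on the letters of parity `p` -/
abbrev SP (p : ZMod 2) : Submodule ℚ (G →₀ ℚ) := Finsupp.supported ℚ ℚ {g | par g = p}

theorem homog_iff (T : Module.End ℚ (G →₀ ℚ)) (t : ZMod 2) :
    Homog par T t ↔ ∀ h, T (Finsupp.single h 1) ∈ SP par (par h + t) := by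
  unfold Homog SP
  simp only [Finsupp.mem_supported]
  rfl

theorem eqOn_SP {X : Type*} [AddCommGroup X] [Module ℚ X] (p : ZMod 2)
    (A B : (G →₀ ℚ) →ₗ[ℚ] X)
    (h : ∀ g, par g = p → A (Finsupp.single g 1) = B (Finsupp.single g 1)) :
    ∀ y ∈ SP par p, A y = B y := by
  intro y hy
  rw [SP, Finsupp.supported_eq_span_single] at hy
  refine LinearMap.eqOn_span (f := A) (g := B) ?_ hy
  rintro _ ⟨g, hg, rfl⟩
  exact h g hg

theorem homog_apply {T : Module.End ℚ (G →₀ ℚ)} {t : ZMod 2} (hT : Homog par T t) (p : ZMod 2) :
    ∀ y ∈ SP par p, T y ∈ SP par (p + t) := by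
  intro y hy
  rw [SP, Finsupp.supported_eq_span_single] at hy
  have h1 : Submodule.span ℚ ((fun i => Finsupp.single i (1 : ℚ)) '' {g | par g = p}) ≤
      (SP par (p + t)).comap T := by
    rw [Submodule.span_le]
    rintro _ ⟨g, hg, rfl⟩
    have := (homog_iff par T t).1 hT g
    rw [show par g = p from hg] at this
    exact this
  exact h1 hy

theorem crv_single (g : G) : crv par (Finsupp.single g 1) = cr par g := by
  simp [crv]

theorem crv_cr (hF1 : StmtF1) (p : ZMod 2) (h : G) :
    ∀ y ∈ SP par p, crv par y * cr par h = eps p (par h) • (cr par h * crv par y) := by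
  have := eqOn_SP par p ((LinearMap.mulRight ℚ (cr par h)) ∘ₗ crv par)
    (eps p (par h) • ((LinearMap.mulLeft ℚ (cr par h)) ∘ₗ crv par)) (by
      intro g hg
      simp only [LinearMap.comp_apply, LinearMap.smul_apply, LinearMap.mulRight_apply,
        LinearMap.mulLeft_apply, crv_single]
      rw [(hF1 G par).1 g h, hg])
  simpa only [LinearMap.comp_apply, LinearMap.smul_apply, LinearMap.mulRight_apply,
        LinearMap.mulLeft_apply] using this

theorem dG_bv (T : Module.End ℚ (G →₀ ℚ)) (c : Conf par) :
    dG par T (bv par c) =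
      ∑ h ∈ c.1.support, crv par (T (Finsupp.single h 1)) (an par h (bv par c)) := by
  unfold dG bv
  rw [Finsupp.linearCombination_single, one_smul]

theorem an_bv (g : G) (c : Conf par) :
    an par g (bv par c) = ((c.1 g : ℚ) * sgn par g c.1) • bv par (subc par g c) := by
  unfold an
  rw [bv, Finsupp.linearCombination_single, one_smul]

theorem an_bv_zero (g : G) (c : Conf par) (h : c.1 g = 0) : an par g (bv par c) = 0 := by
  rw [an_bv, h]; simp

theorem dG_bv_of (T : Module.End ℚ (G →₀ ℚ)) (c : Conf par) (s : Finset G)
    (hs : c.1.support ⊆ s) :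
    dG par T (bv par c) = ∑ h ∈ s, crv par (T (Finsupp.single h 1)) (an par h (bv par c)) := by
  rw [dG_bv]
  refine Finset.sum_subset hs fun h _ hh => ?_
  rw [an_bv_zero par h c (by simpa using hh), map_zero]

theorem eq_sum_bv (x : Fock par) : x = ∑ c ∈ x.support, x c • bv par c := by
  conv_lhs => rw [← Finsupp.sum_single x]
  unfold Finsupp.sum bv
  refine Finset.sum_congr rfl fun c _ => ?_
  rw [Finsupp.smul_single, smul_eq_mul, mul_one]

theorem dG_of (T : Module.End ℚ (G →₀ ℚ)) (x : Fock par) (s : Finset G)
    (hs : ∀ c ∈ x.support, c.1.support ⊆ s) :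
    dG par T x = ∑ h ∈ s, crv par (T (Finsupp.single h 1)) (an par h x) := by
  conv_lhs => rw [eq_sum_bv par x]
  conv_rhs => rw [eq_sum_bv par x]
  simp only [map_sum, map_smul]
  rw [Finset.sum_comm]
  refine Finset.sum_congr rfl fun c hc => ?_
  rw [dG_bv_of par T c s (hs c hc), Finset.smul_sum]

theorem cr_bv_support (h : G) (c : Conf par) (s : Finset G) (hs : c.1.support ⊆ s) (hh : h ∈ s) :
    ∀ d ∈ (cr par h (bv par c)).support, d.1.support ⊆ s := by
  classical
  intro d hd
  unfold cr at hd
  rw [bv, Finsupp.linearCombination_single, one_smul] at hd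
  split_ifs at hd with h0
  · have h1 := Finsupp.support_smul hd
    unfold bv at h1
    have h2 := Finsupp.support_single_subset h1
    rw [Finset.mem_singleton] at h2
    subst h2
    refine (Finsupp.support_add (g₁ := c.1) (g₂ := Finsupp.single h 1)).trans ?_
    refine Finset.union_subset hs ?_
    refine Finsupp.support_single_subset.trans ?_
    simpa using hh
  · simp at hd

theorem fock_ext {A B : Module.End ℚ (Fock par)} (h : ∀ c, A (bv par c) = B (bv par c)) :
    A = B := by
  refine Finsupp.lhom_ext' fun c => LinearMap.ext_ring ?_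
  exact h c

theorem comm_cr (hF1 : StmtF1) (T : Module.End ℚ (G →₀ ℚ)) (t : ZMod 2) (hT : Homog par T t)
    (h : G) : dG par T * cr par h =
      eps t (par h) • (cr par h * dG par T) + crv par (T (Finsupp.single h 1)) := by
  classical
  refine fock_ext par fun c => ?_
  set s : Finset G := insert h c.1.support with hs
  have hcs : c.1.support ⊆ s := Finset.subset_insert _ _
  have hhs : h ∈ s := Finset.mem_insert_self _ _
  rw [LinearMap.add_apply, LinearMap.smul_apply, Module.End.mul_apply, Module.End.mul_apply,
    dG_of par T _ s (cr_bv_support par h c s hcs hhs), dG_bv_of par T c s hcs]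
  have key : ∀ g ∈ s, crv par (T (Finsupp.single g 1)) (an par g (cr par h (bv par c))) =
      eps t (par h) • (cr par h (crv par (T (Finsupp.single g 1)) (an par g (bv par c)))) +
        if g = h then crv par (T (Finsupp.single g 1)) (bv par c) else 0 := by
    intro g _
    have e1 : an par g (cr par h (bv par c)) = eps (par g) (par h) •
        (cr par h (an par g (bv par c))) + if g = h then bv par c else 0 := by
      have := LinearMap.congr_fun ((hF1 G par).2.2 g h) (bv par c)
      rw [Module.End.mul_apply, LinearMap.add_apply, LinearMap.smul_apply,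
        Module.End.mul_apply] at this
      rw [this]
      congr 1
      split_ifs <;> rfl
    rw [e1, map_add, map_smul]
    have e2 := LinearMap.congr_fun
      (crv_cr par hF1 (par g + t) h _ ((homog_iff par T t).1 hT g)) (an par g (bv par c))
    rw [Module.End.mul_apply, LinearMap.smul_apply, Module.End.mul_apply] at e2
    rw [e2, smul_smul, eps_eq]
    congr 1
    split_ifs
    · rfl
    · exact map_zero _
  rw [Finset.sum_congr rfl key, Finset.sum_add_distrib, Finset.sum_ite_eq' s h, if_pos hhs,
    map_sum, Finset.smul_sum]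

/-- dG T commutes with P(y) for homogeneous y -/
theorem comm_crv (hF1 : StmtF1) (T : Module.End ℚ (G →₀ ℚ)) (t : ZMod 2) (hT : Homog par T t)
    (p : ZMod 2) : ∀ y ∈ SP par p, dG par T * crv par y =
      eps t p • (crv par y * dG par T) + crv par (T y) := by
  have := eqOn_SP par p ((LinearMap.mulLeft ℚ (dG par T)) ∘ₗ crv par)
    (eps t p • ((LinearMap.mulRight ℚ (dG par T)) ∘ₗ crv par) + crv par ∘ₗ T) (by
      intro g hg
      simp only [LinearMap.comp_apply, LinearMap.smul_apply, LinearMap.mulRight_apply,
        LinearMap.mulLeft_apply, crv_single, LinearMap.add_apply]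
      rw [comm_cr par hF1 T t hT g, hg])
  simpa only [LinearMap.comp_apply, LinearMap.smul_apply, LinearMap.mulRight_apply,
        LinearMap.mulLeft_apply, LinearMap.add_apply] using this

theorem dG_vac (T : Module.End ℚ (G →₀ ℚ)) : dG par T (vac par) = 0 := by
  unfold vac
  rw [dG_bv]
  simp [vacc]

theorem homog_mul {T T' : Module.End ℚ (G →₀ ℚ)} {t t' : ZMod 2} (hT : Homog par T t)
    (hT' : Homog par T' t') : Homog par (T * T') (t + t') := by
  rw [homog_iff]
  intro h
  rw [Module.End.mul_apply]
  have := homog_apply par hT _ _ ((homog_iff par T' t').1 hT' h)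
  rwa [add_assoc, add_comm t' t] at this

theorem homog_sub {T T' : Module.End ℚ (G →₀ ℚ)} {t : ZMod 2} (hT : Homog par T t)
    (hT' : Homog par T' t) : Homog par (T - T') t := by
  rw [homog_iff] at *
  intro h
  rw [LinearMap.sub_apply]
  exact Submodule.sub_mem _ (hT h) (hT' h)

theorem homog_smul {T : Module.End ℚ (G →₀ ℚ)} {t : ZMod 2} (a : ℚ) (hT : Homog par T t) :
    Homog par (a • T) t := by
  rw [homog_iff] at *
  intro h
  rw [LinearMap.smul_apply]
  exact Submodule.smul_mem _ _ (hT h)

/-- the product of two second quantized operators and `P_h` -/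
theorem mul_comm_cr (hF1 : StmtF1) (T T' : Module.End ℚ (G →₀ ℚ)) (t t' : ZMod 2)
    (hT : Homog par T t) (hT' : Homog par T' t') (h : G) :
    dG par T * dG par T' * cr par h =
      eps (t + t') (par h) • (cr par h * (dG par T * dG par T')) +
      eps t' (par h) • (crv par (T (Finsupp.single h 1)) * dG par T') +
      eps t (par h + t') • (crv par (T' (Finsupp.single h 1)) * dG par T) +
      crv par ((T * T') (Finsupp.single h 1)) := by
  rw [mul_assoc, comm_cr par hF1 T' t' hT' h, mul_add, mul_smul_comm, ← mul_assoc,
    comm_cr par hF1 T t hT h, comm_crv par hF1 T t hT (par h + t') _ ((homog_iff par T' t').1 hT' h),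
    add_mul, smul_add, smul_mul_assoc, smul_smul, Module.End.mul_apply (f := T) (g := T'),
    eps_mul_left t t' (par h), mul_comm (eps t' (par h)) (eps t (par h)), mul_assoc (cr par h)]
  abel

end AuxF34

open AuxF34

theorem F3_proof (hF1 : StmtF1) (hF2 : StmtF2) : StmtF3 := by
  intro G par
  refine ⟨?_, ?_, dG_vac par, fun T t hT h => comm_cr par hF1 T t hT h, ?_, ?_⟩
  · intro T T'
    refine fock_ext par fun c => ?_
    rw [LinearMap.add_apply, dG_bv, dG_bv, dG_bv, ← Finset.sum_add_distrib]
    refine Finset.sum_congr rfl fun h _ => ?_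
    rw [LinearMap.add_apply, map_add, LinearMap.add_apply]
  · intro a T
    refine fock_ext par fun c => ?_
    rw [LinearMap.smul_apply, dG_bv, dG_bv, Finset.smul_sum]
    refine Finset.sum_congr rfl fun h _ => ?_
    rw [LinearMap.smul_apply, map_smul, LinearMap.smul_apply]
  · intro T a hT c
    rw [dG_bv, Finsupp.sum, Finset.sum_smul]
    refine Finset.sum_congr rfl fun h _ => ?_
    rw [hT h, map_smul, crv_single, LinearMap.smul_apply, (hF2 G par).1 h c, smul_smul, mul_comm]
  · intro T c hT
    rw [dG_bv]
    refine Finset.sum_eq_zero fun h hh => ?_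
    rw [hT h hh, map_zero, LinearMap.zero_apply]

theorem F4_proof (hF1 : StmtF1) (hF2 : StmtF2) : StmtF4 := by
  intro G par T T' t t' hT hT'
  set e := eps t t' with he
  set X : Module.End ℚ (G →₀ ℚ) := T * T' - e • (T' * T) with hX
  have hXh : Homog par X (t + t') := by
    refine homog_sub par (homog_mul par hT hT') (homog_smul par e ?_)
    rw [add_comm t t']
    exact homog_mul par hT' hT
  set D : Module.End ℚ (Fock par) :=
    dG par T * dG par T' - e • (dG par T' * dG par T) - dG par X with hD
  have hcomm : ∀ h, D * cr par h = eps (t + t') (par h) • (cr par h * D) := by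
    intro h
    have h1 := mul_comm_cr par hF1 T T' t t' hT hT' h
    have h2 := mul_comm_cr par hF1 T' T t' t hT' hT h
    have h3 := comm_cr par hF1 X (t + t') hXh h
    have hs := eps_sq t t'
    have ha : eps t' (par h + t) = eps t' (par h) * e := by
      rw [eps_mul_right, eps_comm t' t]
    have hb : eps t (par h + t') = eps t (par h) * e := by
      rw [eps_mul_right]
    have hXa : crv par (X (Finsupp.single h 1)) = crv par ((T * T') (Finsupp.single h 1)) -
        e • crv par ((T' * T) (Finsupp.single h 1)) := by
      rw [hX, LinearMap.sub_apply, LinearMap.smul_apply, map_sub, map_smul]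
    rw [hD, sub_mul, sub_mul, smul_mul_assoc, h1, h2, h3, hXa, ha, hb, add_comm t' t,
      mul_sub, mul_sub, mul_smul_comm]
    have e1 : e • (eps t' (par h) * e) • (crv par (T (Finsupp.single h 1)) * dG par T') =
        eps t' (par h) • (crv par (T (Finsupp.single h 1)) * dG par T') := by
      rw [smul_smul, mul_comm (eps t' (par h)) e, ← mul_assoc, hs, one_mul]
    simp only [smul_add, smul_sub, e1]
    rw [smul_comm e (eps (t + t') (par h)), smul_smul e (eps t (par h)),
      mul_comm e (eps t (par h))]
    abel
  have hker : LinearMap.ker D = ⊤ := by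
    refine (hF2 G par).2.2.2.2 _ ?_ ?_
    · rw [LinearMap.mem_ker, hD]
      simp only [LinearMap.sub_apply, LinearMap.smul_apply, Module.End.mul_apply, dG_vac,
        map_zero, smul_zero, sub_zero]
    · intro g x hx
      rw [LinearMap.mem_ker] at hx ⊢
      have := LinearMap.congr_fun (hcomm g) x
      rw [Module.End.mul_apply, LinearMap.smul_apply, Module.End.mul_apply, hx, map_zero,
        smul_zero] at this
      exact this
  have h0 : D = 0 := LinearMap.ker_eq_top.1 hker
  exact sub_eq_zero.1 h0

end Pool.Agent.PLE
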