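import Pool.Agent.PLE.Stmts

/-!
# O12: odd reflections (paper 3.1, 3.2)
-/

namespace Pool.Agent.PLE
namespace AuxO12

variable {I : Type}

theorem bef_cons (x : I) (L : List I) (i j : I) :
    [i, j].Sublist (x :: L) ↔ (i = x ∧ j ∈ L) ∨ [i, j].Sublist L := by
  rw [List.sublist_cons_iff]
  constructor
  · rintro (h | ⟨r, h1, h2⟩)
    · exact Or.inr h
    · left
      obtain ⟨rfl, rfl⟩ : i = x ∧ [j] = r := by simpa using h1
      exact ⟨rfl, by simpa using h2⟩
  · rintro (⟨rfl, h⟩ | h)
    · right
      exact ⟨[j], rfl, by simpa using h⟩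
    · exact Or.inl h

theorem bef_append (L1 L2 : List I) (i j : I) :
    [i, j].Sublist (L1 ++ L2) ↔ [i, j].Sublist L1 ∨ (i ∈ L1 ∧ j ∈ L2) ∨ [i, j].Sublist L2 := by
  induction L1 with
  | nil => simp
  | cons x L1 ih =>
    rw [List.cons_append, bef_cons, bef_cons, ih]
    simp only [List.mem_append, List.mem_cons]
    constructor
    · rintro (⟨h1, h2 | h2⟩ | h | h | h) <;> tauto
    · rintro ((⟨h1, h2⟩ | h) | ⟨h1 | h1, h2⟩ | h) <;> tauto

theorem bef_left {L : List I} {i j : I} (h : [i, j].Sublist L) : i ∈ L := h.subset (by simp)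
theorem bef_right {L : List I} {i j : I} (h : [i, j].Sublist L) : j ∈ L := h.subset (by simp)

/-- consequences of `Nodup` -/
theorem nd {L1 L2 : List I} {a b : I} (h : (L1 ++ a :: b :: L2).Nodup) :
    a ≠ b ∧ a ∉ L1 ∧ b ∉ L1 ∧ a ∉ L2 ∧ b ∉ L2 := by
  rw [List.nodup_append] at h
  obtain ⟨_, h2, h3⟩ := h
  rw [List.nodup_cons, List.nodup_cons] at h2
  refine ⟨?_, ?_, ?_, ?_, h2.2.1⟩
  · rintro rfl
    exact h2.1 (by simp)
  · intro ha
    exact h3 a ha a (by simp) rfl
  · intro hb
    exact h3 b hb b (by simp) rfl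
  · intro ha
    exact h2.1 (by simp [ha])

theorem nd_swap {L1 L2 : List I} {a b : I} (h : (L1 ++ a :: b :: L2).Nodup) :
    (L1 ++ b :: a :: L2).Nodup :=
  (List.Perm.nodup_iff (List.Perm.append_left _ (List.Perm.swap b a L2))).1 h

theorem padd {x y : ZMod 2} (h : x ≠ y) : x + y = 1 := by
  revert x y
  decide

theorem pself (x : ZMod 2) : x + x = 0 := by
  revert x
  decide

theorem eps_zero (y : ZMod 2) : eps 0 y = 1 := by
  unfold eps
  simp

theorem eps_one : eps 1 1 = -1 := by
  unfold eps
  simp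

open Classical in
theorem main {pI : I → ZMod 2} {X : Type} [AddCommGroup X] [Module ℚ X]
    {e : I → I → Module.End ℚ X} (hgl : GlRel pI e) {S : Submodule ℚ X} (hst : Stable e S)
    {L1 L2 : List I} {a b : I} (hnd : (L1 ++ a :: b :: L2).Nodup) (hp : pI a ≠ pI b) {μ : I → ℤ}
    {x : X} (hx : x ∈ HW e S (L1 ++ a :: b :: L2) μ) :
    e b a x ∈ HW e S (L1 ++ b :: a :: L2) (μ - Pi.single a 1 + Pi.single b 1) := by
  obtain ⟨hab, ha1, hb1, ha2, hb2⟩ := nd hnd
  obtain ⟨hxS, hxw, hxk⟩ := hx
  have hpab : pI b + pI a = 1 := by rw [add_comm]; exact padd hp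
  -- the square of e b a
  have hsq : e b a (e b a x) = 0 := by
    have h := congrArg (fun f : Module.End ℚ X => f x) (hgl b a b a)
    simp only [hpab, eps_one, hab, if_false, LinearMap.sub_apply, LinearMap.smul_apply,
      Module.End.mul_apply, LinearMap.zero_apply, smul_zero, sub_zero] at h
    rw [neg_smul, one_smul, sub_neg_eq_add, ← two_smul ℚ] at h
    exact (smul_eq_zero.1 h).resolve_left (by norm_num)
  refine ⟨hst b a x hxS, ?_, ?_⟩
  · intro i
    have h := congrArg (fun f : Module.End ℚ X => f x) (hgl i i b a)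
    simp only [pself, eps_zero, one_smul, LinearMap.sub_apply, Module.End.mul_apply] at h
    rw [hxw i, map_smul, sub_eq_iff_eq_add] at h
    rw [h]
    simp only [Pi.add_apply, Pi.sub_apply, Pi.single_apply]
    by_cases hia : i = a
    · subst hia
      have h1 : ¬ (i = b) := hab
      simp only [h1, if_false, if_true, LinearMap.zero_apply, zero_sub, add_zero]
      push_cast
      rw [sub_smul, one_smul]
      abel
    · by_cases hib : i = b
      · subst hib
        have h1 : ¬ (a = i) := hab
        simp only [h1, hia, if_false, if_true, LinearMap.zero_apply, sub_zero]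
        push_cast
        rw [add_smul, one_smul]
        abel
      · have h1 : ¬ (a = i) := fun h => hia h.symm
        simp only [h1, hia, hib, if_false, LinearMap.zero_apply, sub_zero, add_zero, zero_add]
  · intro i j hij
    have hsub : (i = b ∧ j = a) ∨ [i, j].Sublist (L1 ++ a :: b :: L2) := by
      rw [bef_append, bef_cons, bef_cons] at hij ⊢
      simp only [List.mem_cons] at hij ⊢
      tauto
    rcases hsub with ⟨rfl, rfl⟩ | hsub
    · exact hsq
    · have h := congrArg (fun f : Module.End ℚ X => f x) (hgl i j b a)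
      simp only [LinearMap.sub_apply, LinearMap.smul_apply, Module.End.mul_apply] at h
      rw [hxk i j hsub, map_zero, smul_zero, sub_zero] at h
      rw [h]
      have h1 : (if j = b then e i a else 0 : Module.End ℚ X) x = 0 := by
        split_ifs with hjb
        · subst hjb
          apply hxk
          rw [bef_append, bef_cons, bef_cons] at hij ⊢
          simp only [List.mem_cons] at hij ⊢
          rcases hij with h3 | ⟨h3, _⟩ | ⟨_, h3⟩ | ⟨_, h3⟩ | h3
          · exact absurd (bef_right h3) hb1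
          · exact Or.inr (Or.inl ⟨h3, Or.inl (by trivial)⟩)
          · rcases h3 with h3 | h3
            · exact absurd h3.symm hab
            · exact absurd h3 hb2
          · exact absurd h3 hb2
          · exact absurd (bef_right h3) hb2
        · rfl
      have h2 : (if a = i then e b j else 0 : Module.End ℚ X) x = 0 := by
        split_ifs with hai
        · subst hai
          apply hxk
          rw [bef_append, bef_cons, bef_cons] at hij ⊢
          simp only [List.mem_cons] at hij ⊢
          rcases hij with h3 | ⟨h3, _⟩ | ⟨h3, _⟩ | ⟨_, h3⟩ | h3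
          · exact absurd (bef_left h3) ha1
          · exact absurd h3 ha1
          · exact absurd h3 hab
          · exact Or.inr (Or.inr (Or.inr (Or.inl ⟨(by trivial), h3⟩)))
          · exact absurd (bef_left h3) ha2
        · rfl
      rw [h1, h2, smul_zero, sub_zero]

theorem comp {pI : I → ZMod 2} {X : Type} [AddCommGroup X] [Module ℚ X]
    {e : I → I → Module.End ℚ X} (hgl : GlRel pI e) {S : Submodule ℚ X}
    {L1 L2 : List I} {a b : I} (hp : pI a ≠ pI b) {μ : I → ℤ}
    {x : X} (hx : x ∈ HW e S (L1 ++ a :: b :: L2) μ) :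
    e a b (e b a x) = ((μ a + μ b : ℤ) : ℚ) • x := by
  classical
  obtain ⟨hxS, hxw, hxk⟩ := hx
  have hpab : pI a + pI b = 1 := padd hp
  have hpba : pI b + pI a = 1 := by rw [add_comm]; exact padd hp
  have h := congrArg (fun f : Module.End ℚ X => f x) (hgl a b b a)
  simp only [hpab, hpba, eps_one, if_true, LinearMap.sub_apply, LinearMap.smul_apply,
    Module.End.mul_apply] at h
  have h0 : e a b x = 0 := hxk a b (by
    rw [bef_append, bef_cons]
    simp)
  rw [h0, map_zero, smul_zero, sub_zero, hxw a, hxw b] at h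
  rw [h]
  push_cast
  rw [add_smul, neg_smul, one_smul, sub_neg_eq_add]

end AuxO12

open AuxO12 in
theorem O1_proof : StmtO1 := by
  classical
  intro I pI X _ _ e hgl S hst L1 L2 a b hnd hp μ hμ
  obtain ⟨hab, _⟩ := nd hnd
  set μ' : I → ℤ := μ - Pi.single a 1 + Pi.single b 1 with hμ'
  have hμμ : μ' - Pi.single b 1 + Pi.single a 1 = μ := by
    rw [hμ']
    abel
  have hf : ∀ x ∈ HW e S (L1 ++ a :: b :: L2) μ, e b a x ∈ HW e S (L1 ++ b :: a :: L2) μ' :=
    fun x hx => by
      have := main hgl hst hnd hp hx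
      convert this
  have hg : ∀ y ∈ HW e S (L1 ++ b :: a :: L2) μ', e a b y ∈ HW e S (L1 ++ a :: b :: L2) μ :=
    fun y hy => by
      have := main hgl hst (nd_swap hnd) hp.symm hy
      have h2 : HW e S (L1 ++ a :: b :: L2) μ = HW e S (L1 ++ a :: b :: L2) (μ' - Pi.single b 1 + Pi.single a 1) := by
        rw [hμμ]
      rw [h2]
      convert this
  have hsum : μ' b + μ' a = μ a + μ b := by
    rw [hμ']
    simp only [Pi.add_apply, Pi.sub_apply, Pi.single_apply]
    simp [hab, hab.symm]
    ring
  have hc : ((μ a + μ b : ℤ) : ℚ) ≠ 0 := by exact_mod_cast hμ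
  refine ⟨LinearEquiv.ofLinearMap ((e b a).restrict hf)
    ((((μ a + μ b : ℤ) : ℚ)⁻¹ • (e a b)).restrict (fun y hy => by
      rw [LinearMap.smul_apply]
      exact Submodule.smul_mem _ _ (hg y hy))) ?_ ?_⟩
  · ext ⟨y, hy⟩
    simp only [LinearMap.comp_apply, LinearMap.id_apply, LinearMap.coe_restrict_apply, LinearMap.smul_apply]
    rw [map_smul, comp hgl hp.symm hy, hsum, smul_smul, inv_mul_cancel₀ hc, one_smul]
  · ext ⟨x, hx⟩
    simp only [LinearMap.comp_apply, LinearMap.id_apply, LinearMap.coe_restrict_apply, LinearMap.smul_apply]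
    rw [comp hgl hp hx, smul_smul, inv_mul_cancel₀ hc, one_smul]

open AuxO12 in
theorem O2_proof : StmtO2 := by
  intro I X _ _ e S hN L1 L2 a b hnd μ ha hb
  obtain ⟨hab, _⟩ := nd hnd
  have key : ∀ (c d : I), c ≠ d → μ c = 0 → μ d = 0 →
      HW e S (L1 ++ c :: d :: L2) μ ≤ HW e S (L1 ++ d :: c :: L2) μ := by
    intro c d hcd hc hd x hx
    obtain ⟨hxS, hxw, hxk⟩ := hx
    refine ⟨hxS, hxw, ?_⟩
    intro i j hij
    have hsub : (i = d ∧ j = c) ∨ [i, j].Sublist (L1 ++ c :: d :: L2) := by
      rw [bef_append, bef_cons, bef_cons] at hij ⊢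
      simp only [List.mem_cons] at hij ⊢
      tauto
    rcases hsub with ⟨rfl, rfl⟩ | hsub
    · apply hN j i hcd x hxS
      rw [hxw j, hc]
      simp
    · exact hxk i j hsub
  exact le_antisymm (key a b hab ha hb) (key b a hab.symm hb ha)

end Pool.Agent.PLE
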