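import Pool.Agent.PLE.Stmts

/-!
# O3: composition of odd reflections (paper 3.3)
-/

namespace Pool.Agent.PLE
namespace AuxO3

open Classical in
/-- the weight after moving `w` to the left through `vs` -/
noncomputable def upd {I : Type} (w : I) (vs : List I) (μ : I → ℤ) : I → ℤ := fun i =>
  if i = w then μ w + (vs.countP (fun a => decide (0 < μ a)) : ℤ)
  else if i ∈ vs ∧ 0 < μ i then μ i - 1 else μ i

theorem card_filter (p : ℕ) (P : Fin p → Prop) [DecidablePred P] :
    (Finset.univ.filter P).card = (List.finRange p).countP (fun a => decide (P a)) := by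
  rw [List.countP_eq_length_filter, ← List.toFinset_card_of_nodup ((List.nodup_finRange p).filter _)]
  congr 1
  ext a
  simp

theorem eqv {I : Type} {X : Type} [AddCommGroup X] [Module ℚ X]
    (e : I → I → Module.End ℚ X) (S : Submodule ℚ X) {L L' : List I} {μ μ' : I → ℤ}
    (h : L = L') (h' : μ = μ') : Nonempty (HW e S L μ ≃ₗ[ℚ] HW e S L' μ') := by
  subst h; subst h'
  exact ⟨LinearEquiv.refl ℚ _⟩

theorem move (hO1 : StmtO1) (hO2 : StmtO2) {I : Type} (pI : I → ZMod 2) {X : Type}
    [AddCommGroup X] [Module ℚ X] (e : I → I → Module.End ℚ X) (hgl : GlRel pI e)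
    (S : Submodule ℚ X) (hst : Stable e S) (hN : PropN e S) (w : I) (vs : List I) :
    ∀ (L1 L2 : List I) (μ : I → ℤ), (L1 ++ vs ++ w :: L2).Nodup →
      (∀ a ∈ vs, pI a ≠ pI w) → (∀ a ∈ vs, 0 ≤ μ a) → vs.Pairwise (fun x y => μ y ≤ μ x) →
      0 ≤ μ w → (μ w = 0 ∨ ∀ a ∈ vs, 0 < μ a) →
      Nonempty (HW e S (L1 ++ vs ++ w :: L2) μ ≃ₗ[ℚ]
        HW e S (L1 ++ w :: vs ++ L2) (upd w vs μ)) := by
  classical
  induction vs using List.reverseRecOn with
  | nil =>
    intro L1 L2 μ _ _ _ _ _ _
    refine eqv e S (by simp) ?_
    funext i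
    unfold upd
    by_cases h : i = w
    · simp [h]
    · simp [h]
  | append_singleton vs a ih =>
    intro L1 L2 μ hnd hpar hnn hpw hw0 hor
    have hL : L1 ++ (vs ++ [a]) ++ w :: L2 = (L1 ++ vs) ++ a :: w :: L2 := by simp
    have hL' : (L1 ++ vs) ++ w :: a :: L2 = L1 ++ vs ++ w :: (a :: L2) := rfl
    have hR : L1 ++ w :: (vs ++ [a]) ++ L2 = L1 ++ w :: vs ++ (a :: L2) := by simp
    have hnd' : ((L1 ++ vs) ++ a :: w :: L2).Nodup := by rw [← hL]; exact hnd
    have hnd2 : (L1 ++ vs ++ w :: (a :: L2)).Nodup := by
      refine (List.Perm.nodup_iff ?_).1 hnd'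
      exact List.Perm.append_left _ (List.Perm.swap w a L2)
    have haw : a ≠ w := by
      intro h
      have := (List.nodup_append.1 hnd').2.1
      simp [h] at this
    have hav : a ∉ vs := by
      intro h
      rw [List.nodup_append] at hnd'
      exact hnd'.2.2 a (by simp [h]) a (by simp) rfl
    have hwv : w ∉ vs := by
      intro h
      rw [List.nodup_append] at hnd'
      exact hnd'.2.2 w (by simp [h]) w (by simp) rfl
    have hpw' := List.pairwise_append.1 hpw
    rcases (hnn a (by simp)).eq_or_lt with ha0 | ha0
    · -- μ a = 0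
      have hw : μ w = 0 := by
        rcases hor with h | h
        · exact h
        · have := h a (by simp)
          omega
      have h1 := hO2 I X e S hN (L1 ++ vs) L2 a w hnd' μ ha0.symm hw
      obtain ⟨f1⟩ := ih L1 (a :: L2) μ hnd2 (fun b hb => hpar b (by simp [hb]))
        (fun b hb => hnn b (by simp [hb])) hpw'.1 hw0 (Or.inl hw)
      obtain ⟨f2⟩ := eqv e S (μ := upd w vs μ) (μ' := upd w (vs ++ [a]) μ) hR.symm (by
        funext i
        unfold upd
        by_cases h : i = w
        · simp [h, ← ha0]
        · by_cases hia : i = a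
          · subst hia
            simp [h, hav, ← ha0]
          · have hmm : (i ∈ vs ++ [a]) = (i ∈ vs) := by simp [hia]
            simp only [h, if_false, hmm])
      rw [hL, h1]
      exact ⟨f1.trans f2⟩
    · -- μ a > 0
      obtain ⟨f1⟩ := hO1 I pI X e hgl S hst (L1 ++ vs) L2 a w hnd' (hpar a (by simp)) μ (by omega)
      set μ1 : I → ℤ := fun i => if i = a then μ a - 1 else if i = w then μ w + 1 else μ i with hμ1
      obtain ⟨f2⟩ := eqv e S (L := (L1 ++ vs) ++ w :: a :: L2) (L' := L1 ++ vs ++ w :: (a :: L2))
        (μ := (by classical exact μ - Pi.single a 1 + Pi.single w 1)) (μ' := μ1) rfl (by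
        funext i
        simp only [hμ1, Pi.add_apply, Pi.sub_apply, Pi.single_apply]
        by_cases hia : i = a
        · subst hia
          simp [haw]
        · by_cases hiw : i = w
          · subst hiw
            simp [hia]
          · simp [hia, hiw])
      have hv1 : ∀ b ∈ vs, μ1 b = μ b := by
        intro b hb
        have h1 : b ≠ a := fun h => hav (h ▸ hb)
        have h2 : b ≠ w := fun h => hwv (h ▸ hb)
        simp [hμ1, h1, h2]
      have hw1 : μ1 w = μ w + 1 := by simp [hμ1, haw.symm]
      have hpos : ∀ b ∈ vs, 0 < μ b := by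
        intro b hb
        have := hpw'.2.2 b hb a (by simp)
        omega
      obtain ⟨f3⟩ := ih L1 (a :: L2) μ1 hnd2 (fun b hb => hpar b (by simp [hb]))
        (fun b hb => by rw [hv1 b hb]; exact hnn b (by simp [hb]))
        (hpw'.1.imp_of_mem (fun {x y} hx hy hxy => by rw [hv1 x hx, hv1 y hy]; exact hxy))
        (by omega) (Or.inr (fun b hb => by rw [hv1 b hb]; exact hpos b hb))
      obtain ⟨f4⟩ := eqv e S (μ := upd w vs μ1) (μ' := upd w (vs ++ [a]) μ) hR.symm (by
        funext i
        unfold upd
        have hc : vs.countP (fun b => decide (0 < μ1 b)) = vs.countP (fun b => decide (0 < μ b)) := by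
          apply List.countP_congr
          intro b hb
          rw [hv1 b hb]
        by_cases h : i = w
        · subst h
          rw [hc, hw1]
          simp [ha0]
          ring
        · by_cases hia : i = a
          · subst hia
            simp [h, hav, ha0, hμ1]
          · have h5 : μ1 i = μ i := by simp [hμ1, h, hia]
            have hmm : (i ∈ vs ++ [a]) = (i ∈ vs) := by simp [hia]
            simp only [h, if_false, hmm, h5])
      rw [hL]
      exact ⟨((f1.trans f2).trans f3).trans f4⟩

end AuxO3

open AuxO3 in
theorem O3_proof (hO1 : StmtO1) (hO2 : StmtO2) : StmtO3 := by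
  classical
  intro p q X _ _ e hgl S hst hN ν hν
  set W : ℕ → (Fin p ⊕ Fin q → ℤ) := fun k => Sum.elim (fun a => ((ν a - k : ℕ) : ℤ))
    (fun b => if (b : ℕ) < k then ((Finset.univ.filter fun a : Fin p => (b : ℕ) < ν a).card : ℤ) else 0) with hW
  have main : ∀ k ≤ q, Nonempty (HW e S (evL p q ++ odL p q) (wtE q ν) ≃ₗ[ℚ]
      HW e S ((odL p q).take k ++ evL p q ++ (odL p q).drop k) (W k)) := by
    intro k
    induction k with
    | zero =>
      intro _
      refine eqv e S (by simp) ?_
      funext i
      rcases i with a | b
      · simp [wtE, hW]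
      · simp [wtE, hW]
    | succ k ih =>
      intro hk
      obtain ⟨f1⟩ := ih (by omega)
      have hlen : (odL p q).length = q := by simp [odL]
      have hkq : k < q := hk
      have hget : (odL p q)[k]'(by omega) = Sum.inr ⟨k, hkq⟩ := by
        simp [odL]
      have hdrop : (odL p q).drop k = Sum.inr ⟨k, hkq⟩ :: (odL p q).drop (k + 1) := by
        rw [List.drop_eq_getElem_cons (by omega), hget]
      have htake : (odL p q).take (k + 1) = (odL p q).take k ++ [Sum.inr ⟨k, hkq⟩] := by
        rw [List.take_succ_eq_append_getElem (by omega), hget]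
      have hnd0 : (evL p q ++ odL p q).Nodup := by
        refine List.Nodup.append ((List.nodup_finRange _).map Sum.inl_injective)
          ((List.nodup_finRange _).map Sum.inr_injective) ?_
        intro x hx hx'
        simp only [evL, odL, List.mem_map] at hx hx'
        obtain ⟨a, _, rfl⟩ := hx
        obtain ⟨b, _, hb⟩ := hx'
        cases hb
      have hnd : ((odL p q).take k ++ evL p q ++ Sum.inr ⟨k, hkq⟩ :: (odL p q).drop (k + 1)).Nodup := by
        rw [← hdrop]
        refine (List.Perm.nodup_iff ?_).1 hnd0
        calc (evL p q ++ odL p q).Perm (evL p q ++ ((odL p q).take k ++ (odL p q).drop k)) := by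
              rw [List.take_append_drop]
          _ = (evL p q ++ (odL p q).take k) ++ (odL p q).drop k := by rw [List.append_assoc]
          List.Perm _ ((odL p q).take k ++ evL p q ++ (odL p q).drop k) :=
              List.Perm.append_right _ List.perm_append_comm
      have hmem : ∀ a ∈ evL p q, ∃ c : Fin p, a = Sum.inl c := by
        intro a ha
        simp only [evL, List.mem_map] at ha
        obtain ⟨c, _, rfl⟩ := ha
        exact ⟨c, rfl⟩
      obtain ⟨f2⟩ := move hO1 hO2 (psum p q) e hgl S hst hN (Sum.inr ⟨k, hkq⟩) (evL p q)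
        ((odL p q).take k) ((odL p q).drop (k + 1)) (W k) hnd
        (by
          intro a ha
          obtain ⟨c, rfl⟩ := hmem a ha
          simp [psum])
        (by
          intro a ha
          obtain ⟨c, rfl⟩ := hmem a ha
          simp [hW])
        (by
          unfold evL
          rw [List.pairwise_map]
          refine (List.pairwise_lt_finRange p).imp ?_
          intro x y hxy
          simp only [hW, Sum.elim_inl]
          have := hν hxy.le
          omega)
        (by simp [hW]) (Or.inl (by simp [hW]))
      obtain ⟨f3⟩ := eqv e S (L := (odL p q).take k ++ Sum.inr ⟨k, hkq⟩ :: evL p q ++ (odL p q).drop (k + 1))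
        (L' := (odL p q).take (k + 1) ++ evL p q ++ (odL p q).drop (k + 1))
        (μ := upd (Sum.inr ⟨k, hkq⟩) (evL p q) (W k)) (μ' := W (k + 1)) (by rw [htake]; simp) (by
        funext i
        unfold upd
        rcases i with a | b
        · have h1 : (Sum.inl a : Fin p ⊕ Fin q) ∈ evL p q := by simp [evL]
          simp only [reduceCtorEq, if_false, h1, true_and]
          simp only [hW, Sum.elim_inl]
          split_ifs with h2
          · omega
          · omega
        · by_cases hb : b = ⟨k, hkq⟩
          · subst hb
            simp only [if_true]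
            simp only [hW, Sum.elim_inr, lt_self_iff_false, if_false, zero_add, Nat.lt_succ_self, if_true]
            unfold evL
            rw [List.countP_map, card_filter]
            congr 1
            apply List.countP_congr
            intro x _
            simp
          · have h1 : (Sum.inr b : Fin p ⊕ Fin q) ≠ Sum.inr ⟨k, hkq⟩ := fun h => hb (Sum.inr_injective h)
            have h2 : (Sum.inr b : Fin p ⊕ Fin q) ∉ evL p q := by simp [evL]
            simp only [h1, if_false, h2, false_and]
            simp only [hW, Sum.elim_inr]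
            have h3 : (b : ℕ) ≠ k := fun h => hb (Fin.ext h)
            by_cases h4 : (b : ℕ) < k
            · simp [h4, Nat.lt_succ_of_lt h4]
            · have h5 : ¬ (b : ℕ) < k + 1 := by omega
              simp [h4, h5])
      rw [hdrop] at f1
      exact ⟨(f1.trans f2).trans f3⟩
  obtain ⟨f⟩ := main q le_rfl
  obtain ⟨g⟩ := eqv e S (L := (odL p q).take q ++ evL p q ++ (odL p q).drop q)
    (L' := odL p q ++ evL p q) (μ := W q) (μ' := wtS q ν) (by
      have hlen : (odL p q).length = q := by simp [odL]
      rw [List.take_of_length_le (by omega), List.drop_eq_nil_of_le (by omega)]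
      simp) (by
      funext i
      rcases i with a | b
      · simp [wtS, hW]
      · simp only [wtS, hW, Sum.elim_inr, b.2, if_true])
  exact ⟨f.trans g⟩

end Pool.Agent.PLE
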