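import Pool.Agent.PLE.Defs

/-!
Statements of the steps of the proof (paper id 164).
-/

namespace Pool.Agent.PLE

/-! ### F: super Fock spaces (paper section 1) -/

open Classical in
/-- (CR) -/
def StmtF1 : Prop :=
  ∀ (G : Type) (par : G → ZMod 2),
    (∀ g h, cr par g * cr par h = eps (par g) (par h) • (cr par h * cr par g)) ∧
    (∀ g h, an par g * an par h = eps (par g) (par h) • (an par h * an par g)) ∧
    (∀ g h, an par g * cr par h = eps (par g) (par h) • (cr par h * an par g) +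
      if g = h then 1 else 0)

/-- basic properties of the Fock space -/
def StmtF2 : Prop :=
  ∀ (G : Type) (par : G → ZMod 2),
    (∀ g c, cr par g (an par g (bv par c)) = (c.1 g : ℚ) • bv par c) ∧
    (∀ g, par g = 0 → Function.Injective (cr par g)) ∧
    (∀ g, an par g (vac par) = 0) ∧
    (∀ g (c : Conf par), c.1 g = 0 → an par g (bv par c) = 0) ∧
    (∀ S : Submodule ℚ (Fock par), vac par ∈ S → (∀ g, ∀ x ∈ S, cr par g x ∈ S) → S = ⊤)

/-- second quantization, paper 1.1 and 1.3 -/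
def StmtF3 : Prop :=
  ∀ (G : Type) (par : G → ZMod 2),
    (∀ T T', dG par (T + T') = dG par T + dG par T') ∧
    (∀ (a : ℚ) T, dG par (a • T) = a • dG par T) ∧
    (∀ T, dG par T (vac par) = 0) ∧
    (∀ T t, Homog par T t → ∀ h, dG par T * cr par h =
      eps t (par h) • (cr par h * dG par T) + crv par (T (Finsupp.single h 1))) ∧
    (∀ T (a : G → ℚ), (∀ h, T (Finsupp.single h 1) = a h • Finsupp.single h 1) →
      ∀ c : Conf par, dG par T (bv par c) = (c.1.sum fun h n => (n : ℚ) * a h) • bv par c) ∧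
    (∀ T (c : Conf par), (∀ h ∈ c.1.support, T (Finsupp.single h 1) = 0) →
      dG par T (bv par c) = 0)

/-- paper 1.2 -/
def StmtF4 : Prop :=
  ∀ (G : Type) (par : G → ZMod 2) (T T' : Module.End ℚ (G →₀ ℚ)) (t t' : ZMod 2),
    Homog par T t → Homog par T' t' →
    dG par T * dG par T' - eps t t' • (dG par T' * dG par T) =
      dG par (T * T' - eps t t' • (T' * T))

/-! ### D: the operators on the double Fock space (paper section 2) -/

/-- one particle operators, paper 2.1 -/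
def StmtD1 : Prop :=
  ∀ (I J : Type) (pI : I → ZMod 2) (pJ : J → ZMod 2),
    GlRel pI (TV pI (J := J)) ∧ GlRel pJ (TU pI pJ) ∧
    (∀ i j c d, TV pI (J := J) i j * TU pI pJ c d =
      eps (pI i + pI j) (pJ c + pJ d) • (TU pI pJ c d * TV pI (J := J) i j)) ∧
    (∀ i j, Homog (parG pI pJ) (TV pI i j) (pI i + pI j)) ∧
    (∀ c d, Homog (parG pI pJ) (TU pI pJ c d) (pJ c + pJ d))

/-- the relations of `e_{ij}`, `E_{cd}` -/
def StmtD2 : Prop :=
  ∀ (I J : Type) (pI : I → ZMod 2) (pJ : J → ZMod 2),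
    GlRel pI (opV pI pJ) ∧ GlRel pJ (opU pI pJ) ∧
    (∀ i j c d, opV pI pJ i j * opU pI pJ c d =
      eps (pI i + pI j) (pJ c + pJ d) • (opU pI pJ c d * opV pI pJ i j))

open Classical in
/-- weights, property (N), stability of `A^m`, paper 2.2, 2.3 -/
def StmtD3 : Prop :=
  ∀ (I J : Type) (pI : I → ZMod 2) (pJ : J → ZMod 2),
    (∀ i (c : Conf (parG pI pJ)), opV pI pJ i i (bv _ c) =
      (c.1.sum fun g n => (n : ℚ) * (g.1.1 i : ℚ)) • bv _ c) ∧
    (∀ d (c : Conf (parG pI pJ)), opU pI pJ d d (bv _ c) =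
      (c.1.sum fun g n => if g.2 = d then (n : ℚ) else 0) • bv _ c) ∧
    PropN (opV pI pJ) ⊤ ∧ PropN (opU pI pJ) ⊤ ∧
    (∀ m, Stable (opV pI pJ) (AAm pI pJ m)) ∧ (∀ m, Stable (opU pI pJ) (AAm pI pJ m))

/-! ### O: odd reflections (paper section 3) -/

open Classical in
/-- paper 3.1 -/
def StmtO1 : Prop :=
  ∀ (I : Type) (pI : I → ZMod 2) (X : Type) [AddCommGroup X] [Module ℚ X]
    (e : I → I → Module.End ℚ X), GlRel pI e → ∀ S : Submodule ℚ X, Stable e S →
    ∀ (L1 L2 : List I) (a b : I), (L1 ++ a :: b :: L2).Nodup → pI a ≠ pI b →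
    ∀ μ : I → ℤ, μ a + μ b ≠ 0 →
    Nonempty (HW e S (L1 ++ a :: b :: L2) μ ≃ₗ[ℚ]
      HW e S (L1 ++ b :: a :: L2) (μ - Pi.single a 1 + Pi.single b 1))

/-- paper 3.2 -/
def StmtO2 : Prop :=
  ∀ (I : Type) (X : Type) [AddCommGroup X] [Module ℚ X]
    (e : I → I → Module.End ℚ X), ∀ S : Submodule ℚ X, PropN e S →
    ∀ (L1 L2 : List I) (a b : I), (L1 ++ a :: b :: L2).Nodup →
    ∀ μ : I → ℤ, μ a = 0 → μ b = 0 →
    HW e S (L1 ++ a :: b :: L2) μ = HW e S (L1 ++ b :: a :: L2) μ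

/-- paper 3.3 -/
def StmtO3 : Prop :=
  ∀ (p q : ℕ) (X : Type) [AddCommGroup X] [Module ℚ X]
    (e : Fin p ⊕ Fin q → Fin p ⊕ Fin q → Module.End ℚ X), GlRel (psum p q) e →
    ∀ S : Submodule ℚ X, Stable e S → PropN e S → ∀ ν : Fin p → ℕ, Antitone ν →
    Nonempty (HW e S (evL p q ++ odL p q) (wtE q ν) ≃ₗ[ℚ]
      HW e S (odL p q ++ evL p q) (wtS q ν))

/-! ### T: the spaces HW2 (paper sections 3, 4, 6, 7) -/

/-- odd reflections on the side of `V` -/
def StmtT1 : Prop :=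
  ∀ (p q r s m : ℕ) (ν : Fin p → ℕ) (LU : List (Fin r ⊕ Fin s)) (η : Fin r ⊕ Fin s → ℤ),
    Antitone ν →
    Nonempty (HW2 p q r s m (evL p q ++ odL p q) (wtE q ν) LU η ≃ₗ[ℚ]
      HW2 p q r s m (odL p q ++ evL p q) (wtS q ν) LU η)

/-- odd reflections on the side of `U` -/
def StmtT2 : Prop :=
  ∀ (p q r s m : ℕ) (LV : List (Fin p ⊕ Fin q)) (μ : Fin p ⊕ Fin q → ℤ) (lam : Fin r → ℕ),
    Antitone lam →
    Nonempty (HW2 p q r s m LV μ (evL r s ++ odL r s) (wtE s lam) ≃ₗ[ℚ]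
      HW2 p q r s m LV μ (odL r s ++ evL r s) (wtS s lam))

open Classical in
/-- multiplication by `(u, f)`, paper section 4 -/
def StmtT3 : Prop :=
  ∀ (p q r s l : ℕ) (f : Fin r ⊕ Fin s) (LU' : List (Fin r ⊕ Fin s)), (f :: LU').Nodup →
    psum r s f = (q : ZMod 2) →
    ∀ (μ : Fin (p + 1) ⊕ Fin q → ℤ) (η : Fin r ⊕ Fin s → ℤ),
    ∃ φ : HW2 (p + 1) q r s (q + l) (odL (p + 1) q ++ evL (p + 1) q) μ (f :: LU') η →ₗ[ℚ]
      HW2 (p + 1) q r s (q + l) (odL (p + 1) q ++ evL (p + 1) q) (μ + wtu p q l)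
        (f :: LU') (η + Pi.single f 1), Function.Injective φ

/-- vanishing, paper section 6 -/
def StmtT4 : Prop :=
  ∀ (p q r s m : ℕ) (ν : Fin p → ℕ) (LV : List (Fin p ⊕ Fin q)) (LU : List (Fin r ⊕ Fin s))
    (η : Fin r ⊕ Fin s → ℤ), q < m → (∀ a, ν a ≤ q) → η ≠ 0 →
    HW2 p q r s m LV (wtS q ν) LU η = ⊥

/-- the classical highest weight space, paper section 7 -/
def StmtT5 : Prop :=
  ∀ (p q r s m : ℕ) (ν : Fin p → ℕ) (lam : Fin r → ℕ),
    Nonempty (HWS p r m ν lam ≃ₗ[ℚ] HW2 p q r s m (evL p q ++ odL p q) (wtE q ν)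
      (evL r s ++ odL r s) (wtE s lam))

/-- finite dimension -/
def StmtT6 : Prop :=
  ∀ (p r m : ℕ) (ν : Fin p → ℕ) (lam : Fin r → ℕ), FiniteDimensional ℚ (HWS p r m ν lam)

/-! ### C: combinatorics (paper section 5) -/

/-- the sequence `ν{j}` -/
def StmtC1 : Prop :=
  ∀ (l m j p : ℕ) (ν : List ℕ), l ≤ m → ν.Pairwise (· ≥ ·) →
    (nuSeq l m ν (j + 1)).length ≤ p + 1 →
    (Antitone fun a : Fin (p + 1) => (nuSeq l m ν j).getD a 0) ∧
    (Antitone fun a : Fin (p + 1) => (nuSeq l m ν (j + 1)).getD a 0) ∧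
    (l = 0 ∨ m - l ≤ ν.getD 0 0 + l * j →
      wtS (m - l) (fun a : Fin (p + 1) => (nuSeq l m ν (j + 1)).getD a 0) =
        wtS (m - l) (fun a : Fin (p + 1) => (nuSeq l m ν j).getD a 0) + wtu p (m - l) l) ∧
    (l ≠ 0 → ν.getD 0 0 + l * j < m - l →
      ∀ a : Fin (p + 1), (nuSeq l m ν j).getD a 0 ≤ m - l)

open Classical in
/-- the sequence `λ[j]` -/
def StmtC2 : Prop :=
  ∀ (l m j r : ℕ) (lam : List ℕ), lam.Pairwise (· ≥ ·) →
    (lamSeq l m lam (j + 1)).length ≤ r + 1 →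
    (Antitone fun c : Fin (r + 1) => (lamSeq l m lam j).getD c 0) ∧
    (Antitone fun c : Fin (r + 1) => (lamSeq l m lam (j + 1)).getD c 0) ∧
    (1 ≤ j → (lamSeq l m lam j).getD 0 0 ≠ 0) ∧
    (Even (m + l) → ∀ s, wtE s (fun c : Fin (r + 1) => (lamSeq l m lam (j + 1)).getD c 0) =
      wtE s (fun c : Fin (r + 1) => (lamSeq l m lam j).getD c 0) + Pi.single (Sum.inl 0) 1) ∧
    (¬ Even (m + l) → ∀ s, lam.getD 0 0 ≤ s + 1 →
      wtS (s + 1) (fun c : Fin (r + 1) => (lamSeq l m lam (j + 1)).getD c 0) =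
      wtS (s + 1) (fun c : Fin (r + 1) => (lamSeq l m lam j).getD c 0) +
        Pi.single (Sum.inr 0) 1)

/-! ### R: the result -/

def StmtR : Prop :=
  ∀ (m l : ℕ), 1 ≤ m → l ≤ m → ∀ ν lam : List ℕ, ν.Pairwise (· ≥ ·) → lam.Pairwise (· ≥ ·) →
    ∀ j : ℕ, 1 ≤ j → ∀ p r : ℕ, (nuSeq l m ν (j + 1)).length ≤ p →
    (lamSeq l m lam (j + 1)).length ≤ r →
    pleth p r m (nuSeq l m ν j) (lamSeq l m lam j) ≤
      pleth p r m (nuSeq l m ν (j + 1)) (lamSeq l m lam (j + 1))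

theorem nuSeq_length (l m : ℕ) (ν : List ℕ) (j : ℕ) : 1 ≤ (nuSeq l m ν j).length := by
  unfold nuSeq addParts
  rw [List.length_insertionSort, List.length_append]
  cases ν <;> simp [addRow] <;> omega

theorem lamSeq_length (l m : ℕ) (lam : List ℕ) (j : ℕ) : 1 ≤ (lamSeq l m lam (j + 1)).length := by
  unfold lamSeq addParts
  split_ifs
  · cases lam <;> simp [addRow]
  · rw [List.length_insertionSort, List.length_append, List.length_replicate]
    omega

theorem finrank_le_of {X Y Z X' : Type} [AddCommGroup X] [Module ℚ X] [AddCommGroup Y] [Module ℚ Y]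
    [AddCommGroup Z] [Module ℚ Z] [AddCommGroup X'] [Module ℚ X'] (hfd : FiniteDimensional ℚ X')
    (e1 : X ≃ₗ[ℚ] Y) (e2 : X' ≃ₗ[ℚ] Z) (H : ∃ φ : Y →ₗ[ℚ] Z, Function.Injective φ) :
    Module.finrank ℚ X ≤ Module.finrank ℚ X' := by
  obtain ⟨φ, hφ⟩ := H
  refine LinearMap.finrank_le_finrank_of_injective
    (f := e2.symm.toLinearMap ∘ₗ φ ∘ₗ e1.toLinearMap) ?_
  exact e2.symm.injective.comp (hφ.comp e1.injective)

/-- how the pieces fit together (paper section 8) -/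
theorem R_of (hT1 : StmtT1) (hT2 : StmtT2) (hT3 : StmtT3) (hT4 : StmtT4) (hT5 : StmtT5)
    (hT6 : StmtT6) (hC1 : StmtC1) (hC2 : StmtC2) : StmtR := by
  classical
  intro m l hm hl ν lam hν hlam j hj p r hp hr
  obtain ⟨p, rfl⟩ : ∃ p', p = p' + 1 := ⟨p - 1, by have := nuSeq_length l m ν (j + 1); omega⟩
  obtain ⟨r, rfl⟩ : ∃ r', r = r' + 1 := ⟨r - 1, by have := lamSeq_length l m lam j; omega⟩
  obtain ⟨cA, cA', cW, cV⟩ := hC1 l m j p ν hl hν hp
  obtain ⟨dA, dA', dN, dE, dO⟩ := hC2 l m j r lam hlam hr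
  have hfd := hT6 (p + 1) (r + 1) m (fun a => (nuSeq l m ν (j + 1)).getD a 0)
    (fun c => (lamSeq l m lam (j + 1)).getD c 0)
  unfold pleth
  by_cases hcase : l = 0 ∨ m - l ≤ ν.getD 0 0 + l * j
  · have hw := cW hcase
    by_cases hev : Even (m + l)
    · -- even case
      obtain ⟨a1⟩ := hT5 (p + 1) (m - l) (r + 1) 0 m (fun a => (nuSeq l m ν j).getD a 0)
        (fun c => (lamSeq l m lam j).getD c 0)
      obtain ⟨b1⟩ := hT5 (p + 1) (m - l) (r + 1) 0 m (fun a => (nuSeq l m ν (j + 1)).getD a 0)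
        (fun c => (lamSeq l m lam (j + 1)).getD c 0)
      obtain ⟨a2⟩ := hT1 (p + 1) (m - l) (r + 1) 0 m (fun a => (nuSeq l m ν j).getD a 0)
        (evL (r + 1) 0 ++ odL (r + 1) 0) (wtE 0 fun c => (lamSeq l m lam j).getD c 0) cA
      obtain ⟨b2⟩ := hT1 (p + 1) (m - l) (r + 1) 0 m (fun a => (nuSeq l m ν (j + 1)).getD a 0)
        (evL (r + 1) 0 ++ odL (r + 1) 0) (wtE 0 fun c => (lamSeq l m lam (j + 1)).getD c 0) cA'
      have hL : evL (r + 1) 0 ++ odL (r + 1) 0 =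
          (Sum.inl 0 : Fin (r + 1) ⊕ Fin 0) :: ((List.finRange r).map Fin.succ).map Sum.inl := by
        simp [evL, odL, List.finRange_succ]
      have hnd : ((Sum.inl 0 : Fin (r + 1) ⊕ Fin 0) ::
          ((List.finRange r).map Fin.succ).map Sum.inl).Nodup := by
        rw [← hL]
        simp only [evL, odL, List.finRange_zero, List.map_nil, List.append_nil]
        exact (List.nodup_finRange _).map Sum.inl_injective
      have hpar : psum (r + 1) 0 (Sum.inl 0) = ((m - l : ℕ) : ZMod 2) := by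
        have h2 : Even (m - l) := by
          rw [Nat.even_sub hl]; rw [Nat.even_add] at hev; exact hev
        rw [(ZMod.natCast_eq_zero_iff_even).2 h2]; rfl
      have H := hT3 p (m - l) (r + 1) 0 l (Sum.inl 0) _ hnd hpar
        (wtS (m - l) fun a => (nuSeq l m ν j).getD a 0) (wtE 0 fun c => (lamSeq l m lam j).getD c 0)
      rw [← hw, ← dE hev 0, ← hL, Nat.sub_add_cancel hl] at H
      exact finrank_le_of hfd (a1.trans a2) (b1.trans b2) H
    · -- odd case
      set s := lam.getD 0 0 with hs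
      obtain ⟨a1⟩ := hT5 (p + 1) (m - l) (r + 1) (s + 1) m (fun a => (nuSeq l m ν j).getD a 0)
        (fun c => (lamSeq l m lam j).getD c 0)
      obtain ⟨b1⟩ := hT5 (p + 1) (m - l) (r + 1) (s + 1) m (fun a => (nuSeq l m ν (j + 1)).getD a 0)
        (fun c => (lamSeq l m lam (j + 1)).getD c 0)
      obtain ⟨a2⟩ := hT1 (p + 1) (m - l) (r + 1) (s + 1) m (fun a => (nuSeq l m ν j).getD a 0)
        (evL (r + 1) (s + 1) ++ odL (r + 1) (s + 1))
        (wtE (s + 1) fun c => (lamSeq l m lam j).getD c 0) cA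
      obtain ⟨b2⟩ := hT1 (p + 1) (m - l) (r + 1) (s + 1) m (fun a => (nuSeq l m ν (j + 1)).getD a 0)
        (evL (r + 1) (s + 1) ++ odL (r + 1) (s + 1))
        (wtE (s + 1) fun c => (lamSeq l m lam (j + 1)).getD c 0) cA'
      obtain ⟨a3⟩ := hT2 (p + 1) (m - l) (r + 1) (s + 1) m (odL (p + 1) (m - l) ++ evL (p + 1) (m - l))
        (wtS (m - l) fun a => (nuSeq l m ν j).getD a 0) (fun c => (lamSeq l m lam j).getD c 0) dA
      obtain ⟨b3⟩ := hT2 (p + 1) (m - l) (r + 1) (s + 1) m (odL (p + 1) (m - l) ++ evL (p + 1) (m - l))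
        (wtS (m - l) fun a => (nuSeq l m ν (j + 1)).getD a 0)
        (fun c => (lamSeq l m lam (j + 1)).getD c 0) dA'
      have hL : odL (r + 1) (s + 1) ++ evL (r + 1) (s + 1) =
          (Sum.inr 0 : Fin (r + 1) ⊕ Fin (s + 1)) ::
            (((List.finRange s).map Fin.succ).map Sum.inr ++ evL (r + 1) (s + 1)) := by
        simp [evL, odL, List.finRange_succ]
      have hnd : ((Sum.inr 0 : Fin (r + 1) ⊕ Fin (s + 1)) ::
            (((List.finRange s).map Fin.succ).map Sum.inr ++ evL (r + 1) (s + 1))).Nodup := by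
        rw [← hL]
        unfold odL evL
        refine List.Nodup.append ((List.nodup_finRange _).map Sum.inr_injective)
          ((List.nodup_finRange _).map Sum.inl_injective) ?_
        intro x hx hx'
        simp at hx hx'
        obtain ⟨a, rfl⟩ := hx
        obtain ⟨b, hb⟩ := hx'
        cases hb
      have hpar : psum (r + 1) (s + 1) (Sum.inr 0) = ((m - l : ℕ) : ZMod 2) := by
        have h2 : Odd (m - l) := by
          rw [← Nat.not_even_iff_odd, Nat.even_sub hl]; rw [Nat.even_add] at hev; exact hev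
        rw [(ZMod.natCast_eq_one_iff_odd).2 h2]; rfl
      have H := hT3 p (m - l) (r + 1) (s + 1) l (Sum.inr 0) _ hnd hpar
        (wtS (m - l) fun a => (nuSeq l m ν j).getD a 0)
        (wtS (s + 1) fun c => (lamSeq l m lam j).getD c 0)
      rw [← hw, ← dO hev s (by omega), ← hL, Nat.sub_add_cancel hl] at H
      exact finrank_le_of hfd ((a1.trans a2).trans a3) ((b1.trans b2).trans b3) H
  · -- vanishing case
    push Not at hcase
    obtain ⟨hl0, hlt⟩ := hcase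
    obtain ⟨a1⟩ := hT5 (p + 1) (m - l) (r + 1) 0 m (fun a => (nuSeq l m ν j).getD a 0)
        (fun c => (lamSeq l m lam j).getD c 0)
    obtain ⟨a2⟩ := hT1 (p + 1) (m - l) (r + 1) 0 m (fun a => (nuSeq l m ν j).getD a 0)
        (evL (r + 1) 0 ++ odL (r + 1) 0) (wtE 0 fun c => (lamSeq l m lam j).getD c 0) cA
    have hη : (wtE 0 fun c : Fin (r + 1) => (lamSeq l m lam j).getD c 0) ≠ 0 := by
      intro h0
      have := congrFun h0 (Sum.inl 0)
      simp only [wtE, Sum.elim_inl, Pi.zero_apply, Nat.cast_eq_zero] at this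
      exact dN hj this
    have hbot := hT4 (p + 1) (m - l) (r + 1) 0 m (fun a => (nuSeq l m ν j).getD a 0)
      (odL (p + 1) (m - l) ++ evL (p + 1) (m - l)) (evL (r + 1) 0 ++ odL (r + 1) 0) _ (by omega)
      (cV hl0 hlt) hη
    have h0 : Module.finrank ℚ (HWS (p + 1) (r + 1) m (fun a => (nuSeq l m ν j).getD a 0)
        (fun c => (lamSeq l m lam j).getD c 0)) = 0 := by
      rw [LinearEquiv.finrank_eq (a1.trans a2), hbot, finrank_bot]
    rw [h0]
    exact Nat.zero_le _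

end Pool.Agent.PLE
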