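import Pool.Agent.PLE.Stmts

/-!
Task T12: odd reflections on the side of `V` and on the side of `U`.
-/

namespace Pool.Agent.PLE

namespace AuxT12

theorem eps_ne (a b : ZMod 2) : eps a b ≠ 0 := by
  unfold eps
  split_ifs <;> norm_num

theorem eps_self (a b : ZMod 2) : eps a (b + b) = 1 := by
  unfold eps
  have : b + b = 0 := by
    fin_cases b <;> decide
  rw [this]
  simp

theorem eps_self' (a b : ZMod 2) : eps (b + b) a = 1 := by
  unfold eps
  have : b + b = 0 := by
    fin_cases b <;> decide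
  rw [this]
  simp

variable {p q r s m : ℕ}

theorem HW_V (LV : List (Fin p ⊕ Fin q)) (μ : Fin p ⊕ Fin q → ℤ)
    (LU : List (Fin r ⊕ Fin s)) (η : Fin r ⊕ Fin s → ℤ) :
    HW (opV (psum p q) (psum r s)) (HW (opU (psum p q) (psum r s))
      (AAm (psum p q) (psum r s) m) LU η) LV μ = HW2 p q r s m LV μ LU η := by
  ext x
  constructor
  · rintro ⟨⟨h1, h2, h3⟩, h4, h5⟩
    exact ⟨⟨h1, h4, h5⟩, ⟨h1, h2, h3⟩⟩
  · rintro ⟨⟨h1, h4, h5⟩, h6⟩
    exact ⟨h6, h4, h5⟩

theorem HW_U (LV : List (Fin p ⊕ Fin q)) (μ : Fin p ⊕ Fin q → ℤ)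
    (LU : List (Fin r ⊕ Fin s)) (η : Fin r ⊕ Fin s → ℤ) :
    HW (opU (psum p q) (psum r s)) (HW (opV (psum p q) (psum r s))
      (AAm (psum p q) (psum r s) m) LV μ) LU η = HW2 p q r s m LV μ LU η := by
  ext x
  constructor
  · rintro ⟨h1, h4, h5⟩
    exact ⟨h1, ⟨h1.1, h4, h5⟩⟩
  · rintro ⟨h6, ⟨h1, h4, h5⟩⟩
    exact ⟨h6, h4, h5⟩

theorem stable_V (hD2 : StmtD2) (hD3 : StmtD3) (LU : List (Fin r ⊕ Fin s))
    (η : Fin r ⊕ Fin s → ℤ) :
    Stable (opV (psum p q) (psum r s)) (HW (opU (psum p q) (psum r s))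
      (AAm (psum p q) (psum r s) m) LU η) := by
  obtain ⟨-, -, hc⟩ := hD2 _ _ (psum p q) (psum r s)
  obtain ⟨-, -, -, -, hs, -⟩ := hD3 _ _ (psum p q) (psum r s)
  rintro i j x ⟨h1, h2, h3⟩
  have key : ∀ c d, opV (psum p q) (psum r s) i j (opU (psum p q) (psum r s) c d x) =
      eps (psum p q i + psum p q j) (psum r s c + psum r s d) •
        opU (psum p q) (psum r s) c d (opV (psum p q) (psum r s) i j x) := by
    intro c d
    have := LinearMap.congr_fun (hc i j c d) x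
    simpa using this
  refine ⟨hs m i j x h1, fun c => ?_, fun c d hcd => ?_⟩
  · have := key c c
    rw [h2, eps_self, one_smul, map_smul] at this
    exact this.symm
  · have := key c d
    rw [h3 c d hcd, map_zero] at this
    exact (smul_eq_zero.1 this.symm).resolve_left (eps_ne _ _)

theorem stable_U (hD2 : StmtD2) (hD3 : StmtD3) (LV : List (Fin p ⊕ Fin q))
    (μ : Fin p ⊕ Fin q → ℤ) :
    Stable (opU (psum p q) (psum r s)) (HW (opV (psum p q) (psum r s))
      (AAm (psum p q) (psum r s) m) LV μ) := by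
  obtain ⟨-, -, hc⟩ := hD2 _ _ (psum p q) (psum r s)
  obtain ⟨-, -, -, -, -, hs⟩ := hD3 _ _ (psum p q) (psum r s)
  rintro c d x ⟨h1, h2, h3⟩
  have key : ∀ i j, opV (psum p q) (psum r s) i j (opU (psum p q) (psum r s) c d x) =
      eps (psum p q i + psum p q j) (psum r s c + psum r s d) •
        opU (psum p q) (psum r s) c d (opV (psum p q) (psum r s) i j x) := by
    intro i j
    have := LinearMap.congr_fun (hc i j c d) x
    simpa using this
  refine ⟨hs m c d x h1, fun i => ?_, fun i j hij => ?_⟩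
  · rw [key i i, h2, eps_self', one_smul, map_smul]
  · rw [key i j, h3 i j hij, map_zero, smul_zero]

end AuxT12

open AuxT12

theorem T1_proof (hO3 : StmtO3) (hD2 : StmtD2) (hD3 : StmtD3) : StmtT1 := by
  intro p q r s m ν LU η hν
  have h := hO3 p q _ (opV (psum p q) (psum r s)) (hD2 _ _ (psum p q) (psum r s)).1
    (HW (opU (psum p q) (psum r s)) (AAm (psum p q) (psum r s) m) LU η)
    (stable_V hD2 hD3 LU η)
    (fun i j hij x _ hx => (hD3 _ _ (psum p q) (psum r s)).2.2.1 i j hij x trivial hx) ν hν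
  rw [HW_V, HW_V] at h
  exact h

theorem T2_proof (hO3 : StmtO3) (hD2 : StmtD2) (hD3 : StmtD3) : StmtT2 := by
  intro p q r s m LV μ lam hlam
  have h := hO3 r s _ (opU (psum p q) (psum r s)) (hD2 _ _ (psum p q) (psum r s)).2.1
    (HW (opV (psum p q) (psum r s)) (AAm (psum p q) (psum r s) m) LV μ)
    (stable_U hD2 hD3 LV μ)
    (fun i j hij x _ hx => (hD3 _ _ (psum p q) (psum r s)).2.2.2.1 i j hij x trivial hx) lam hlam
  rw [HW_U, HW_U] at h
  exact h

end Pool.Agent.PLE
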