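import Pool.Agent.PLE.D3

/-!
Multiplication by the even highest weight vector `(u, f)` (paper section 4): `StmtT3`.
-/

namespace Pool.Agent.PLE

namespace AuxT3

open AuxD3

theorem eps_zero_right (t : ZMod 2) : eps t 0 = 1 := by
  unfold eps
  rw [if_neg]
  rintro ⟨_, h⟩
  exact absurd h (by decide)

section

variable {G : Type} (par : G → ZMod 2)

theorem comm (hF3 : StmtF3) (T : Module.End ℚ (G →₀ ℚ)) (t : ZMod 2) (hT : Homog par T t) (g : G)
    (hg : par g = 0) (a : ℚ) (ha : T (Finsupp.single g 1) = a • Finsupp.single g 1)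
    (x : Fock par) : dG par T (cr par g x) = cr par g (dG par T x) + a • cr par g x := by
  have h1 := (hF3 G par).2.2.2.1 T t hT g
  rw [hg, eps_zero_right, one_smul, ha] at h1
  have h2 := congrArg (fun φ : Module.End ℚ (Fock par) => φ x) h1
  have h3 : crv par (a • Finsupp.single g 1) = a • cr par g := by
    rw [map_smul]
    unfold crv
    rw [Finsupp.linearCombination_single, one_smul]
  rw [h3] at h2
  exact h2

theorem cr_spanP (P : G → Prop) (g : G) (hg : P g) (x : Fock par) (hx : x ∈ spanP par P) :
    cr par g x ∈ spanP par P := by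
  classical
  have hle : spanP par P ≤ (spanP par P).comap (cr par g) := by
    refine Submodule.span_le.2 ?_
    rintro _ ⟨c, hc, rfl⟩
    show cr par g (bv par c) ∈ spanP par P
    rw [cr_bv]
    split_ifs with hd
    · refine Submodule.smul_mem _ _ (Submodule.subset_span ⟨_, ?_, rfl⟩)
      intro g' hg'
      by_cases e : g = g'
      · rw [← e]; exact hg
      · refine hc g' ?_
        rw [Finsupp.mem_support_iff] at hg' ⊢
        intro h0
        apply hg'
        simp only [addc, Finsupp.add_apply, h0, Finsupp.single_apply, e, if_false, add_zero]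
    · exact Submodule.zero_mem _
  exact hle hx

end

theorem u_inl (p q l : ℕ) (a : Fin (p + 1)) : (uconf p q l).1 (Sum.inl a) = if a = 0 then l else 0 :=
  rfl

theorem u_inr (p q l : ℕ) (b : Fin q) : (uconf p q l).1 (Sum.inr b) = 1 := rfl

theorem parC_u (p q l : ℕ) : parC (psum (p + 1) q) (uconf p q l) = (q : ZMod 2) := by
  unfold parC
  rw [Finsupp.sum_fintype _ _ (fun i => by simp), Fintype.sum_sum_type]
  have h1 : ∀ b : Fin q, (((uconf p q l).1 (Sum.inr b) : ℕ) : ZMod 2) * psum (p + 1) q (Sum.inr b)
      = 1 := by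
    intro b
    rw [u_inr]
    simp [psum]
  have h2 : ∀ a : Fin (p + 1), (((uconf p q l).1 (Sum.inl a) : ℕ) : ZMod 2) *
      psum (p + 1) q (Sum.inl a) = 0 := by
    intro a
    simp [psum]
  rw [Finset.sum_congr rfl (fun a _ => h2 a), Finset.sum_congr rfl (fun b _ => h1 b)]
  simp

theorem degC_u (p q l : ℕ) : degC (psum (p + 1) q) (uconf p q l) = q + l := by
  unfold degC
  rw [Finsupp.sum_fintype _ _ (fun i => rfl), Fintype.sum_sum_type]
  have h1 : ∀ b : Fin q, ((uconf p q l).1 (Sum.inr b) : ℕ) = 1 := fun b => rfl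
  have h2 : ∀ a : Fin (p + 1), ((uconf p q l).1 (Sum.inl a) : ℕ) = if a = 0 then l else 0 :=
    fun a => rfl
  rw [Finset.sum_congr rfl (fun a _ => h2 a), Finset.sum_congr rfl (fun b _ => h1 b)]
  simp [add_comm]

theorem u_kill (hF2 : StmtF2) (p q l : ℕ) :
    (odL (p + 1) q ++ evL (p + 1) q).Pairwise (fun i j =>
      cr (psum (p + 1) q) i (an (psum (p + 1) q) j (bv (psum (p + 1) q) (uconf p q l))) = 0) := by
  classical
  have hodd : ∀ (b : Fin q) (j : Fin (p + 1) ⊕ Fin q), Sum.inr b ≠ j →
      cr (psum (p + 1) q) (Sum.inr b) (an (psum (p + 1) q) j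
        (bv (psum (p + 1) q) (uconf p q l))) = 0 := by
    intro b j hne
    rw [an_bv, map_smul, cr_bv, dif_neg, smul_zero]
    intro h
    have h1 := h rfl
    have h2 : (uconf p q l).1 (Sum.inr b) - (Finsupp.single j 1 : _ →₀ ℕ) (Sum.inr b) = 0 := h1
    rw [u_inr, Finsupp.single_eq_of_ne hne] at h2
    omega
  rw [List.pairwise_append]
  refine ⟨?_, ?_, ?_⟩
  · unfold odL
    rw [List.pairwise_map]
    refine (List.pairwise_lt_finRange q).imp ?_
    intro b b' hbb
    exact hodd b _ (fun h => by
      have := Sum.inr_injective h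
      omega)
  · unfold evL
    rw [List.pairwise_map]
    refine (List.pairwise_lt_finRange (p + 1)).imp ?_
    intro a a' haa
    have h0 : (uconf p q l).1 (Sum.inl a') = 0 := by
      rw [u_inl, if_neg]
      intro h
      rw [h] at haa
      exact absurd haa (Fin.not_lt_zero a)
    rw [(hF2 _ _).2.2.2.1 _ _ h0, map_zero]
  · intro i hi j hj
    unfold odL at hi
    unfold evL at hj
    rw [List.mem_map] at hi hj
    obtain ⟨b, _, rfl⟩ := hi
    obtain ⟨a, _, rfl⟩ := hj
    exact hodd b _ (by simp)

end AuxT3

open AuxD3 AuxT3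

theorem T3_proof (hF2 : StmtF2) (hF3 : StmtF3) (hD1 : StmtD1) : StmtT3 := by
  classical
  intro p q r s l f LU' hnd hpar μ η
  obtain ⟨_, _, _, hHV, hHU⟩ := hD1 _ _ (psum (p + 1) q) (psum r s)
  have hg : parG (psum (p + 1) q) (psum r s) (uconf p q l, f) = 0 := by
    show parC (psum (p + 1) q) (uconf p q l) + psum r s f = 0
    rw [parC_u, hpar]
    exact CharTwo.add_self_eq_zero _
  have hmap : ∀ x ∈ HW2 (p + 1) q r s (q + l) (odL (p + 1) q ++ evL (p + 1) q) μ (f :: LU') η,
      cr (parG (psum (p + 1) q) (psum r s)) (uconf p q l, f) x ∈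
      HW2 (p + 1) q r s (q + l) (odL (p + 1) q ++ evL (p + 1) q) (μ + wtu p q l)
        (f :: LU') (η + Pi.single f 1) := by
    rintro x ⟨⟨hx1, hx2, hx3⟩, ⟨_, hx5, hx6⟩⟩
    have hm : cr (parG (psum (p + 1) q) (psum r s)) (uconf p q l, f) x ∈
        AAm (psum (p + 1) q) (psum r s) (q + l) := by
      rw [AAm_eq] at hx1 ⊢
      exact cr_spanP (parG (psum (p + 1) q) (psum r s))
        (fun g => degC (psum (p + 1) q) g.1 = q + l) (uconf p q l, f) (degC_u p q l) x hx1
    refine ⟨⟨hm, ?_, ?_⟩, ⟨hm, ?_, ?_⟩⟩
    · intro i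
      have h1 : TV (psum (p + 1) q) (J := Fin r ⊕ Fin s) i i
          (Finsupp.single (uconf p q l, f) 1) =
          ((uconf p q l).1 i : ℚ) • Finsupp.single (uconf p q l, f) 1 := by
        rw [TV_single, (hF2 _ _).1, Finsupp.mapDomain_smul, bv, Finsupp.mapDomain_single]
      have h2 := comm _ hF3 _ _ (hHV i i) _ hg _ h1 x
      have h3 : dG (parG (psum (p + 1) q) (psum r s)) (TV (psum (p + 1) q) i i) x
          = (μ i : ℚ) • x := hx2 i
      rw [h3, map_smul, ← add_smul] at h2
      refine h2.trans ?_
      congr 1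
      rw [Pi.add_apply, Int.cast_add]
      congr 1
      rcases i with a | b
      · rw [u_inl]
        simp only [wtu, Sum.elim_inl]
        split_ifs <;> simp
      · rw [u_inr]
        simp [wtu]
    · intro i j hij
      have h1 : TV (psum (p + 1) q) (J := Fin r ⊕ Fin s) i j
          (Finsupp.single (uconf p q l, f) 1) =
          (0 : ℚ) • Finsupp.single (uconf p q l, f) 1 := by
        have h0 := (u_kill hF2 p q l).sublist hij
        have h0' := List.rel_of_pairwise_cons h0 (List.mem_singleton.2 rfl)
        rw [TV_single, zero_smul]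
        show Finsupp.mapDomain _ (cr (psum (p + 1) q) i (an (psum (p + 1) q) j
          (bv (psum (p + 1) q) (uconf p q l)))) = 0
        rw [h0', Finsupp.mapDomain_zero]
      have h2 := comm _ hF3 _ _ (hHV i j) _ hg _ h1 x
      have h3 : dG (parG (psum (p + 1) q) (psum r s)) (TV (psum (p + 1) q) i j) x = 0 := hx3 i j hij
      rw [h3, map_zero, zero_smul, add_zero] at h2
      exact h2
    · intro c
      have h1 : TU (psum (p + 1) q) (psum r s) c c
          (Finsupp.single (uconf p q l, f) 1) =
          (if f = c then (1 : ℚ) else 0) • Finsupp.single (uconf p q l, f) 1 := by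
        have h2 : psum r s c + psum r s c = 0 := CharTwo.add_self_eq_zero _
        have h3 : ∀ b, eps 0 b = 1 := by
          intro b; unfold eps; rw [if_neg]; rintro ⟨h, _⟩; exact absurd h (by decide)
        by_cases e : f = c
        · rw [TU_single, if_pos (show (uconf p q l, f).2 = c from e), if_pos e, h2, h3, one_smul, e]
        · rw [TU_single, if_neg (show ¬ (uconf p q l, f).2 = c from e), if_neg e, zero_smul]
      have h2 := comm _ hF3 _ _ (hHU c c) _ hg _ h1 x
      have h3 : dG (parG (psum (p + 1) q) (psum r s)) (TU (psum (p + 1) q) (psum r s) c c) x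
          = (η c : ℚ) • x := hx5 c
      rw [h3, map_smul, ← add_smul] at h2
      refine h2.trans ?_
      congr 1
      rw [Pi.add_apply, Int.cast_add]
      congr 1
      by_cases e : f = c
      · subst e
        simp
      · rw [if_neg e, Pi.single_eq_of_ne (fun h => e h.symm)]
        simp
    · intro c d hcd
      have hd : f ≠ d := by
        rw [List.nodup_cons] at hnd
        intro e
        rw [← e] at hcd
        apply hnd.1
        rcases hcd with h | h
        · rename_i h
          exact h.subset (by simp)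
        · rename_i h
          exact h.subset (by simp)
      have h1 : TU (psum (p + 1) q) (psum r s) c d
          (Finsupp.single (uconf p q l, f) 1) =
          (0 : ℚ) • Finsupp.single (uconf p q l, f) 1 := by
        rw [TU_single, zero_smul]
        exact if_neg hd
      have h2 := comm _ hF3 _ _ (hHU c d) _ hg _ h1 x
      have h3 : dG (parG (psum (p + 1) q) (psum r s)) (TU (psum (p + 1) q) (psum r s) c d) x
          = 0 := hx6 c d hcd
      rw [h3, map_zero, zero_smul, add_zero] at h2
      exact h2
  refine ⟨LinearMap.restrict _ hmap, ?_⟩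
  intro x y hxy
  have h1 := congrArg Subtype.val hxy
  exact Subtype.ext ((hF2 _ _).2.1 _ hg h1)

end Pool.Agent.PLE
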