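import Pool.Agent.PLE.F34

/-!
Vanishing (task T4 of the PLE project, paper section 6).
-/

namespace Pool.Agent.PLE

namespace AuxT4

open AuxF34

variable {G : Type} (par : G → ZMod 2)

/-- an operator which is diagonal on the basis -/
theorem diag_apply (A : Module.End ℚ (Fock par)) (w : Conf par → ℚ)
    (hA : ∀ c, A (bv par c) = w c • bv par c) (x : Fock par) (c : Conf par) :
    A x c = w c * x c := by
  classical
  conv_lhs => rw [eq_sum_bv par x]
  rw [map_sum, Finsupp.finsetSum_apply]
  have h1 : ∀ d ∈ x.support, (A (x d • bv par d)) c = if d = c then w c * x c else 0 := by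
    intro d _
    rw [map_smul, hA]
    unfold bv
    rw [Finsupp.smul_apply, Finsupp.smul_apply, Finsupp.single_apply]
    split_ifs with h
    · subst h; simp [mul_comm]
    · simp
  rw [Finset.sum_congr rfl h1, Finset.sum_ite_eq']
  split_ifs with h
  · rfl
  · rw [Finsupp.notMem_support_iff.1 h, mul_zero]

/-- the support of elements of `A^m` -/
theorem AAm_support {I J : Type} (pI : I → ZMod 2) (pJ : J → ZMod 2) (m : ℕ) (x : AA pI pJ)
    (hx : x ∈ AAm pI pJ m) : ∀ c ∈ x.support, ∀ g ∈ c.1.support, degC pI g.1 = m := by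
  have h : AAm pI pJ m ≤ Finsupp.supported ℚ ℚ
      {c : Conf (parG pI pJ) | ∀ g ∈ c.1.support, degC pI g.1 = m} := by
    unfold AAm
    rw [Submodule.span_le]
    rintro _ ⟨c, hc, rfl⟩
    exact Finsupp.single_mem_supported _ _ hc
  intro c hc
  exact (Finsupp.mem_supported _ _).1 (h hx) hc

end AuxT4

open AuxF34 AuxT4

theorem T4_proof (hD3 : StmtD3) : StmtT4 := by
  classical
  intro p q r s m ν LV LU η hqm hν hη
  rw [eq_bot_iff]
  intro x hx
  rw [Submodule.mem_bot]
  obtain ⟨⟨hxm, hw, -⟩, ⟨-, hu, -⟩⟩ := hx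
  obtain ⟨d1, d2, -⟩ := hD3 (Fin p ⊕ Fin q) (Fin r ⊕ Fin s) (psum p q) (psum r s)
  have hsup : ∀ c ∈ x.support, c = vacc _ := by
    intro c hc
    have hdeg := AAm_support _ _ m x hxm c hc
    by_contra hne
    have h1 : c.1.support.Nonempty := by
      rw [Finset.nonempty_iff_ne_empty, Ne, Finsupp.support_eq_empty]
      intro h0
      exact hne (Subtype.ext h0)
    obtain ⟨g, hg⟩ := h1
    have hKa : ∀ a : Fin p, g.1.1 (Sum.inl a) = 0 := by
      intro a
      have e1 := DFunLike.congr_fun (hw (Sum.inl a)) c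
      rw [diag_apply _ _ _ (d1 (Sum.inl a)) x c, Finsupp.smul_apply] at e1
      have e2 : ((wtS q ν (Sum.inl a) : ℤ) : ℚ) = 0 := by
        unfold wtS
        rw [Sum.elim_inl, Nat.sub_eq_zero_of_le (hν a)]
        simp
      rw [e2, zero_smul] at e1
      have e3 := (mul_eq_zero.1 e1).resolve_right (Finsupp.mem_support_iff.1 hc)
      unfold Finsupp.sum at e3
      rw [Finset.sum_eq_zero_iff_of_nonneg (fun i _ => by positivity)] at e3
      have e4 := e3 g hg
      rcases mul_eq_zero.1 e4 with h | h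
      · exact absurd (by exact_mod_cast h) (Finsupp.mem_support_iff.1 hg)
      · exact_mod_cast h
    have hd := hdeg g hg
    have h2 : degC (psum p q) g.1 ≤ q := by
      unfold degC
      rw [Finsupp.sum_fintype _ _ (fun _ => rfl), Fintype.sum_sum_type]
      have h3 : ∑ a : Fin p, g.1.1 (Sum.inl a) = 0 := Finset.sum_eq_zero fun a _ => hKa a
      rw [h3, zero_add]
      calc ∑ b : Fin q, g.1.1 (Sum.inr b) ≤ ∑ _b : Fin q, 1 :=
            Finset.sum_le_sum fun b _ => g.1.2 _ rfl
        _ = q := by simp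
    omega
  obtain ⟨d, hd⟩ := Function.ne_iff.1 hη
  refine Finsupp.ext fun c => ?_
  by_contra hne
  have hc : c ∈ x.support := Finsupp.mem_support_iff.2 hne
  have h0 := hsup c hc
  have e1 := DFunLike.congr_fun (hu d) c
  rw [diag_apply _ _ _ (d2 d) x c, Finsupp.smul_apply] at e1
  rw [h0] at e1 hne
  have e3 : ((η d : ℤ) : ℚ) * x (vacc (parG (psum p q) (psum r s))) = 0 := by
    rw [← smul_eq_mul, ← e1]
    simp [vacc]
  rcases mul_eq_zero.1 e3 with h | h
  · exact hd (by exact_mod_cast h)
  · exact hne h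

end Pool.Agent.PLE
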