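import Pool.Agent.PLE.Stmts

/-!
Task T5: the classical highest weight space as the space `HW2` (paper section 7).
-/

namespace Pool.Agent.PLE

namespace AuxT5

open MvPolynomial

section

variable (p q r s : ℕ)

/-- The configuration with values `k` on the even letters. -/
noncomputable def Kof (k : Fin p → ℕ) : Conf (psum p q) :=
  ⟨Finsupp.equivFunOnFinite.symm (Sum.elim k (fun _ => 0)), by
    intro g hg
    rcases g with a | b
    · simp [psum] at hg
    · simp⟩

/-- The generator belonging to a variable. -/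
noncomputable def gen (g : Vars p r) : GG (psum p q) (J := Fin r ⊕ Fin s) :=
  (Kof p q g.1, Sum.inl g.2)

@[simp] lemma Kof_inl (k : Fin p → ℕ) (a : Fin p) : (Kof p q k).1 (Sum.inl a) = k a := by
  simp [Kof]

@[simp] lemma Kof_inr (k : Fin p → ℕ) (b : Fin q) : (Kof p q k).1 (Sum.inr b) = 0 := by
  simp [Kof]

lemma gen_inj : Function.Injective (gen p q r s) := by
  rintro ⟨k, f⟩ ⟨k', f'⟩ h
  simp only [gen, Prod.mk.injEq, Sum.inl.injEq] at h
  obtain ⟨h1, h2⟩ := h
  refine Prod.ext ?_ h2
  funext a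
  have := congrArg (fun K : Conf (psum p q) => K.1 (Sum.inl a)) h1
  simpa using this

lemma parC_Kof (k : Fin p → ℕ) : parC (psum p q) (Kof p q k) = 0 := by
  unfold parC
  rw [Finsupp.sum]
  refine Finset.sum_eq_zero fun i _ => ?_
  rcases i with a | b
  · simp [psum]
  · simp

lemma degC_Kof (k : Fin p → ℕ) : degC (psum p q) (Kof p q k) = ∑ a, k a := by
  unfold degC
  rw [Finsupp.sum_fintype _ _ (fun _ => rfl)]
  simp

lemma parG_gen (g : Vars p r) : parG (psum p q) (psum r s) (gen p q r s g) = 0 := by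
  simp only [parG, gen, parC_Kof]
  simp [psum]

/-- The configuration of a monomial. -/
noncomputable def cm (d : Vars p r →₀ ℕ) : Conf (parG (psum p q) (psum r s)) :=
  ⟨d.mapDomain (gen p q r s), by
    intro g hg
    rw [Finsupp.mapDomain_of_notMem_range]
    · exact Nat.zero_le _
    · rintro ⟨g', rfl⟩
      rw [parG_gen] at hg
      exact absurd hg (by decide)⟩

lemma cm_inj : Function.Injective (cm p q r s) := by
  intro d d' h
  have := congrArg Subtype.val h
  exact Finsupp.mapDomain_injective (gen_inj p q r s) this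

/-- The linear map from polynomials to the double Fock space. -/
noncomputable def Phi : Poly p r →ₗ[ℚ] AA (psum p q) (psum r s) :=
  (Finsupp.lmapDomain ℚ ℚ (cm p q r s)) ∘ₗ (basisMonomials (Vars p r) ℚ).repr.toLinearMap

lemma Phi_monomial (d : Vars p r →₀ ℕ) (a : ℚ) :
    Phi p q r s (monomial d a) = Finsupp.single (cm p q r s d) a := by
  unfold Phi
  have h : (basisMonomials (Vars p r) ℚ).repr (monomial d a) = Finsupp.single d a := by
    have h1 : (monomial d a : Poly p r) = a • basisMonomials (Vars p r) ℚ d := by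
      rw [coe_basisMonomials, smul_monomial, smul_eq_mul, mul_one]
    rw [h1, map_smul, Module.Basis.repr_self]
    simp
  simp only [LinearMap.comp_apply, LinearEquiv.coe_coe, h]
  simp

lemma Phi_inj : Function.Injective (Phi p q r s) := by
  unfold Phi
  rw [LinearMap.coe_comp]
  refine Function.Injective.comp ?_ (LinearEquiv.injective _)
  exact Finsupp.mapDomain_injective (cm_inj p q r s)

lemma Phi_def (x : Poly p r) :
    Phi p q r s x = Finsupp.mapDomain (cm p q r s) (AddMonoidAlgebra.coeff x) := rfl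

lemma Phi_apply_cm (x : Poly p r) (d : Vars p r →₀ ℕ) :
    Phi p q r s x (cm p q r s d) = AddMonoidAlgebra.coeff x d := by
  rw [Phi_def, Finsupp.mapDomain_apply (cm_inj p q r s)]

lemma mem_support_Phi (x : Poly p r) (c : Conf (parG (psum p q) (psum r s))) :
    c ∈ (Phi p q r s x).support ↔ ∃ d ∈ x.support, cm p q r s d = c := by
  classical
  rw [Phi_def, Finsupp.mapDomain_support_of_injective (cm_inj p q r s)]
  simp [MvPolynomial.support]

lemma sgn_gen (g : Vars p r) (c) : sgn (parG (psum p q) (psum r s)) (gen p q r s g) c = 1 := by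
  unfold sgn
  rw [if_neg]
  rw [parG_gen]
  decide

lemma cr_gen_bv (g : Vars p r) (d : Vars p r →₀ ℕ) :
    cr (parG (psum p q) (psum r s)) (gen p q r s g) (bv _ (cm p q r s d)) =
      bv _ (cm p q r s (d + Finsupp.single g 1)) := by
  classical
  have h0 : parG (psum p q) (psum r s) (gen p q r s g) = 1 →
      (cm p q r s d).1 (gen p q r s g) = 0 := by
    intro h
    rw [parG_gen] at h
    exact absurd h (by decide)
  unfold cr bv
  rw [Finsupp.linearCombination_single, one_smul, dif_pos h0, sgn_gen, one_smul]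
  congr 1
  apply Subtype.ext
  simp only [addc, cm]
  rw [Finsupp.mapDomain_add, Finsupp.mapDomain_single]

lemma Phi_mul_X (g : Vars p r) (x : Poly p r) :
    Phi p q r s (x * X g) = cr (parG (psum p q) (psum r s)) (gen p q r s g) (Phi p q r s x) := by
  induction x using MvPolynomial.induction_on' with
  | monomial d a =>
    rw [X, monomial_mul, mul_one, Phi_monomial, Phi_monomial]
    have h1 : ∀ c : Conf (parG (psum p q) (psum r s)), Finsupp.single c a = a • bv _ c := by
      intro c; simp [bv]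
    rw [h1, h1, map_smul, cr_gen_bv]
  | add x y hx hy => rw [add_mul, map_add, map_add, map_add, hx, hy]

lemma Phi_one : Phi p q r s 1 = vac _ := by
  rw [one_def, Phi_monomial]
  unfold vac bv
  have h : cm p q r s 0 = vacc _ := by
    apply Subtype.ext
    simp [cm, vacc]
  rw [h]

lemma inter (hF3 : StmtF3) (D : Derivation ℚ (Poly p r) (Poly p r))
    (T : Module.End ℚ (GG (psum p q) (J := Fin r ⊕ Fin s) →₀ ℚ))
    (hT : Homog (parG (psum p q) (psum r s)) T 0)
    (h : ∀ g x, Phi p q r s (x * D (X g)) =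
      crv (parG (psum p q) (psum r s)) (T (Finsupp.single (gen p q r s g) 1)) (Phi p q r s x))
    (x : Poly p r) :
    Phi p q r s (D x) = dG (parG (psum p q) (psum r s)) T (Phi p q r s x) := by
  obtain ⟨_, _, h0, h1, _, _⟩ := hF3 _ (parG (psum p q) (psum r s))
  induction x using MvPolynomial.induction_on with
  | C a =>
    have e1 : D (C a) = 0 := by
      rw [← MvPolynomial.algebraMap_eq]; exact D.map_algebraMap a
    have e2 : Phi p q r s (C a) = a • vac _ := by
      rw [← Phi_one, ← map_smul]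
      congr 1
      rw [smul_eq_C_mul, mul_one]
    rw [e1, e2, map_smul, h0, map_zero, smul_zero]
  | add x y hx hy => rw [map_add, map_add, map_add, map_add, hx, hy]
  | mul_X x g hx =>
    have e1 := congrArg (fun f => f (Phi p q r s x)) (h1 T 0 hT (gen p q r s g))
    simp only [Module.End.mul_apply, LinearMap.add_apply, LinearMap.smul_apply] at e1
    rw [Derivation.leibniz, smul_eq_mul, smul_eq_mul, map_add, h, mul_comm (X g), Phi_mul_X, hx,
      Phi_mul_X, e1]
    have e2 : eps 0 (parG (psum p q) (psum r s) (gen p q r s g)) = 1 := by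
      unfold eps
      rw [if_neg]
      rintro ⟨h, _⟩
      exact absurd h (by decide)
    rw [e2, one_smul, add_comm]


lemma eps_zero (a : ZMod 2) : eps 0 a = 1 := by
  unfold eps
  rw [if_neg]
  rintro ⟨h, _⟩
  exact absurd h (by decide)

lemma sgn_inl (a : Fin p) (c) : sgn (psum p q) (Sum.inl a) c = 1 := by
  unfold sgn
  rw [if_neg]
  simp [psum]

lemma an_inl (b : Fin p) (k : Fin p → ℕ) :
    an (psum p q) (Sum.inl b) (bv _ (Kof p q k)) =
      (k b : ℚ) • bv _ (Kof p q (k - Pi.single b 1)) := by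
  unfold an bv
  rw [Finsupp.linearCombination_single, one_smul, sgn_inl, Kof_inl, mul_one]
  have h : subc (psum p q) (Sum.inl b) (Kof p q k) = Kof p q (k - Pi.single b 1) := by
    apply Subtype.ext
    ext i
    rcases i with a | a
    · simp only [subc, Finsupp.coe_tsub, Pi.sub_apply, Kof_inl]
      by_cases hab : b = a
      · subst hab; simp
      · have h1 : (Sum.inl b : Fin p ⊕ Fin q) ≠ Sum.inl a := by simpa using hab
        rw [Finsupp.single_eq_of_ne' h1, Pi.single_eq_of_ne' hab]
    · simp only [subc, Finsupp.coe_tsub, Pi.sub_apply, Kof_inr]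
      simp
  rw [h]

lemma cr_inl (a : Fin p) (k : Fin p → ℕ) :
    cr (psum p q) (Sum.inl a) (bv _ (Kof p q k)) = bv _ (Kof p q (k + Pi.single a 1)) := by
  have h0 : psum p q (Sum.inl a) = 1 → (Kof p q k).1 (Sum.inl a) = 0 := by
    intro h
    exact absurd h (by simp [psum])
  unfold cr bv
  rw [Finsupp.linearCombination_single, one_smul, dif_pos h0, sgn_inl, one_smul]
  have h : addc (psum p q) (Sum.inl a) (Kof p q k) h0 = Kof p q (k + Pi.single a 1) := by
    apply Subtype.ext
    ext i
    rcases i with b | b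
    · simp only [addc, Finsupp.coe_add, Pi.add_apply, Kof_inl]
      by_cases hab : a = b
      · subst hab; simp
      · have h1 : (Sum.inl a : Fin p ⊕ Fin q) ≠ Sum.inl b := by simpa using hab
        rw [Finsupp.single_eq_of_ne' h1, Pi.single_eq_of_ne' hab]
    · simp only [addc, Finsupp.coe_add, Pi.add_apply, Kof_inr]
      simp
  rw [h]

lemma TV_gen (a b : Fin p) (g : Vars p r) :
    TV (psum p q) (J := Fin r ⊕ Fin s) (Sum.inl a) (Sum.inl b)
      (Finsupp.single (gen p q r s g) 1) =
      (g.1 b : ℚ) • Finsupp.single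
        (gen p q r s (g.1 - Pi.single b 1 + Pi.single a 1, g.2)) 1 := by
  unfold TV
  rw [Finsupp.linearCombination_single, one_smul]
  simp only [gen]
  rw [an_inl, map_smul, cr_inl, bv, Finsupp.mapDomain_smul, Finsupp.mapDomain_single]

lemma TU_gen (c d : Fin r) (g : Vars p r) :
    TU (psum p q) (psum r s) (Sum.inl c) (Sum.inl d)
      (Finsupp.single (gen p q r s g) 1) =
      if g.2 = d then Finsupp.single (gen p q r s (g.1, c)) 1 else 0 := by
  unfold TU
  rw [Finsupp.linearCombination_single, one_smul]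
  simp only [gen, Sum.inl.injEq]
  have h : psum r s (Sum.inl c) + psum r s (Sum.inl d) = 0 := by simp [psum]
  rw [h, eps_zero]

lemma Phi_eV (hF3 : StmtF3) (hD1 : StmtD1) (a b : Fin p) (x : Poly p r) :
    Phi p q r s (eV p r a b x) =
      opV (psum p q) (psum r s) (Sum.inl a) (Sum.inl b) (Phi p q r s x) := by
  unfold opV
  refine inter p q r s hF3 _ _ ?_ ?_ x
  · have := (hD1 _ _ (psum p q) (psum r s)).2.2.2.1 (Sum.inl a) (Sum.inl b)
    have h : psum p q (Sum.inl a) + psum p q (Sum.inl b) = 0 := by simp [psum]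
    rwa [h] at this
  · intro g x
    rw [TV_gen, map_smul, eV, mkDerivation_X, mul_smul_comm, map_smul, Phi_mul_X]
    unfold crv
    rw [Finsupp.linearCombination_single, one_smul, LinearMap.smul_apply]

lemma Phi_eU (hF3 : StmtF3) (hD1 : StmtD1) (c d : Fin r) (x : Poly p r) :
    Phi p q r s (eU p r c d x) =
      opU (psum p q) (psum r s) (Sum.inl c) (Sum.inl d) (Phi p q r s x) := by
  unfold opU
  refine inter p q r s hF3 _ _ ?_ ?_ x
  · have := (hD1 _ _ (psum p q) (psum r s)).2.2.2.2 (Sum.inl c) (Sum.inl d)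
    have h : psum r s (Sum.inl c) + psum r s (Sum.inl d) = 0 := by simp [psum]
    rwa [h] at this
  · intro g x
    rw [TU_gen, eU, mkDerivation_X]
    split_ifs with h
    · rw [Phi_mul_X]
      unfold crv
      rw [Finsupp.linearCombination_single, one_smul]
    · simp

/-- diagonal operators -/
lemma diag_apply {C : Type} (F : Module.End ℚ (C →₀ ℚ)) (w : C → ℚ)
    (hF : ∀ c, F (Finsupp.single c 1) = w c • Finsupp.single c 1) (y : C →₀ ℚ) (c : C) :
    F y c = w c * y c := by
  classical
  induction y using Finsupp.induction_linear with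
  | zero => simp
  | add x y hx hy => rw [map_add, Finsupp.add_apply, hx, hy, Finsupp.add_apply, mul_add]
  | single d a =>
    have h : (Finsupp.single d a : C →₀ ℚ) = a • Finsupp.single d 1 := by simp
    rw [h, map_smul, hF]
    simp only [Finsupp.smul_apply, smul_eq_mul]
    by_cases hd : d = c
    · subst hd; simp; ring
    · rw [Finsupp.single_eq_of_ne' hd]; simp

lemma mem_range_gen (g : GG (psum p q) (J := Fin r ⊕ Fin s)) (h1 : ∀ b, g.1.1 (Sum.inr b) = 0)
    (h2 : ∀ f, g.2 ≠ Sum.inr f) : g ∈ Set.range (gen p q r s) := by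
  obtain ⟨K, f⟩ := g
  rcases f with f | f
  · refine ⟨(fun a => K.1 (Sum.inl a), f), ?_⟩
    refine Prod.ext ?_ rfl
    apply Subtype.ext
    ext i
    rcases i with a | b
    · exact Kof_inl _ _ _ _
    · rw [h1]; exact Kof_inr _ _ _ _
  · exact absurd rfl (h2 f)

lemma exists_cm (c : Conf (parG (psum p q) (psum r s)))
    (h : ∀ g ∈ c.1.support, g ∈ Set.range (gen p q r s)) : ∃ d, cm p q r s d = c :=
  ⟨Finsupp.comapDomain _ c.1 (gen_inj p q r s).injOn,
    Subtype.ext (Finsupp.mapDomain_comapDomain _ (gen_inj p q r s) _ fun g hg => h g hg)⟩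

lemma mem_range_Phi (y : AA (psum p q) (psum r s))
    (h : ∀ c ∈ y.support, ∃ d, cm p q r s d = c) : ∃ x, Phi p q r s x = y := by
  have : y ∈ LinearMap.range (Phi p q r s) := by
    rw [← Finsupp.sum_single y]
    refine Submodule.sum_mem _ fun c hc => ?_
    obtain ⟨d, hd⟩ := h c hc
    exact ⟨monomial d (y c), by rw [Phi_monomial, hd]⟩
  exact this

lemma support_cm (d : Vars p r →₀ ℕ) (g : GG (psum p q) (J := Fin r ⊕ Fin s)) :
    g ∈ (cm p q r s d).1.support ↔ ∃ v ∈ d.support, gen p q r s v = g := by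
  classical
  unfold cm
  simp only
  rw [Finsupp.mapDomain_support_of_injective (gen_inj p q r s)]
  simp

end

section W

variable {I J : Type} (pI : I → ZMod 2) (pJ : J → ZMod 2)

lemma opV_zero_iff (hD3 : StmtD3) (i : I) (y : AA pI pJ) :
    opV pI pJ i i y = 0 ↔ ∀ c ∈ y.support, ∀ g ∈ c.1.support, g.1.1 i = 0 := by
  classical
  have hd := (hD3 I J pI pJ).1 i
  have hw := fun c => diag_apply (opV pI pJ i i)
    (fun c : Conf (parG pI pJ) => c.1.sum fun g n => (n : ℚ) * (g.1.1 i : ℚ)) hd y c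
  have hz : ∀ c : Conf (parG pI pJ), (c.1.sum fun g n => (n : ℚ) * (g.1.1 i : ℚ)) = 0 ↔
      ∀ g ∈ c.1.support, g.1.1 i = 0 := by
    intro c
    unfold Finsupp.sum
    rw [Finset.sum_eq_zero_iff_of_nonneg (fun g _ => by positivity)]
    refine forall₂_congr fun g hg => ?_
    have : (c.1 g : ℚ) ≠ 0 := by exact_mod_cast Finsupp.mem_support_iff.1 hg
    rw [mul_eq_zero, or_iff_right this]
    exact Nat.cast_eq_zero
  constructor
  · intro h c hc
    have h1 := hw c
    rw [h, Finsupp.zero_apply] at h1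
    have h2 := (mul_eq_zero.1 h1.symm).resolve_right (Finsupp.mem_support_iff.1 hc)
    exact (hz c).1 h2
  · intro h
    ext c
    rw [hw c, Finsupp.zero_apply]
    by_cases hc : c ∈ y.support
    · rw [(hz c).2 (h c hc), zero_mul]
    · rw [Finsupp.notMem_support_iff.1 hc, mul_zero]

lemma opU_zero_iff (hD3 : StmtD3) (f : J) (y : AA pI pJ) :
    opU pI pJ f f y = 0 ↔ ∀ c ∈ y.support, ∀ g ∈ c.1.support, g.2 ≠ f := by
  classical
  have hd := (hD3 I J pI pJ).2.1 f
  have hw := fun c => diag_apply (opU pI pJ f f)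
    (fun c : Conf (parG pI pJ) => c.1.sum fun g n => if g.2 = f then (n : ℚ) else 0)
    (fun c => hd c) y c
  have hz : ∀ c : Conf (parG pI pJ), (c.1.sum fun g n => if g.2 = f then (n : ℚ) else 0) = 0 ↔
      ∀ g ∈ c.1.support, g.2 ≠ f := by
    intro c
    unfold Finsupp.sum
    rw [Finset.sum_eq_zero_iff_of_nonneg (fun g _ => by positivity)]
    refine forall₂_congr fun g hg => ?_
    have : (c.1 g : ℚ) ≠ 0 := by exact_mod_cast Finsupp.mem_support_iff.1 hg
    show (if g.2 = f then (c.1 g : ℚ) else 0) = 0 ↔ g.2 ≠ f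
    split_ifs with h
    · simp only [h, ne_eq, not_true_eq_false, iff_false]
      exact this
    · simp [h]
  constructor
  · intro h c hc
    have h1 := hw c
    rw [h, Finsupp.zero_apply] at h1
    have h2 := (mul_eq_zero.1 h1.symm).resolve_right (Finsupp.mem_support_iff.1 hc)
    exact (hz c).1 h2
  · intro h
    ext c
    rw [hw c, Finsupp.zero_apply]
    by_cases hc : c ∈ y.support
    · rw [(hz c).2 (h c hc), zero_mul]
    · rw [Finsupp.notMem_support_iff.1 hc, mul_zero]

lemma mem_AAm (m : ℕ) (y : AA pI pJ) :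
    y ∈ AAm pI pJ m ↔ ∀ c ∈ y.support, ∀ g ∈ c.1.support, degC pI g.1 = m := by
  have h : AAm pI pJ m = Finsupp.supported ℚ ℚ
      {c : Conf (parG pI pJ) | ∀ g ∈ c.1.support, degC pI g.1 = m} := by
    rw [Finsupp.supported_eq_span_single]
    unfold AAm
    congr 1
    ext x
    constructor
    · rintro ⟨c, hc, rfl⟩
      exact ⟨c, hc, rfl⟩
    · rintro ⟨c, hc, rfl⟩
      exact ⟨c, hc, rfl⟩
  rw [h, Finsupp.mem_supported]
  rfl

end W

section L

variable (p q : ℕ)

lemma pairwise_ev_od : (evL p q ++ odL p q).Pairwise (fun i j =>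
    (∃ a b, a < b ∧ i = Sum.inl a ∧ j = Sum.inl b) ∨ (∃ w, j = Sum.inr w ∧ i ≠ Sum.inr w)) := by
  rw [List.pairwise_append]
  refine ⟨?_, ?_, ?_⟩
  · unfold evL
    rw [List.pairwise_map]
    refine List.Pairwise.imp ?_ (List.sortedLT_finRange p).pairwise
    intro a b hab
    exact Or.inl ⟨a, b, hab, rfl, rfl⟩
  · unfold odL
    rw [List.pairwise_map]
    refine List.Pairwise.imp ?_ (List.sortedLT_finRange q).pairwise
    intro a b hab
    refine Or.inr ⟨b, rfl, ?_⟩
    intro h
    exact hab.ne (Sum.inr_injective h)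
  · intro i hi j hj
    simp only [evL, odL, List.mem_map, List.mem_finRange, true_and] at hi hj
    obtain ⟨a, rfl⟩ := hi
    obtain ⟨b, rfl⟩ := hj
    exact Or.inr ⟨b, rfl, by simp⟩

lemma sublist_ev_od {a b : Fin p} (hab : a < b) :
    [(Sum.inl a : Fin p ⊕ Fin q), Sum.inl b].Sublist (evL p q ++ odL p q) := by
  have h1 : [a, b].Sublist (List.finRange p) := by
    refine List.sublist_of_subperm_of_pairwise (r := (· ≤ ·)) ?_ ?_ ?_
    · refine List.subperm_of_subset ?_ ?_
      · simp [hab.ne]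
      · intro x _; simp
    · simp [hab.le]
    · exact (List.sortedLT_finRange p).pairwise.imp le_of_lt
  exact (h1.map Sum.inl).trans (List.sublist_append_left _ _)

end L

section Main

variable (p q r s m : ℕ) (ν : Fin p → ℕ) (lam : Fin r → ℕ)

lemma Phi_mem_AAm_iff (x : Poly p r) :
    Phi p q r s x ∈ AAm (psum p q) (psum r s) m ↔
      x ∈ MvPolynomial.supported ℚ {g : Vars p r | ∑ a, g.1 a = m} := by
  rw [mem_AAm, MvPolynomial.mem_supported]
  constructor
  · intro h v hv
    rw [Finset.mem_coe, MvPolynomial.mem_vars_iff_mem_support] at hv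
    obtain ⟨d, hd, hv⟩ := hv
    have := h (cm p q r s d) ((mem_support_Phi p q r s x _).2 ⟨d, hd, rfl⟩) (gen p q r s v)
      ((support_cm p q r s d _).2 ⟨v, hv, rfl⟩)
    rw [gen, degC_Kof] at this
    exact this
  · intro h c hc g hg
    obtain ⟨d, hd, rfl⟩ := (mem_support_Phi p q r s x _).1 hc
    obtain ⟨v, hv, rfl⟩ := (support_cm p q r s d _).1 hg
    rw [gen, degC_Kof]
    exact h (Finset.mem_coe.2 ((MvPolynomial.mem_vars_iff_mem_support v).2 ⟨d, hd, hv⟩))

lemma opV_inr_Phi (hD3 : StmtD3) (x : Poly p r) (b : Fin q) :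
    opV (psum p q) (psum r s) (Sum.inr b) (Sum.inr b) (Phi p q r s x) = 0 := by
  rw [opV_zero_iff _ _ hD3]
  intro c hc g hg
  obtain ⟨d, hd, rfl⟩ := (mem_support_Phi p q r s x _).1 hc
  obtain ⟨v, hv, rfl⟩ := (support_cm p q r s d _).1 hg
  exact Kof_inr _ _ _ _

lemma opU_inr_Phi (hD3 : StmtD3) (x : Poly p r) (b : Fin s) :
    opU (psum p q) (psum r s) (Sum.inr b) (Sum.inr b) (Phi p q r s x) = 0 := by
  rw [opU_zero_iff _ _ hD3]
  intro c hc g hg
  obtain ⟨d, hd, rfl⟩ := (mem_support_Phi p q r s x _).1 hc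
  obtain ⟨v, hv, rfl⟩ := (support_cm p q r s d _).1 hg
  simp [gen]

theorem map_HWS (hF3 : StmtF3) (hD1 : StmtD1) (hD3 : StmtD3) :
    (HWS p r m ν lam).map (Phi p q r s) = HW2 p q r s m (evL p q ++ odL p q) (wtE q ν)
      (evL r s ++ odL r s) (wtE s lam) := by
  obtain ⟨-, -, hNV, hNU, -, -⟩ := hD3 _ _ (psum p q) (psum r s)
  ext y
  rw [Submodule.mem_map]
  constructor
  · rintro ⟨x, hx, rfl⟩
    rw [mem_HWS] at hx
    obtain ⟨h1, h2, h3, h4, h5⟩ := hx
    have hA := (Phi_mem_AAm_iff p q r s m x).2 h1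
    refine ⟨⟨hA, ?_, ?_⟩, ⟨hA, ?_, ?_⟩⟩
    · rintro (a | b)
      · rw [← Phi_eV p q r s hF3 hD1, h2, map_smul]
        simp [wtE]
      · rw [opV_inr_Phi p q r s hD3]
        simp [wtE]
    · intro i j hij
      rcases List.pairwise_iff_forall_sublist.1 (pairwise_ev_od p q) hij with
        ⟨a, b, hab, rfl, rfl⟩ | ⟨w, rfl, hw⟩
      · rw [← Phi_eV p q r s hF3 hD1, h3 a b hab, map_zero]
      · exact hNV _ _ hw.symm _ trivial (opV_inr_Phi p q r s hD3 x w)
    · rintro (a | b)
      · rw [← Phi_eU p q r s hF3 hD1, h4, map_smul]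
        simp [wtE]
      · rw [opU_inr_Phi p q r s hD3]
        simp [wtE]
    · intro i j hij
      rcases List.pairwise_iff_forall_sublist.1 (pairwise_ev_od r s) hij with
        ⟨a, b, hab, rfl, rfl⟩ | ⟨w, rfl, hw⟩
      · rw [← Phi_eU p q r s hF3 hD1, h5 a b hab, map_zero]
      · exact hNU _ _ hw.symm _ trivial (opU_inr_Phi p q r s hD3 x w)
  · rintro ⟨⟨hA, h2, h3⟩, ⟨-, h4, h5⟩⟩
    have hV : ∀ b, ∀ c ∈ y.support, ∀ g ∈ c.1.support, g.1.1 (Sum.inr b) = 0 := by
      intro b
      rw [← opV_zero_iff _ _ hD3, h2]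
      simp [wtE]
    have hU : ∀ b, ∀ c ∈ y.support, ∀ g ∈ c.1.support, g.2 ≠ (Sum.inr b) := by
      intro b
      rw [← opU_zero_iff _ _ hD3, h4]
      simp [wtE]
    obtain ⟨x, rfl⟩ := mem_range_Phi p q r s y (fun c hc => exists_cm p q r s c
      (fun g hg => mem_range_gen p q r s g (fun b => hV b c hc g hg) (fun b => hU b c hc g hg)))
    refine ⟨x, ?_, rfl⟩
    rw [mem_HWS]
    refine ⟨(Phi_mem_AAm_iff p q r s m x).1 hA, ?_, ?_, ?_, ?_⟩
    · intro a
      apply Phi_inj p q r s
      rw [Phi_eV p q r s hF3 hD1, h2, map_smul]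
      simp [wtE]
    · intro a b hab
      apply Phi_inj p q r s
      rw [Phi_eV p q r s hF3 hD1, h3 _ _ (sublist_ev_od p q hab), map_zero]
    · intro a
      apply Phi_inj p q r s
      rw [Phi_eU p q r s hF3 hD1, h4, map_smul]
      simp [wtE]
    · intro a b hab
      apply Phi_inj p q r s
      rw [Phi_eU p q r s hF3 hD1, h5 _ _ (sublist_ev_od r s hab), map_zero]

end Main

end AuxT5

open AuxT5 in
/-- Paper section 7: the classical highest weight space. -/
theorem T5_proof (hF3 : StmtF3) (hD1 : StmtD1) (hD3 : StmtD3) : StmtT5 := by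
  intro p q r s m ν lam
  exact ⟨(Submodule.equivMapOfInjective (Phi p q r s) (Phi_inj p q r s) (HWS p r m ν lam)).trans
    (LinearEquiv.ofEq _ _ (map_HWS p q r s m ν lam hF3 hD1 hD3))⟩

end Pool.Agent.PLE
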