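import Pool.Agent.PLE.Stmts

/-!
Task T6: finite dimension of the highest weight spaces.
-/

namespace Pool.Agent.PLE

namespace AuxT6

open MvPolynomial

variable {p r : ℕ}

theorem coeff_eU (c : Fin r) (x : Poly p r) (e : Vars p r →₀ ℕ) :
    coeff e (eU p r c c x) =
      ((e.sum fun g n => if g.2 = c then n else 0 : ℕ) : ℚ) * coeff e x := by
  classical
  induction x using MvPolynomial.induction_on' with
  | monomial s a =>
    have h1 : eU p r c c (monomial s a) =
        ((s.sum fun g n => if g.2 = c then n else 0 : ℕ) : ℚ) • monomial s a := by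
      rw [eU, mkDerivation_monomial, Finsupp.sum, Finsupp.sum, Nat.cast_sum, Finset.sum_smul,
        Finset.smul_sum]
      refine Finset.sum_congr rfl fun g hg => ?_
      by_cases hgc : g.2 = c
      · have hX : (X (g.1, c) : Poly p r) = X g := by rw [← hgc]
        rw [if_pos hgc, if_pos hgc, hX]
        have hle : Finsupp.single g 1 ≤ s := by
          rw [Finsupp.single_le_iff]
          exact Nat.one_le_iff_ne_zero.2 (Finsupp.mem_support_iff.1 hg)
        rw [smul_eq_mul, X, monomial_mul, tsub_add_cancel_of_le hle, smul_monomial, smul_monomial]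
        simp [mul_comm]
      · rw [if_neg hgc, if_neg hgc]
        simp
    rw [h1, coeff_smul, smul_eq_mul, coeff_monomial]
    by_cases hse : s = e
    · subst hse; rfl
    · simp [hse]
  | add f g hf hg =>
    rw [map_add, coeff_add, hf, hg, coeff_add]
    ring

theorem finite_deg (m : ℕ) : {g : Vars p r | ∑ a, g.1 a = m}.Finite := by
  have h1 : (Set.Iic (fun _ : Fin p => m)).Finite := Set.finite_Iic _
  refine (h1.prod (Set.finite_univ (α := Fin r))).subset ?_
  rintro ⟨k, f⟩ hk
  refine ⟨?_, trivial⟩
  intro a
  have hk' : ∑ a, k a = m := hk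
  show k a ≤ m
  rw [← hk']
  exact Finset.single_le_sum (fun _ _ => Nat.zero_le _) (Finset.mem_univ a)

end AuxT6

open AuxT6 MvPolynomial in
theorem T6_proof : StmtT6 := by
  classical
  intro p r m ν lam
  set T : Finset (Vars p r) := (finite_deg (p := p) (r := r) m).toFinset with hT
  set b : Vars p r →₀ ℕ := ∑ g ∈ T, Finsupp.single g (∑ c, lam c) with hb
  have hE : (Set.Iic b).Finite := Set.finite_Iic b
  have hle : HWS p r m ν lam ≤ Submodule.span ℚ ((fun e => (monomial e (1 : ℚ) : Poly p r)) '' Set.Iic b) := by
    intro x hx
    obtain ⟨h1, -, -, h4, -⟩ := mem_HWS.1 hx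
    rw [x.as_sum]
    refine Submodule.sum_mem _ fun e he => ?_
    have hmem : e ∈ Set.Iic b := by
      show e ≤ b
      have hco : coeff e x ≠ 0 := mem_support_iff.1 he
      intro g
      by_cases hg : g ∈ T
      · have hbg : b g = ∑ c, lam c := by
          rw [hb, Finsupp.finsetSum_apply, Finset.sum_eq_single g]
          · simp
          · intro g' _ hne
            simp [hne]
          · intro h; exact absurd hg h
        rw [hbg]
        have hw := coeff_eU g.2 x e
        rw [h4 g.2, coeff_smul, smul_eq_mul] at hw
        have hw2 := mul_right_cancel₀ hco hw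
        have hw3 : lam g.2 = e.sum fun g' n => if g'.2 = g.2 then n else 0 := by exact_mod_cast hw2
        calc e g ≤ e.sum fun g' n => if g'.2 = g.2 then n else 0 := by
              by_cases hge : g ∈ e.support
              · have := Finset.single_le_sum (f := fun g' => if g'.2 = g.2 then e g' else 0)
                  (fun _ _ => Nat.zero_le _) hge
                simpa [Finsupp.sum] using this
              · rw [Finsupp.notMem_support_iff.1 hge]; exact Nat.zero_le _
          _ = lam g.2 := hw3.symm
          _ ≤ ∑ c, lam c := Finset.single_le_sum (fun _ _ => Nat.zero_le _) (Finset.mem_univ g.2)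
      · have hz : e g = 0 := by
          by_contra hne
          apply hg
          rw [hT, Set.Finite.mem_toFinset]
          have hv : g ∈ x.vars := by
            rw [mem_vars]
            exact ⟨e, he, Finsupp.mem_support_iff.2 hne⟩
          exact mem_supported.1 h1 hv
        rw [hz]; exact Nat.zero_le _
    have : (monomial e (coeff e x) : Poly p r) = coeff e x • monomial e 1 := by
      rw [smul_monomial, smul_eq_mul, mul_one]
    rw [this]
    exact Submodule.smul_mem _ _ (Submodule.subset_span ⟨e, hmem, rfl⟩)
  have : FiniteDimensional ℚ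
      (Submodule.span ℚ ((fun e => (monomial e (1 : ℚ) : Poly p r)) '' Set.Iic b)) :=
    FiniteDimensional.span_of_finite ℚ (hE.image _)
  exact Submodule.finiteDimensional_of_le hle

end Pool.Agent.PLE
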